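import Pool.Agent.SB19.Check

/-!
# SB19/Check2: several expressions at once, with alternative conditions per box

`nonneg_of_chk2 ps ds t cx rx cy ry cz rz (by decide +kernel) x y z ...`: at every point of the box either some `d ∈ ds` is
nonnegative (the point is outside the region of interest) or all `p ∈ ps` are nonnegative. Leaves of the tree: `L` (all
`p ∈ ps` are nonnegative on the box), `D` (some `d ∈ ds` is nonnegative on the box).
-/

set_option autoImplicit false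

namespace Pool.Agent.SB19

def allP (x y z : R) : List Ex → Bool
  | [] => true
  | e :: l => cond (posR (ev x y z e)) (allP x y z l) false

def anyP (x y z : R) : List Ex → Bool
  | [] => false
  | e :: l => cond (posR (ev x y z e)) true (anyP x y z l)

/-- Subdivisions of a box with two kinds of leaves. -/
inductive Tr2 where
  | L : Tr2
  | D : Tr2
  | X : Tr2 → Tr2 → Tr2
  | Y : Tr2 → Tr2 → Tr2
  | Z : Tr2 → Tr2 → Tr2

def chk2 (ps ds : List Ex) : Tr2 → ℕ → ℕ → ℕ → ℕ → ℕ → ℕ → Bool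
  | .L, cx, rx, cy, ry, cz, rz => allP (varR0 cx rx) (varR1 cy ry) (varR2 cz rz) ps
  | .D, cx, rx, cy, ry, cz, rz => anyP (varR0 cx rx) (varR1 cy ry) (varR2 cz rz) ds
  | .X l r, cx, rx, cy, ry, cz, rz =>
    cond (chk2 ps ds l (Nat.sub cx (hf rx)) (hf rx) cy ry cz rz) (chk2 ps ds r (Nat.add cx (hf rx)) (hf rx) cy ry cz rz)
      false
  | .Y l r, cx, rx, cy, ry, cz, rz =>
    cond (chk2 ps ds l cx rx (Nat.sub cy (hf ry)) (hf ry) cz rz) (chk2 ps ds r cx rx (Nat.add cy (hf ry)) (hf ry) cz rz)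
      false
  | .Z l r, cx, rx, cy, ry, cz, rz =>
    cond (chk2 ps ds l cx rx cy ry (Nat.sub cz (hf rz)) (hf rz)) (chk2 ps ds r cx rx cy ry (Nat.add cz (hf rz)) (hf rz))
      false

theorem allP_spec {x y z : R} (l : List Ex) (h : allP x y z l = true) : ∀ e ∈ l, posR (ev x y z e) = true := by
  induction l with
  | nil => intro e he; exact absurd he (by simp)
  | cons a l ih =>
    simp only [allP] at h
    rw [Bool.cond_eq_ite] at h
    split_ifs at h with h1
    intro e he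
    rcases List.mem_cons.1 he with rfl | h2
    · exact h1
    · exact ih h e h2

theorem anyP_spec {x y z : R} (l : List Ex) (h : anyP x y z l = true) : ∃ e ∈ l, posR (ev x y z e) = true := by
  induction l with
  | nil => exact absurd h (by simp [anyP])
  | cons a l ih =>
    simp only [anyP] at h
    rw [Bool.cond_eq_ite] at h
    split_ifs at h with h1
    · exact ⟨a, List.mem_cons_self, h1⟩
    · obtain ⟨e, he, h2⟩ := ih h
      exact ⟨e, List.mem_cons_of_mem _ he, h2⟩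

theorem box_sound {cx rx cy ry cz rz : ℕ} {e : Ex} (h : posR (ev (varR0 cx rx) (varR1 cy ry) (varR2 cz rz) e) = true)
    (x y z : ℝ) (hx0 : 0 ≤ x) (hy0 : 0 ≤ y) (hz0 : 0 ≤ z)
    (hx : |(S : ℝ) * x - cx| ≤ rx) (hy : |(S : ℝ) * y - cy| ≤ ry) (hz : |(S : ℝ) * z - cz| ≤ rz) :
    0 ≤ e.eval x y z :=
  nonneg_of_chk e .L cx rx cy ry cz rz (by simpa only [chk] using h) x y z hx0 hy0 hz0 hx hy hz

theorem nonneg_of_chk2 (ps ds : List Ex) (t : Tr2) (cx rx cy ry cz rz : ℕ)
    (h : chk2 ps ds t cx rx cy ry cz rz = true)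
    (x y z : ℝ) (hx0 : 0 ≤ x) (hy0 : 0 ≤ y) (hz0 : 0 ≤ z)
    (hx : |(S : ℝ) * x - cx| ≤ rx) (hy : |(S : ℝ) * y - cy| ≤ ry) (hz : |(S : ℝ) * z - cz| ≤ rz) :
    (∃ d ∈ ds, 0 ≤ d.eval x y z) ∨ ∀ p ∈ ps, 0 ≤ p.eval x y z := by
  induction t generalizing cx rx cy ry cz rz with
  | L =>
    simp only [chk2] at h
    right
    intro p hp
    exact box_sound (allP_spec ps h p hp) x y z hx0 hy0 hz0 hx hy hz
  | D =>
    simp only [chk2] at h
    left
    obtain ⟨d, hd, h1⟩ := anyP_spec ds h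
    exact ⟨d, hd, box_sound h1 x y z hx0 hy0 hz0 hx hy hz⟩
  | X l r ihl ihr =>
    simp only [chk2] at h
    rw [Bool.cond_eq_ite] at h
    split_ifs at h with h1
    rcases split_box hx0 hx with h2 | h2
    · exact ihl _ _ _ _ _ _ h1 h2 hy hz
    · exact ihr _ _ _ _ _ _ h h2 hy hz
  | Y l r ihl ihr =>
    simp only [chk2] at h
    rw [Bool.cond_eq_ite] at h
    split_ifs at h with h1
    rcases split_box hy0 hy with h2 | h2
    · exact ihl _ _ _ _ _ _ h1 hx h2 hz
    · exact ihr _ _ _ _ _ _ h hx h2 hz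
  | Z l r ihl ihr =>
    simp only [chk2] at h
    rw [Bool.cond_eq_ite] at h
    split_ifs at h with h1
    rcases split_box hz0 hz with h2 | h2
    · exact ihl _ _ _ _ _ _ h1 hx hy h2
    · exact ihr _ _ _ _ _ _ h hx hy h2

/-- Version with the end points of the box scaled by `2 ^ 20`: the box `[ax, bx] × [ay, by] × [az, bz] / 2 ^ 20`. -/
theorem of_chk2 (ps ds : List Ex) (t : Tr2) (ax bx ay b' az bz : ℕ)
    (h : chk2 ps ds t ((ax + bx) * 524288) ((bx - ax) * 524288) ((ay + b') * 524288) ((b' - ay) * 524288)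
      ((az + bz) * 524288) ((bz - az) * 524288) = true)
    (x y z : ℝ) (hx : (ax : ℝ) / 1048576 ≤ x ∧ x ≤ (bx : ℝ) / 1048576)
    (hy : (ay : ℝ) / 1048576 ≤ y ∧ y ≤ (b' : ℝ) / 1048576) (hz : (az : ℝ) / 1048576 ≤ z ∧ z ≤ (bz : ℝ) / 1048576) :
    (∃ d ∈ ds, 0 ≤ d.eval x y z) ∨ ∀ p ∈ ps, 0 ≤ p.eval x y z := by
  have key : ∀ (a b : ℕ) (w : ℝ), ((a : ℝ) / 1048576 ≤ w ∧ w ≤ (b : ℝ) / 1048576) →
      0 ≤ w ∧ |(S : ℝ) * w - (((a + b) * 524288 : ℕ) : ℝ)| ≤ (((b - a) * 524288 : ℕ) : ℝ) := by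
    intro a b w hw
    have h1 : (a : ℝ) / 1048576 ≤ (b : ℝ) / 1048576 := hw.1.trans hw.2
    have h2 : (a : ℝ) ≤ b := by
      rw [div_le_div_iff_of_pos_right (by norm_num)] at h1
      exact h1
    have h3 : a ≤ b := by exact_mod_cast h2
    have h4 : 0 ≤ w := le_trans (by positivity) hw.1
    refine ⟨h4, ?_⟩
    rw [abs_le]
    push_cast [Nat.cast_sub h3]
    have h5 := hw.1
    have h6 := hw.2
    rw [div_le_iff₀ (by norm_num)] at h5
    rw [le_div_iff₀ (by norm_num)] at h6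
    unfold S
    push_cast
    constructor <;> nlinarith
  obtain ⟨x0, x1⟩ := key ax bx x hx
  obtain ⟨y0, y1⟩ := key ay b' y hy
  obtain ⟨z0, z1⟩ := key az bz z hz
  exact nonneg_of_chk2 ps ds t _ _ _ _ _ _ h x y z x0 y0 z0 x1 y1 z1

end Pool.Agent.SB19
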