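import Mathlib

/-!
# SB19/Bits: numbers packed from digits in base `2 ^ K`, and bitwise operations

`pk K n D` has the digits `D 0, ..., D (n-1)` in base `2 ^ K`. All lemmas about `&&&`, `^^^` and `>>>` follow from
`pk_testBit` by `Nat.eq_of_testBit_eq` (`Nat.testBit_and`, `Nat.testBit_xor`, `Nat.testBit_shiftRight`,
`Nat.testBit_two_pow_sub_one`, `Nat.testBit_div_two_pow`).

Proofs: `pk_lt` by induction on `n`. `pk_testBit` by induction on `n` (`pk K (n+1) D = pk K n D + 2 ^ (K n) * D n` with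
`pk K n D < 2 ^ (K n)`: `Nat.testBit_two_pow_mul_add` or `Nat.testBit_mul_pow_two_add`), then cases `i < K n` and
`K n ≤ i`. `pk_shift`: bit `i` of the left side is bit `i + s` of `pk K n D` and (`i < K n` and `i % K < K - s`); in that
case `(i + s) / K = i / K`, `(i + s) % K = i % K + s`; and bit `j` of `D / 2 ^ s` is bit `j + s` of `D`, which is false if
`K ≤ j + s` as `D < 2 ^ K`.
-/

set_option autoImplicit false

namespace Pool.Agent.SB19

/-- Packed number with digits `D k` in base `2 ^ K`. -/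
def pk (K n : ℕ) (D : ℕ → ℕ) : ℕ := ∑ k ∈ Finset.range n, D k * 2 ^ (K * k)

theorem pk_succ (K n : ℕ) (D : ℕ → ℕ) : pk K (n + 1) D = pk K n D + D n * 2 ^ (K * n) := by
  unfold pk; rw [Finset.sum_range_succ]

theorem pk_congr (K n : ℕ) {D E : ℕ → ℕ} (h : ∀ k < n, D k = E k) : pk K n D = pk K n E := by
  unfold pk
  exact Finset.sum_congr rfl fun k hk => by rw [h k (Finset.mem_range.1 hk)]

theorem pk_add (K n : ℕ) (D E : ℕ → ℕ) : pk K n D + pk K n E = pk K n (fun k => D k + E k) := by
  unfold pk; rw [← Finset.sum_add_distrib]; exact Finset.sum_congr rfl fun k _ => by ring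

theorem pk_mul (K n : ℕ) (D : ℕ → ℕ) (a : ℕ) : pk K n D * a = pk K n (fun k => D k * a) := by
  unfold pk; rw [Finset.sum_mul]; exact Finset.sum_congr rfl fun k _ => by ring

theorem pk_sub (K n : ℕ) (D E : ℕ → ℕ) (h : ∀ k < n, E k ≤ D k) :
    pk K n D - pk K n E = pk K n (fun k => D k - E k) := by
  have h1 : pk K n D = pk K n (fun k => D k - E k) + pk K n E := by
    rw [pk_add]
    exact pk_congr K n fun k hk => (Nat.sub_add_cancel (h k hk)).symm
  rw [h1, Nat.add_sub_cancel]

theorem pk_lt (K n : ℕ) (D : ℕ → ℕ) (hD : ∀ k < n, D k < 2 ^ K) : pk K n D < 2 ^ (K * n) := by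
  induction n with
  | zero => simp [pk]
  | succ n ih =>
    have h1 := ih fun k hk => hD k (Nat.lt_succ_of_lt hk)
    have h2 := hD n (Nat.lt_succ_self n)
    rw [pk_succ, Nat.mul_succ, pow_add]
    have h3 : (D n + 1) * 2 ^ (K * n) ≤ 2 ^ K * 2 ^ (K * n) := Nat.mul_le_mul_right _ h2
    calc pk K n D + D n * 2 ^ (K * n) < 2 ^ (K * n) + D n * 2 ^ (K * n) :=
          Nat.add_lt_add_right h1 _
      _ = (D n + 1) * 2 ^ (K * n) := by ring
      _ ≤ 2 ^ K * 2 ^ (K * n) := h3
      _ = 2 ^ (K * n) * 2 ^ K := Nat.mul_comm _ _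

/-- Bits of a packed number. -/
theorem pk_testBit (K n : ℕ) (D : ℕ → ℕ) (hK : 0 < K) (hD : ∀ k < n, D k < 2 ^ K) (i : ℕ) :
    (pk K n D).testBit i = (decide (i < K * n) && (D (i / K)).testBit (i % K)) := by
  induction n with
  | zero => simp [pk]
  | succ n ih =>
    have h1 := ih fun k hk => hD k (Nat.lt_succ_of_lt hk)
    have h2 := hD n (Nat.lt_succ_self n)
    have hlt := pk_lt K n D fun k hk => hD k (Nat.lt_succ_of_lt hk)
    rw [pk_succ, show pk K n D + D n * 2 ^ (K * n) = 2 ^ (K * n) * D n + pk K n D by ring,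
      Nat.testBit_two_pow_mul_add _ hlt]
    by_cases hi : i < K * n
    · rw [if_pos hi, h1]
      have h3 : i < K * (n + 1) := lt_of_lt_of_le hi (Nat.mul_le_mul_left _ (Nat.le_succ n))
      simp [hi, h3]
    · rw [if_neg hi]
      rw [not_lt] at hi
      by_cases hj : i < K * (n + 1)
      · have hd : i / K = n := by
          apply Nat.div_eq_of_lt_le
          · rw [Nat.mul_comm]; exact hi
          · rw [Nat.mul_comm]; exact hj
        have hm : i % K = i - K * n := by
          have h4 := Nat.div_add_mod i K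
          rw [hd] at h4
          omega
        rw [hd, hm]
        simp [hj]
      · rw [not_lt] at hj
        have h5 : D n < 2 ^ (i - K * n) := by
          refine lt_of_lt_of_le h2 (Nat.pow_le_pow_right (by norm_num) ?_)
          rw [Nat.mul_succ] at hj
          omega
        rw [Nat.testBit_lt_two_pow h5]
        simp [not_lt.2 hj]

theorem pk_land (K n : ℕ) (D E : ℕ → ℕ) (hK : 0 < K) (hD : ∀ k < n, D k < 2 ^ K) (hE : ∀ k < n, E k < 2 ^ K) :
    pk K n D &&& pk K n E = pk K n (fun k => D k &&& E k) := by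
  refine Nat.eq_of_testBit_eq fun i => ?_
  rw [Nat.testBit_and, pk_testBit K n D hK hD, pk_testBit K n E hK hE,
    pk_testBit K n _ hK fun k hk => lt_of_le_of_lt Nat.and_le_left (hD k hk), Nat.testBit_and]
  cases decide (i < K * n) <;> simp

theorem pk_xor (K n : ℕ) (D E : ℕ → ℕ) (hK : 0 < K) (hD : ∀ k < n, D k < 2 ^ K) (hE : ∀ k < n, E k < 2 ^ K) :
    pk K n D ^^^ pk K n E = pk K n (fun k => D k ^^^ E k) := by
  refine Nat.eq_of_testBit_eq fun i => ?_
  rw [Nat.testBit_xor, pk_testBit K n D hK hD, pk_testBit K n E hK hE,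
    pk_testBit K n _ hK fun k hk => Nat.xor_lt_two_pow (hD k hk) (hE k hk), Nat.testBit_xor]
  cases decide (i < K * n) <;> simp

/-- Division of all digits by `2 ^ s`. -/
theorem pk_shift (K n s : ℕ) (D : ℕ → ℕ) (hK : 0 < K) (hs : s ≤ K) (hD : ∀ k < n, D k < 2 ^ K) :
    (pk K n D >>> s) &&& pk K n (fun _ => 2 ^ (K - s) - 1) = pk K n (fun k => D k / 2 ^ s) := by
  refine Nat.eq_of_testBit_eq fun i => ?_
  have hE : ∀ k < n, (fun _ : ℕ => 2 ^ (K - s) - 1) k < 2 ^ K := fun k _ => by
    have h1 : 2 ^ (K - s) ≤ 2 ^ K := Nat.pow_le_pow_right (by norm_num) (Nat.sub_le K s)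
    have h2 : 0 < 2 ^ (K - s) := Nat.two_pow_pos _
    show 2 ^ (K - s) - 1 < 2 ^ K
    omega
  have hF : ∀ k < n, (fun k => D k / 2 ^ s) k < 2 ^ K := fun k hk =>
    lt_of_le_of_lt (Nat.div_le_self _ _) (hD k hk)
  rw [Nat.testBit_and, Nat.testBit_shiftRight, pk_testBit K n D hK hD, pk_testBit K n _ hK hE,
    pk_testBit K n _ hK hF, Nat.testBit_two_pow_sub_one, Nat.testBit_div_two_pow]
  by_cases hi : i < K * n
  · have hik : i / K < n := by
      rw [Nat.div_lt_iff_lt_mul hK, Nat.mul_comm]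
      exact hi
    by_cases hj : i % K < K - s
    · have hmod := Nat.div_add_mod i K
      have hd : (s + i) / K = i / K := by
        apply Nat.div_eq_of_lt_le
        · rw [Nat.mul_comm]
          omega
        · rw [Nat.mul_comm, Nat.mul_succ]
          omega
      have hm : (s + i) % K = i % K + s := by
        have h4 := Nat.div_add_mod (s + i) K
        rw [hd] at h4
        omega
      have hsi : s + i < K * n := by
        have h5 : K * (i / K + 1) ≤ K * n := Nat.mul_le_mul_left _ hik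
        rw [Nat.mul_succ] at h5
        omega
      rw [hd, hm]
      simp [hi, hj, hsi]
    · have hb : (D (i / K)).testBit (i % K + s) = false := by
        apply Nat.testBit_lt_two_pow
        refine lt_of_lt_of_le (hD _ hik) (Nat.pow_le_pow_right (by norm_num) ?_)
        omega
      simp [hj, hb]
  · simp [hi]

/-- Dropping the lowest `m` digits. -/
theorem pk_drop (K n m : ℕ) (D : ℕ → ℕ) (hK : 0 < K) (hD : ∀ k < n + m, D k < 2 ^ K) :
    pk K (n + m) D >>> (K * m) = pk K n (fun k => D (k + m)) := by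
  have h1 : pk K (n + m) D = pk K m D + 2 ^ (K * m) * pk K n (fun k => D (k + m)) := by
    unfold pk
    rw [Nat.add_comm n m, Finset.sum_range_add, Finset.mul_sum]
    congr 1
    refine Finset.sum_congr rfl fun k _ => ?_
    rw [Nat.add_comm m k, Nat.mul_add, pow_add]
    ring
  have h2 : pk K m D < 2 ^ (K * m) := pk_lt K m D fun k hk => hD k (by omega)
  rw [Nat.shiftRight_eq_div_pow, h1, Nat.add_mul_div_left _ _ (Nat.two_pow_pos _),
    Nat.div_eq_of_lt h2, Nat.zero_add]

/-- Keeping some digits. -/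
theorem pk_select (K n : ℕ) (D : ℕ → ℕ) (p : ℕ → Prop) [DecidablePred p] (hK : 0 < K) (hD : ∀ k < n, D k < 2 ^ K) :
    pk K n D &&& pk K n (fun k => if p k then 2 ^ K - 1 else 0) = pk K n (fun k => if p k then D k else 0) := by
  have hE : ∀ k < n, (fun k => if p k then 2 ^ K - 1 else 0) k < 2 ^ K := fun k _ => by
    have h2 : 0 < 2 ^ K := Nat.two_pow_pos _
    show (if p k then 2 ^ K - 1 else 0) < 2 ^ K
    split_ifs <;> omega
  rw [pk_land K n D _ hK hD hE]
  refine pk_congr K n fun k hk => ?_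
  show D k &&& (if p k then 2 ^ K - 1 else 0) = if p k then D k else 0
  split_ifs
  · rw [Nat.and_two_pow_sub_one_eq_mod, Nat.mod_eq_of_lt (hD k hk)]
  · simp

/-- The lowest digits. -/
theorem pk_mod (K n m : ℕ) (D : ℕ → ℕ) (hm : m ≤ n) (hD : ∀ k < n, D k < 2 ^ K) :
    pk K n D % 2 ^ (K * m) = pk K m D := by
  obtain ⟨d, rfl⟩ := Nat.exists_eq_add_of_le hm
  have h1 : pk K (m + d) D = pk K m D + 2 ^ (K * m) * pk K d (fun k => D (m + k)) := by
    unfold pk
    rw [Finset.sum_range_add, Finset.mul_sum]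
    congr 1
    refine Finset.sum_congr rfl fun k _ => ?_
    rw [Nat.mul_add, pow_add]
    ring
  have h2 : pk K m D < 2 ^ (K * m) := pk_lt K m D fun k hk => hD k (by omega)
  rw [h1, Nat.add_mul_mod_self_left, Nat.mod_eq_of_lt h2]

end Pool.Agent.SB19
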