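import Pool.Agent.SB19.Sem
import Pool.Agent.SB19.Bits

/-!
# SB19/Resc: division of all coefficients by `S`

`X = (P + beta) % 2 ^ 11760 = pk 112 105 D` with `D k = (w k + H).toNat`, `0 < D k < T` (see the header of `Nrm`, step 1);
`(X >>> 40) &&& mask = pk (D k / 2 ^ 40)` by `pk_shift` (`mask = pk 112 105 (fun _ => 2 ^ 72 - 1)`), and
`D k / 2 ^ 40 = w k / 2 ^ 40 + 2 ^ 71` (floor division of integers, `H = 2 ^ 71 * 2 ^ 40`). `corr = 2 ^ 11760 - pk (2 ^ 71)`. So
`resc P ≡ ∑ (w k / 2 ^ 40) T ^ k` modulo `TN`. The constants are checked by `decide +kernel`.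
-/

set_option autoImplicit false

namespace Pool.Agent.SB19

private theorem resc_TN1 : TN1 = 2 ^ 11760 - 1 := by decide +kernel

private theorem resc_mask : mask = pk 112 105 (fun _ => 2 ^ (112 - 40) - 1) := by decide +kernel

private theorem resc_beta : beta = pk 112 105 (fun _ => 2 ^ 111) := by decide +kernel

private theorem resc_corr : corr + pk 112 105 (fun _ => 2 ^ 71) = 2 ^ 11760 := by decide +kernel

private theorem resc_TN : TN = 2 ^ 11760 := rfl

private theorem pk_cast (D : ℕ → ℕ) : ((pk 112 105 D : ℕ) : ℤ) = code (fun k => (D k : ℤ)) := by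
  unfold pk code T
  rw [Nat.cast_sum]
  refine Finset.sum_congr rfl fun k _ => ?_
  rw [Nat.cast_mul, pow_mul]
  push_cast
  rfl

private theorem code_add' (c c' : ℕ → ℤ) : code (fun k => c k + c' k) = code c + code c' := by
  unfold code
  rw [← Finset.sum_add_distrib]
  exact Finset.sum_congr rfl fun k _ => by ring

theorem resc_spec {P : ℕ} {w : ℕ → ℤ} (hw : ∀ k, (w k).natAbs < 2 ^ 111)
    (hP : (P : ℤ) ≡ code w [ZMOD (TN : ℤ)]) :
    ((resc P : ℕ) : ℤ) ≡ code (fun k => w k / (S : ℤ)) [ZMOD (TN : ℤ)] := by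
  set D : ℕ → ℕ := fun k => (w k + 2 ^ 111).toNat with hD
  have hDc : ∀ k, (D k : ℤ) = w k + 2 ^ 111 := by
    intro k
    have := hw k
    simp only [hD]
    rw [Int.toNat_of_nonneg]
    omega
  have hDlt : ∀ k, D k < 2 ^ 112 := by
    intro k
    have h1 := hw k
    have h2 := hDc k
    omega
  have hX : (P + beta) % 2 ^ 11760 = pk 112 105 D := by
    have h1 : pk 112 105 D < 2 ^ 11760 := by
      have := pk_lt 112 105 D (fun k _ => hDlt k)
      simpa using this
    have h2 : (((P + beta : ℕ) : ℤ)) ≡ ((pk 112 105 D : ℕ) : ℤ) [ZMOD (TN : ℤ)] := by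
      have h3 : ((pk 112 105 D : ℕ) : ℤ) = code w + (beta : ℤ) := by
        rw [pk_cast, resc_beta, pk_cast, ← code_add']
        congr 1
        funext k
        rw [hDc]
        push_cast
        rfl
      rw [h3, Nat.cast_add]
      exact hP.add_right _
    have h4 : (P + beta) ≡ pk 112 105 D [MOD 2 ^ 11760] := by
      have := (Int.natCast_modEq_iff (n := TN)).1 h2
      simpa [TN] using this
    have h5 : (P + beta) % 2 ^ 11760 = pk 112 105 D % 2 ^ 11760 := h4
    rw [h5, Nat.mod_eq_of_lt h1]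
  have hR : resc P = pk 112 105 (fun k => D k / 2 ^ 40) + corr := by
    have h1 : resc P = ((((P + beta) &&& TN1) >>> 40) &&& mask) + corr := rfl
    rw [h1, resc_TN1, Nat.and_two_pow_sub_one_eq_mod, hX, resc_mask,
      pk_shift 112 105 40 D (by norm_num) (by norm_num) (fun k _ => hDlt k)]
  have hq : ∀ k, ((D k / 2 ^ 40 : ℕ) : ℤ) = w k / (S : ℤ) + 2 ^ 71 := by
    intro k
    have hS : (S : ℤ) = 2 ^ 40 := by unfold S; norm_num
    rw [Int.natCast_ediv, hDc, hS]
    norm_num
    omega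
  have hfin : ((resc P : ℕ) : ℤ) = code (fun k => w k / (S : ℤ)) + (TN : ℤ) := by
    rw [hR, Nat.cast_add, pk_cast]
    have h1 : (fun k => ((D k / 2 ^ 40 : ℕ) : ℤ)) = fun k => w k / (S : ℤ) + ((2 ^ 71 : ℕ) : ℤ) := by
      funext k
      rw [hq k]
      push_cast
      rfl
    have h2 : code (fun _ => ((2 ^ 71 : ℕ) : ℤ)) + (corr : ℤ) = (TN : ℤ) := by
      rw [← pk_cast (fun _ => 2 ^ 71), ← Nat.cast_add, add_comm, resc_corr, resc_TN]
    rw [h1, code_add', add_assoc, h2]
  rw [hfin]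
  exact (Int.modEq_iff_dvd.2 ⟨-1, by ring⟩)

end Pool.Agent.SB19
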