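import Pool.Agent.SB19.Sem

/-!
# SB19/Tot: reading off norms and the constant coefficient

`tot M = M % (T - 1)`, and `T ≡ 1` modulo `T - 1`, so `NP c ≡ ∑ g, NG c g = NT c`. `nz M = M % T`: `NP c ≡ NG c 0`, and
`NG c 0 = |c 0|` because of `Supp c` and `not_used_small`. `c0b P = (P + H) % T`: `P ≡ code c ≡ c 0` modulo `T` (as
`T ∣ TN`), and `0 ≤ c 0 + H < T`.
-/

set_option autoImplicit false

namespace Pool.Agent.SB19

private theorem sum_blocks (f : ℕ → ℕ) (n : ℕ) :
    ∑ g ∈ Finset.range n, ∑ j ∈ Finset.range 21, f (21 * g + j) = ∑ k ∈ Finset.range (21 * n), f k := by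
  induction n with
  | zero => simp
  | succ n ih => rw [Finset.sum_range_succ, ih, mul_add, mul_one, Finset.sum_range_add]

theorem sum_NG (c : ℕ → ℤ) : ∑ g ∈ Finset.range 5, NG c g = NT c :=
  sum_blocks (fun k => (c k).natAbs) 5

private theorem T_val : T = 5192296858534827628530496329220096 := by unfold T; norm_num

theorem tot_NP (c : ℕ → ℤ) (h : NT c < 2 ^ 111) : tot (NP c) = NT c := by
  have h1 : tot (NP c) = NP c % 5192296858534827628530496329220095 := rfl
  rw [h1]
  have h2 : T ≡ 1 [MOD 5192296858534827628530496329220095] := by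
    rw [T_val]; decide
  have h3 : NP c ≡ NT c [MOD 5192296858534827628530496329220095] := by
    rw [← sum_NG]
    unfold NP
    refine Nat.ModEq.sum fun g _ => ?_
    have h4 := (Nat.ModEq.refl (NG c g)).mul (h2.pow (21 * g))
    simpa using h4
  rw [h3, Nat.mod_eq_of_lt]
  refine h.trans ?_
  norm_num

private theorem NG_zero {c : ℕ → ℤ} (hs : Supp c) : NG c 0 = (c 0).natAbs := by
  unfold NG
  rw [Finset.sum_eq_single_of_mem 0 (by simp)]
  intro j hj h0
  have h1 := hs j (not_used_small (Nat.pos_of_ne_zero h0) (Finset.mem_range.1 hj))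
  simp [h1]

private theorem le_NT (c : ℕ → ℤ) : (c 0).natAbs ≤ NT c :=
  Finset.single_le_sum (f := fun k => (c k).natAbs) (fun _ _ => Nat.zero_le _)
    (Finset.mem_range.2 (by norm_num : 0 < 105))

theorem nz_NP {c : ℕ → ℤ} (hs : Supp c) (h : NT c < 2 ^ 111) : nz (NP c) = (c 0).natAbs := by
  have h1 : nz (NP c) = NP c % 5192296858534827628530496329220096 := rfl
  have h2 : NP c ≡ NG c 0 [MOD T] := by
    unfold NP
    rw [Finset.sum_range_succ']
    have h3 : ∑ g ∈ Finset.range 4, NG c (g + 1) * T ^ (21 * (g + 1)) ≡ 0 [MOD T] := by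
      refine (Nat.modEq_zero_iff_dvd).2 (Finset.dvd_sum fun g _ => ?_)
      exact Dvd.dvd.mul_left (dvd_pow_self T (by omega)) _
    have h4 := h3.add_right (NG c 0 * T ^ (21 * 0))
    simpa using h4
  rw [h1, ← T_val, h2, NG_zero hs, Nat.mod_eq_of_lt]
  have h5 := le_NT c
  have h6 : (2 : ℕ) ^ 111 < T := by rw [T_val]; norm_num
  omega

private theorem code_eq (c : ℕ → ℤ) :
    code c = (∑ k ∈ Finset.range 104, c (k + 1) * (T : ℤ) ^ (k + 1)) + c 0 := by
  unfold code
  rw [Finset.sum_range_succ']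
  simp

theorem c0b_spec {P : ℕ} {c : ℕ → ℤ} (hP : (P : ℤ) ≡ code c [ZMOD (TN : ℤ)]) (h : (c 0).natAbs < 2 ^ 111) :
    ((c0b P : ℕ) : ℤ) = c 0 + (H : ℤ) := by
  have h1 : c0b P = (P + H) % T := by
    rw [T_val]
    rfl
  have hTN : (T : ℤ) ∣ (TN : ℤ) := by
    rw [TN_eq]
    push_cast
    exact dvd_pow_self _ (by norm_num)
  have h2 : (P : ℤ) ≡ c 0 [ZMOD (T : ℤ)] := by
    refine (hP.of_dvd hTN).trans ?_
    rw [code_eq]
    have h3 : (∑ k ∈ Finset.range 104, c (k + 1) * (T : ℤ) ^ (k + 1)) ≡ 0 [ZMOD (T : ℤ)] := by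
      refine (Int.modEq_zero_iff_dvd).2 (Finset.dvd_sum fun g _ => ?_)
      exact Dvd.dvd.mul_left (dvd_pow_self _ (by omega)) _
    simpa using h3.add_right (c 0)
  have h3 : ((P : ℤ) + H) % (T : ℤ) = (c 0 + H) % (T : ℤ) := h2.add_right _
  have hH : (H : ℤ) = 2 ^ 111 := by unfold H; norm_num
  have hT : (T : ℤ) = 2 * 2 ^ 111 := by unfold T; norm_num
  rw [h1]
  push_cast
  rw [h3, Int.emod_eq_of_lt]
  · rw [hH]; omega
  · rw [hH, hT]; omega

/-- Removing the constant coefficient. -/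
theorem code_sub_zero (c : ℕ → ℤ) : code (fun k => if k = 0 then 0 else c k) = code c - c 0 := by
  rw [code_eq, code_eq]
  simp

theorem NT_sub_zero (c : ℕ → ℤ) : NT (fun k => if k = 0 then 0 else c k) = NT c - (c 0).natAbs := by
  unfold NT
  rw [Finset.sum_range_succ', Finset.sum_range_succ' (fun k => (c k).natAbs)]
  simp

end Pool.Agent.SB19
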