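import Pool.Agent.SB19.Sem

/-!
# SB19/ValBd: bounds of values by norms

`|mon ε k| ≤ 1` on the cube (`abs_mon_le`); `val_div`: the difference `w k / S - ⌊w k / S⌋` lies in `[0, 1)` and vanishes
outside the 35 used digits (`used_card`; `0 / S = 0`).
-/

set_option autoImplicit false

namespace Pool.Agent.SB19

theorem abs_val_le (c : ℕ → ℤ) {ε : ℕ → ℝ} (hε : Cube ε) : |val c ε| ≤ (NT c : ℝ) := by
  unfold val NT
  rw [Nat.cast_sum]
  refine (Finset.abs_sum_le_sum_abs _ _).trans (Finset.sum_le_sum fun k _ => ?_)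
  rw [abs_mul, Nat.cast_natAbs, Int.cast_abs]
  exact mul_le_of_le_one_right (abs_nonneg _) (abs_mon_le hε k)

theorem abs_val_sub_le (c : ℕ → ℤ) {ε : ℕ → ℝ} (hε : Cube ε) :
    |val c ε - (c 0 : ℝ)| ≤ (NT c : ℝ) - ((c 0).natAbs : ℝ) := by
  unfold val NT
  have e1 : ∑ k ∈ Finset.range 105, (c k : ℝ) * mon ε k
      = ∑ k ∈ Finset.range 104, (c (k + 1) : ℝ) * mon ε (k + 1) + (c 0 : ℝ) := by
    rw [Finset.sum_range_succ' (fun k => (c k : ℝ) * mon ε k) 104, mon_zero, mul_one]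
  have e2 : ∑ k ∈ Finset.range 105, (c k).natAbs
      = ∑ k ∈ Finset.range 104, (c (k + 1)).natAbs + (c 0).natAbs :=
    Finset.sum_range_succ' (fun k => (c k).natAbs) 104
  rw [e1, e2, Nat.cast_add, add_sub_cancel_right, add_sub_cancel_right, Nat.cast_sum]
  refine (Finset.abs_sum_le_sum_abs _ _).trans (Finset.sum_le_sum fun k _ => ?_)
  rw [abs_mul, Nat.cast_natAbs, Int.cast_abs]
  exact mul_le_of_le_one_right (abs_nonneg _) (abs_mon_le hε _)

theorem val_add (c c' : ℕ → ℤ) (ε : ℕ → ℝ) : val (fun k => c k + c' k) ε = val c ε + val c' ε := by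
  unfold val
  rw [← Finset.sum_add_distrib]
  refine Finset.sum_congr rfl fun k _ => ?_
  push_cast
  ring

theorem val_neg (c : ℕ → ℤ) (ε : ℕ → ℝ) : val (fun k => -c k) ε = -val c ε := by
  unfold val
  rw [← Finset.sum_neg_distrib]
  refine Finset.sum_congr rfl fun k _ => ?_
  push_cast
  ring

theorem val_mul_const (c : ℕ → ℤ) (v : ℤ) (ε : ℕ → ℝ) : val (fun k => c k * v) ε = val c ε * (v : ℝ) := by
  unfold val
  rw [Finset.sum_mul]
  refine Finset.sum_congr rfl fun k _ => ?_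
  push_cast
  ring

theorem code_add (c c' : ℕ → ℤ) : code (fun k => c k + c' k) = code c + code c' := by
  unfold code
  rw [← Finset.sum_add_distrib]
  exact Finset.sum_congr rfl fun k _ => by ring

theorem code_neg (c : ℕ → ℤ) : code (fun k => -c k) = -code c := by
  unfold code
  rw [← Finset.sum_neg_distrib]
  exact Finset.sum_congr rfl fun k _ => by ring

theorem code_mul_const (c : ℕ → ℤ) (v : ℤ) : code (fun k => c k * v) = code c * v := by
  unfold code
  rw [Finset.sum_mul]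
  exact Finset.sum_congr rfl fun k _ => by ring

/-- Value of a family with one nonzero coefficient. -/
theorem val_single (j : ℕ) (hj : j < 105) (v : ℤ) (ε : ℕ → ℝ) :
    val (fun k => if k = j then v else 0) ε = (v : ℝ) * mon ε j := by
  unfold val
  rw [Finset.sum_eq_single_of_mem j (Finset.mem_range.2 hj)]
  · simp
  · intro k _ hk
    simp [hk]

theorem code_single (j : ℕ) (hj : j < 105) (v : ℤ) : code (fun k => if k = j then v else 0) = v * (T : ℤ) ^ j := by
  unfold code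
  rw [Finset.sum_eq_single_of_mem j (Finset.mem_range.2 hj)]
  · simp
  · intro k _ hk
    simp [hk]

/-- Rounding of all coefficients. -/
theorem val_div {w : ℕ → ℤ} (hs : Supp w) {ε : ℕ → ℝ} (hε : Cube ε) :
    |val w ε / (S : ℝ) - val (fun k => w k / (S : ℤ)) ε| ≤ 35 := by
  have hS : (0 : ℝ) < (S : ℝ) := by exact_mod_cast S_pos
  have hSZ : (0 : ℤ) < (S : ℤ) := by exact_mod_cast S_pos
  unfold val
  rw [Finset.sum_div, ← Finset.sum_sub_distrib]
  refine (Finset.abs_sum_le_sum_abs _ _).trans ?_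
  have key : ∀ k ∈ Finset.range 105,
      |(w k : ℝ) * mon ε k / (S : ℝ) - ((w k / (S : ℤ) : ℤ) : ℝ) * mon ε k| ≤ if used k then (1 : ℝ) else 0 := by
    intro k _
    by_cases hu : used k
    · rw [if_pos hu]
      have h1 : (w k : ℝ) * mon ε k / (S : ℝ) - ((w k / (S : ℤ) : ℤ) : ℝ) * mon ε k
          = ((w k : ℝ) / (S : ℝ) - ((w k / (S : ℤ) : ℤ) : ℝ)) * mon ε k := by ring
      have h2 : (w k : ℝ) = (S : ℝ) * ((w k / (S : ℤ) : ℤ) : ℝ) + ((w k % (S : ℤ) : ℤ) : ℝ) := by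
        exact_mod_cast (Int.mul_ediv_add_emod (w k) (S : ℤ)).symm
      have h3 : (w k : ℝ) / (S : ℝ) - ((w k / (S : ℤ) : ℤ) : ℝ) = ((w k % (S : ℤ) : ℤ) : ℝ) / (S : ℝ) := by
        rw [eq_div_iff hS.ne', sub_mul, div_mul_cancel₀ _ hS.ne']
        linarith
      have h4 : (0 : ℝ) ≤ ((w k % (S : ℤ) : ℤ) : ℝ) := by
        exact_mod_cast Int.emod_nonneg (w k) hSZ.ne'
      have h5 : ((w k % (S : ℤ) : ℤ) : ℝ) ≤ (S : ℝ) := by
        exact_mod_cast (Int.emod_lt_of_pos (w k) hSZ).le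
      rw [h1, h3, abs_mul, abs_of_nonneg (div_nonneg h4 hS.le)]
      exact mul_le_one₀ ((div_le_one hS).2 h5) (abs_nonneg _) (abs_mon_le hε k)
    · rw [if_neg hu, hs k hu]
      simp
  refine (Finset.sum_le_sum key).trans ?_
  rw [← Finset.sum_filter, Finset.sum_const, used_card]
  norm_num

theorem natAbs_ediv_le (w : ℤ) (B : ℕ) (h : w.natAbs ≤ B) : (w / (S : ℤ)).natAbs ≤ B / S + 1 := by
  have hS : (0 : ℤ) < (S : ℤ) := by exact_mod_cast S_pos
  have h1 := Int.mul_ediv_add_emod w (S : ℤ)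
  have h2 := Int.emod_nonneg w hS.ne'
  have h3 := Int.emod_lt_of_pos w hS
  have h4 : -(B : ℤ) ≤ w ∧ w ≤ B := by omega
  have h5 : (B : ℤ) < (S : ℤ) * ((B / S : ℕ) + 1 : ℤ) := by
    exact_mod_cast Nat.lt_mul_div_succ B S_pos
  set q : ℤ := w / (S : ℤ)
  set b : ℤ := ((B / S : ℕ) : ℤ) with hb
  have h6 : q ≤ b := by
    by_contra hc
    have : b + 1 ≤ q := by omega
    have := mul_le_mul_of_nonneg_left this hS.le
    linarith [h4.2]
  have h7 : -(b + 1) ≤ q := by
    by_contra hc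
    have : q ≤ -(b + 1) - 1 := by omega
    have := mul_le_mul_of_nonneg_left this hS.le
    nlinarith [h4.1]
  omega

end Pool.Agent.SB19
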