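import Pool.Agent.SB19.Nrm
import Pool.Agent.SB19.Tot
import Pool.Agent.SB19.Resc
import Pool.Agent.SB19.ValBd

/-!
# SB19/LinSound: soundness of the linear operations

`sclR`, `sclN`: new coefficients `c k * v / S`; with `|S l - v| ≤ ev`, `0 ≤ l`:
`|S l f - val (c v) / S| ≤ |val c| ev / S + e (v + ev) / S`, `|val c| ≤ NT c ≤ 35 b`.
`numR p q`: `|S (p / q) - ⌊p S / q⌋| < 1` for `q > 0`, for `q = 0` both are `0`.
-/

set_option autoImplicit false

namespace Pool.Agent.SB19

private theorem ls_TN1 : TN1 = 2 ^ 11760 - 1 := by decide +kernel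

private theorem ls_shr (x : ℕ) : Nat.shiftRight x (nat_lit 40) = x / S := Nat.shiftRight_eq_div_pow x 40

private theorem ls_S_pos : (0 : ℝ) < (S : ℝ) := by exact_mod_cast S_pos

private theorem ls_S_ne : (S : ℝ) ≠ 0 := ls_S_pos.ne'

private theorem ls_div_le (x : ℕ) : (x : ℝ) / (S : ℝ) ≤ ((x / S : ℕ) : ℝ) + 1 := by
  rw [div_le_iff₀ ls_S_pos]
  have h : x < (x / S + 1) * S := by
    rw [mul_comm]
    exact Nat.lt_mul_div_succ x S_pos
  have h' : (x : ℝ) < (((x / S + 1) * S : ℕ) : ℝ) := by exact_mod_cast h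
  push_cast at h'
  exact h'.le

theorem addR_sound {x y : R} {f g : (ℕ → ℝ) → ℝ} (hx : Rep x f) (hy : Rep y g) :
    Rep (addR x y) (fun ε => f ε + g ε) := by
  cases x with
  | bad => trivial
  | ok P b e =>
    cases y with
    | bad => trivial
    | ok P' b' e' =>
      obtain ⟨c, hc⟩ := hx
      obtain ⟨c', hc'⟩ := hy
      refine ⟨fun k => c k + c' k, ?_, ?_, ?_, ?_⟩
      · intro k hk
        show c k + c' k = 0
        rw [hc.supp k hk, hc'.supp k hk, add_zero]
      · intro k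
        exact (Int.natAbs_add_le _ _).trans (Nat.add_le_add (hc.bd k) (hc'.bd k))
      · rw [code_add]
        have h : ((Nat.add P P' : ℕ) : ℤ) = P + P' := Nat.cast_add P P'
        rw [h]
        exact hc.cod.add hc'.cod
      · intro ε hε
        rw [val_add]
        have h1 := hc.err ε hε
        have h2 := hc'.err ε hε
        have h : ((Nat.add e e' : ℕ) : ℝ) = e + e' := Nat.cast_add e e'
        rw [h]
        calc |(S : ℝ) * (f ε + g ε) - (val c ε + val c' ε)|
            = |((S : ℝ) * f ε - val c ε) + ((S : ℝ) * g ε - val c' ε)| := by ring_nf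
          _ ≤ _ := (abs_add_le _ _).trans (add_le_add h1 h2)

theorem negR_sound {x : R} {f : (ℕ → ℝ) → ℝ} (hx : Rep x f) : Rep (negR x) (fun ε => -f ε) := by
  cases x with
  | bad => trivial
  | ok P b e =>
    obtain ⟨c, hc⟩ := hx
    refine ⟨fun k => -c k, ?_, ?_, ?_, ?_⟩
    · intro k hk
      show -c k = 0
      rw [hc.supp k hk, neg_zero]
    · intro k
      show (-c k).natAbs ≤ b
      rw [Int.natAbs_neg]
      exact hc.bd k
    · rw [code_neg]
      have h0 : Nat.land P TN1 = P % TN := by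
        have h1 : Nat.land P TN1 = P &&& TN1 := rfl
        rw [h1, ls_TN1, Nat.and_two_pow_sub_one_eq_mod]
        rfl
      have hlt : P % TN ≤ TN := (Nat.mod_lt P (by rw [TN_eq]; exact pow_pos T_pos _)).le
      have h : ((Nat.sub TN (Nat.land P TN1) : ℕ) : ℤ) = (TN : ℤ) - ((P : ℤ) % (TN : ℤ)) := by
        rw [h0]
        have h2 : ((Nat.sub TN (P % TN) : ℕ) : ℤ) = (TN : ℤ) - ((P % TN : ℕ) : ℤ) := Nat.cast_sub hlt
        rw [h2, Int.natCast_mod]
      rw [h]
      have h3 : (TN : ℤ) - ((P : ℤ) % (TN : ℤ)) ≡ 0 - (P : ℤ) [ZMOD (TN : ℤ)] := by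
        refine Int.ModEq.sub ?_ ?_
        · exact Int.modEq_zero_iff_dvd.2 dvd_rfl
        · exact Int.mod_modEq _ _
      rw [zero_sub] at h3
      exact h3.trans hc.cod.neg
    · intro ε hε
      rw [val_neg]
      have h1 := hc.err ε hε
      rw [← abs_neg] at h1
      calc |(S : ℝ) * (-f ε) - -val c ε| = |-((S : ℝ) * f ε - val c ε)| := by ring_nf
        _ ≤ _ := h1

/-- A constant. -/
theorem const_sound (v e : ℕ) (l : ℝ) (h : |(S : ℝ) * l - v| ≤ e) : Rep (.ok v v e) (fun _ => l) := by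
  refine ⟨fun k => if k = 0 then (v : ℤ) else 0, ?_, ?_, ?_, ?_⟩
  · intro k hk
    have : k ≠ 0 := by
      rintro rfl
      exact hk used_zero
    exact if_neg this
  · intro k
    show (if k = 0 then (v : ℤ) else 0).natAbs ≤ v
    split_ifs <;> simp
  · rw [code_single 0 (by norm_num), pow_zero, mul_one]
  · intro ε hε
    rw [val_single 0 (by norm_num), mon_zero]
    simpa using h

theorem numR_sound (p q : ℕ) : Rep (numR p q) (fun _ => (p : ℝ) / (q : ℝ)) := by
  refine const_sound (p * S / q) 1 _ ?_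
  rcases Nat.eq_zero_or_pos q with rfl | hq
  · simp
  · have hq' : (0 : ℝ) < (q : ℝ) := by exact_mod_cast hq
    have h1 : ((p * S / q : ℕ) : ℝ) * (q : ℝ) ≤ (p : ℝ) * (S : ℝ) := by
      exact_mod_cast Nat.div_mul_le_self (p * S) q
    have h2 : (p : ℝ) * (S : ℝ) < (((p * S / q : ℕ) : ℝ) + 1) * (q : ℝ) := by
      have := Nat.lt_mul_div_succ (p * S) hq
      rw [mul_comm q] at this
      exact_mod_cast this
    have h3 : (S : ℝ) * ((p : ℝ) / (q : ℝ)) = (p : ℝ) * (S : ℝ) / (q : ℝ) := by ring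
    rw [h3, abs_le]
    have h4 : ((p * S / q : ℕ) : ℝ) ≤ (p : ℝ) * (S : ℝ) / (q : ℝ) := by
      rw [le_div_iff₀ hq']
      exact h1
    have h5 : (p : ℝ) * (S : ℝ) / (q : ℝ) ≤ ((p * S / q : ℕ) : ℝ) + 1 := by
      rw [div_le_iff₀ hq']
      exact h2.le
    push_cast
    constructor <;> linarith

theorem oneR_sound : Rep oneR (fun _ => 1) := by
  refine const_sound S 0 1 ?_
  simp

theorem errR_sound {x : R} {f g : (ℕ → ℝ) → ℝ} (r : ℕ) (hx : Rep x f)
    (h : ∀ ε, Cube ε → |(S : ℝ) * g ε - (S : ℝ) * f ε| ≤ r) : Rep (errR r x) g := by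
  cases x with
  | bad => trivial
  | ok P b e =>
    obtain ⟨c, hc⟩ := hx
    refine ⟨c, hc.supp, hc.bd, hc.cod, ?_⟩
    intro ε hε
    have h1 := hc.err ε hε
    have h2 := h ε hε
    have h3 : ((Nat.add e r : ℕ) : ℝ) = e + r := Nat.cast_add e r
    rw [h3]
    calc |(S : ℝ) * g ε - val c ε| = |((S : ℝ) * f ε - val c ε) + ((S : ℝ) * g ε - (S : ℝ) * f ε)| := by
          ring_nf
      _ ≤ _ := (abs_add_le _ _).trans (add_le_add h1 h2)

/-- Common part of `sclR` and `sclN`. -/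
private theorem ls_scl {P b e : ℕ} {f : (ℕ → ℝ) → ℝ} {c : ℕ → ℤ} (hc : Good P b e f c) (v ev B M : ℕ) (l : ℝ)
    (h : |(S : ℝ) * l - v| ≤ ev) (hB : ∀ k, (c k).natAbs ≤ B) (hM : NT c ≤ M) (hBv : B * v < 2 ^ 105) :
    Rep (.ok (resc (P * v)) (B * v / S + 1) ((M * ev + e * (v + ev)) / S + 36)) (fun ε => l * f ε) := by
  have hcv : Supp (fun k => c k * (v : ℤ)) := by
    intro k hk
    show c k * (v : ℤ) = 0
    rw [hc.supp k hk, zero_mul]
  have hbd : ∀ k, (c k * (v : ℤ)).natAbs ≤ B * v := by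
    intro k
    rw [Int.natAbs_mul, Int.natAbs_natCast]
    exact Nat.mul_le_mul_right _ (hB k)
  refine ⟨fun k => c k * (v : ℤ) / (S : ℤ), ?_, ?_, ?_, ?_⟩
  · intro k hk
    show c k * (v : ℤ) / (S : ℤ) = 0
    rw [hc.supp k hk, zero_mul, Int.zero_ediv]
  · intro k
    exact natAbs_ediv_le _ _ (hbd k)
  · refine resc_spec (w := fun k => c k * (v : ℤ)) ?_ ?_
    · intro k
      refine (hbd k).trans_lt (hBv.trans_le ?_)
      exact Nat.pow_le_pow_right (by norm_num) (by norm_num)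
    · rw [code_mul_const]
      push_cast
      exact hc.cod.mul_right _
  · intro ε hε
    have h1 := hc.err ε hε
    have h2 := val_div hcv hε
    rw [val_mul_const] at h2
    have h3 : |val c ε| ≤ (M : ℝ) := (abs_val_le c hε).trans (by exact_mod_cast hM)
    have hS := ls_S_pos
    have hSf : |(S : ℝ) * f ε| ≤ (M : ℝ) + (e : ℝ) := by
      calc |(S : ℝ) * f ε| = |val c ε + ((S : ℝ) * f ε - val c ε)| := by ring_nf
        _ ≤ |val c ε| + |(S : ℝ) * f ε - val c ε| := abs_add_le _ _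
        _ ≤ _ := add_le_add h3 h1
    have h4 : |(S : ℝ) * (l * f ε) - val c ε * ((v : ℤ) : ℝ) / (S : ℝ)| ≤
        ((M * ev + e * (v + ev) : ℕ) : ℝ) / (S : ℝ) := by
      have h5 : (S : ℝ) * (l * f ε) - val c ε * ((v : ℤ) : ℝ) / (S : ℝ) =
          (((S : ℝ) * l - (v : ℝ)) * ((S : ℝ) * f ε) + (v : ℝ) * ((S : ℝ) * f ε - val c ε)) / (S : ℝ) := by
        push_cast
        field_simp
        ring
      rw [h5, abs_div, abs_of_pos hS]
      refine div_le_div_of_nonneg_right ?_ hS.le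
      refine (abs_add_le _ _).trans ?_
      rw [abs_mul ((S : ℝ) * l - (v : ℝ)) ((S : ℝ) * f ε), abs_mul (v : ℝ) ((S : ℝ) * f ε - val c ε), Nat.abs_cast]
      push_cast
      have h6 : |(S : ℝ) * l - (v : ℝ)| * |(S : ℝ) * f ε| ≤ (ev : ℝ) * ((M : ℝ) + (e : ℝ)) :=
        mul_le_mul h hSf (abs_nonneg _) (Nat.cast_nonneg _)
      have h7 : (v : ℝ) * |(S : ℝ) * f ε - val c ε| ≤ (v : ℝ) * (e : ℝ) :=
        mul_le_mul_of_nonneg_left h1 (Nat.cast_nonneg _)
      refine (add_le_add h6 h7).trans (le_of_eq ?_)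
      ring
    have h8 := ls_div_le (M * ev + e * (v + ev))
    have h9 : ∀ x : ℕ, ((x + 36 : ℕ) : ℝ) = (x : ℝ) + 36 := fun x => by norm_num
    rw [h9 ((M * ev + e * (v + ev)) / S)]
    calc |(S : ℝ) * (l * f ε) - val (fun k => c k * (v : ℤ) / (S : ℤ)) ε|
        = |((S : ℝ) * (l * f ε) - val c ε * ((v : ℤ) : ℝ) / (S : ℝ)) +
          (val c ε * ((v : ℤ) : ℝ) / (S : ℝ) - val (fun k => c k * (v : ℤ) / (S : ℤ)) ε)| := by
          congr 1
          ring
      _ ≤ _ := (abs_add_le _ _).trans (add_le_add h4 h2)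
      _ ≤ _ := by linarith

set_option linter.unusedVariables false in
theorem sclR_sound {x : R} {f : (ℕ → ℝ) → ℝ} (v ev : ℕ) (l : ℝ) (hl : 0 ≤ l) (h : |(S : ℝ) * l - v| ≤ ev)
    (hx : Rep x f) : Rep (sclR v ev x) (fun ε => l * f ε) := by
  cases x with
  | bad => trivial
  | ok P b e =>
    obtain ⟨c, hc⟩ := hx
    have hdef : sclR v ev (.ok P b e) = cond (Nat.ble (2 ^ 105) (b * v)) R.bad
        (.ok (resc (P * v)) (b * v / S + 1) ((35 * (b * ev) + e * (v + ev)) / S + 36)) := by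
      rw [← ls_shr, ← ls_shr]
      rfl
    rw [hdef]
    rcases hb : Nat.ble (2 ^ 105) (b * v) with _ | _
    · have hbv : b * v < 2 ^ 105 := by
        by_contra hcon
        rw [Nat.ble_eq_true_of_le (not_lt.1 hcon)] at hb
        exact absurd hb (by simp)
      have := ls_scl hc v ev b (35 * b) l h hc.bd (NT_le hc.supp hc.bd) hbv
      rw [mul_assoc] at this
      exact this
    · trivial

set_option linter.unusedVariables false in
theorem sclN_sound {x : R} {f : (ℕ → ℝ) → ℝ} (v ev : ℕ) (l : ℝ) (hl : 0 ≤ l) (h : |(S : ℝ) * l - v| ≤ ev)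
    (hx : Rep x f) : Rep (sclN v ev x) (fun ε => l * f ε) := by
  cases x with
  | bad => trivial
  | ok P b e =>
    obtain ⟨c, hc⟩ := hx
    have hdef : sclN v ev (.ok P b e) = cond (Nat.ble b (2 ^ 80)) (cond (Nat.ble (2 ^ 105) (tot (nrm P) * v)) R.bad
        (.ok (resc (P * v)) (tot (nrm P) * v / S + 1) ((tot (nrm P) * ev + e * (v + ev)) / S + 36))) R.bad := by
      rw [← ls_shr, ← ls_shr]
      rfl
    rw [hdef]
    rcases hb : Nat.ble b (2 ^ 80) with _ | _
    · trivial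
    · have hb1 : b ≤ 2 ^ 80 := Nat.le_of_ble_eq_true hb
      have hb2 : b ≤ 2 ^ 105 := hb1.trans (Nat.pow_le_pow_right (by norm_num) (by norm_num))
      have hNT : NT c ≤ 35 * b := NT_le hc.supp hc.bd
      have hNT2 : NT c < 2 ^ 111 := by
        have : 35 * 2 ^ 80 < 2 ^ 111 := by norm_num
        omega
      have htot : tot (nrm P) = NT c := by
        rw [nrm_spec hc.supp hc.bd hc.cod hb2, tot_NP c hNT2]
      have hB : ∀ k, (c k).natAbs ≤ NT c := by
        intro k
        by_cases hk : k < 105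
        · exact Finset.single_le_sum (f := fun k => (c k).natAbs) (fun i _ => Nat.zero_le _) (Finset.mem_range.2 hk)
        · have : ¬ used k := fun hu => hk hu.1
          rw [hc.supp k this]
          simp
      rw [htot]
      rcases hbv0 : Nat.ble (2 ^ 105) (NT c * v) with _ | _
      · have hbv : NT c * v < 2 ^ 105 := by
          by_contra hcon
          rw [Nat.ble_eq_true_of_le (not_lt.1 hcon)] at hbv0
          exact absurd hbv0 (by simp)
        exact ls_scl hc v ev (NT c) (NT c) l h hB le_rfl hbv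
      · trivial

theorem divR_sound {x : R} {f : (ℕ → ℝ) → ℝ} (q : ℕ) (hq : 0 < q) (hx : Rep x f) :
    Rep (divR q x) (fun ε => f ε / (q : ℝ)) := by
  have hq' : (0 : ℝ) < (q : ℝ) := by exact_mod_cast hq
  have h : |(S : ℝ) * (1 / (q : ℝ)) - ((S / q : ℕ) : ℝ)| ≤ ((1 : ℕ) : ℝ) := by
    have h1 : ((S / q : ℕ) : ℝ) * (q : ℝ) ≤ (S : ℝ) := by
      exact_mod_cast Nat.div_mul_le_self S q
    have h2 : (S : ℝ) < (((S / q : ℕ) : ℝ) + 1) * (q : ℝ) := by
      have := Nat.lt_mul_div_succ S hq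
      rw [mul_comm q] at this
      exact_mod_cast this
    have h3 : (S : ℝ) * (1 / (q : ℝ)) = (S : ℝ) / (q : ℝ) := by ring
    rw [h3, abs_le]
    have h4 : ((S / q : ℕ) : ℝ) ≤ (S : ℝ) / (q : ℝ) := by
      rw [le_div_iff₀ hq']
      exact h1
    have h5 : (S : ℝ) / (q : ℝ) ≤ ((S / q : ℕ) : ℝ) + 1 := by
      rw [div_le_iff₀ hq']
      exact h2.le
    push_cast
    constructor <;> linarith
  have := sclR_sound (S / q) 1 (1 / (q : ℝ)) (by positivity) h hx
  refine Rep.congr (this : Rep (divR q x) _) ?_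
  intro ε _
  ring

/-- Two coefficients: number `0` and number `j`. -/
private theorem ls_two (j : ℕ) (hj : 0 < j) (hu : used j) (c r : ℕ) (g : (ℕ → ℝ) → ℝ)
    (hg : ∀ ε, mon ε j = g ε) :
    Rep (.ok (c + r * T ^ j) (c + r) 0) (fun ε => ((c : ℝ) + (r : ℝ) * g ε) / (S : ℝ)) := by
  have hj' : j < 105 := hu.1
  refine ⟨fun k => (if k = 0 then (c : ℤ) else 0) + (if k = j then (r : ℤ) else 0), ?_, ?_, ?_, ?_⟩
  · intro k hk
    have h0 : k ≠ 0 := by
      rintro rfl
      exact hk used_zero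
    have h1 : k ≠ j := by
      rintro rfl
      exact hk hu
    show (if k = 0 then (c : ℤ) else 0) + (if k = j then (r : ℤ) else 0) = 0
    rw [if_neg h0, if_neg h1, add_zero]
  · intro k
    show ((if k = 0 then (c : ℤ) else 0) + (if k = j then (r : ℤ) else 0)).natAbs ≤ c + r
    refine (Int.natAbs_add_le _ _).trans (Nat.add_le_add ?_ ?_)
    · split_ifs <;> simp
    · split_ifs <;> simp
  · rw [code_add (fun k => if k = 0 then (c : ℤ) else 0) (fun k => if k = j then (r : ℤ) else 0),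
      code_single 0 (by norm_num), code_single j hj']
    push_cast
    rw [pow_zero, mul_one]
  · intro ε hε
    rw [val_add (fun k => if k = 0 then (c : ℤ) else 0) (fun k => if k = j then (r : ℤ) else 0),
      val_single 0 (by norm_num), val_single j hj', mon_zero, hg]
    have hS := ls_S_ne
    have : (S : ℝ) * (((c : ℝ) + (r : ℝ) * g ε) / (S : ℝ)) - (((c : ℤ) : ℝ) * 1 + ((r : ℤ) : ℝ) * g ε) = 0 := by
      push_cast
      field_simp
      ring
    rw [this]
    simp

private theorem ls_shl (r j : ℕ) : Nat.shiftLeft r (112 * j) = r * T ^ j := by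
  have h : Nat.shiftLeft r (112 * j) = r <<< (112 * j) := rfl
  rw [h, Nat.shiftLeft_eq, pow_mul]
  rfl

theorem varR0_sound (c r : ℕ) : Rep (varR0 c r) (fun ε => ((c : ℝ) + (r : ℝ) * ε 0) / (S : ℝ)) := by
  have h := ls_two 21 (by norm_num) (by decide) c r (fun ε => ε 0) (fun ε => by simp [mon, a1, a2, a3, gr])
  rw [← ls_shl] at h
  exact h

theorem varR1_sound (c r : ℕ) : Rep (varR1 c r) (fun ε => ((c : ℝ) + (r : ℝ) * ε 1) / (S : ℝ)) := by
  have h := ls_two 22 (by norm_num) (by decide) c r (fun ε => ε 1) (fun ε => by simp [mon, a1, a2, a3, gr])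
  rw [← ls_shl] at h
  exact h

theorem varR2_sound (c r : ℕ) : Rep (varR2 c r) (fun ε => ((c : ℝ) + (r : ℝ) * ε 2) / (S : ℝ)) := by
  have h := ls_two 26 (by norm_num) (by decide) c r (fun ε => ε 2) (fun ε => by simp [mon, a1, a2, a3, gr])
  rw [← ls_shl] at h
  exact h

private theorem ls_H : (2596148429267413814265248164610048 : ℕ) = H := by
  unfold H; norm_num

private theorem ls_NT_lt {c : ℕ → ℤ} {b : ℕ} (hs : Supp c) (hb : ∀ k, (c k).natAbs ≤ b) (hb' : b ≤ 2 ^ 105) :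
    NT c < 2 ^ 111 := by
  have h1 : NT c ≤ 35 * b := NT_le hs hb
  have h2 : 35 * 2 ^ 105 < 2 ^ 111 := by norm_num
  omega

/-- Splitting off the constant coefficient: the value `A = c 0 / S`, the rest `f - A` is small. -/
theorem split_sound {P b e : ℕ} {f : (ℕ → ℝ) → ℝ} (hx : Rep (.ok P b e) f) (hb : b ≤ 2 ^ 105) :
    ∃ c0 : ℤ, ((c0b P : ℕ) : ℤ) = c0 + (H : ℤ) ∧ c0.natAbs ≤ b ∧
      Rep (.ok (P + 2596148429267413814265248164610048 - c0b P) b e) (fun ε => f ε - (c0 : ℝ) / (S : ℝ)) ∧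
      (c0.natAbs = nz (nrm P)) ∧ nz (nrm P) ≤ tot (nrm P) ∧
      ∀ ε, Cube ε → (S : ℝ) * |f ε - (c0 : ℝ) / (S : ℝ)| ≤ ((tot (nrm P) - nz (nrm P) + e : ℕ) : ℝ) := by
  obtain ⟨c, hc⟩ := hx
  have hNT : NT c < 2 ^ 111 := ls_NT_lt hc.supp hc.bd hb
  have hc0 : (c 0).natAbs < 2 ^ 111 := by
    have h1 := hc.bd 0
    have h2 : 2 ^ 105 < 2 ^ 111 := by norm_num
    omega
  have hc0b := c0b_spec hc.cod hc0
  have hnrm := nrm_spec hc.supp hc.bd hc.cod hb
  have htot : tot (nrm P) = NT c := by rw [hnrm, tot_NP c hNT]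
  have hnz : nz (nrm P) = (c 0).natAbs := by rw [hnrm, nz_NP hc.supp hNT]
  have hle : (c 0).natAbs ≤ NT c :=
    Finset.single_le_sum (f := fun k => (c k).natAbs) (fun i _ => Nat.zero_le _) (Finset.mem_range.2 (by norm_num))
  have hS := ls_S_pos
  have hS' := ls_S_ne
  refine ⟨c 0, hc0b, hc.bd 0, ?_, hnz.symm, ?_, ?_⟩
  · refine ⟨fun k => if k = 0 then 0 else c k, ?_, ?_, ?_, ?_⟩
    · intro k hk
      show (if k = 0 then 0 else c k) = 0
      split_ifs
      · rfl
      · exact hc.supp k hk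
    · intro k
      show (if k = 0 then 0 else c k).natAbs ≤ b
      split_ifs
      · simp
      · exact hc.bd k
    · have hle2 : c0b P ≤ P + 2596148429267413814265248164610048 := Nat.mod_le _ _
      rw [Nat.cast_sub hle2, hc0b, code_sub_zero, ls_H]
      push_cast
      have : (P : ℤ) + (H : ℤ) - (c 0 + (H : ℤ)) = (P : ℤ) - c 0 := by ring
      rw [this]
      exact hc.cod.sub_right _
    · intro ε hε
      have h1 := hc.err ε hε
      have h2 : val c ε = val (fun k => if k = 0 then 0 else c k) ε + (c 0 : ℝ) := by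
        have h3 : c = fun k => (if k = 0 then 0 else c k) + (if k = 0 then c 0 else 0) := by
          funext k
          by_cases hk : k = 0
          · subst hk; simp
          · simp [hk]
        conv_lhs => rw [h3]
        rw [val_add (fun k => if k = 0 then 0 else c k) (fun k => if k = 0 then c 0 else 0),
          val_single 0 (by norm_num), mon_zero, mul_one]
      rw [h2] at h1
      have h4 : (S : ℝ) * (f ε - (c 0 : ℝ) / (S : ℝ)) - val (fun k => if k = 0 then 0 else c k) ε =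
          (S : ℝ) * f ε - (val (fun k => if k = 0 then 0 else c k) ε + (c 0 : ℝ)) := by
        field_simp
        ring
      show |(S : ℝ) * (f ε - (c 0 : ℝ) / (S : ℝ)) - val (fun k => if k = 0 then 0 else c k) ε| ≤ e
      rw [h4]
      exact h1
  · rw [htot, hnz]
    exact hle
  · intro ε hε
    rw [htot, hnz]
    have h1 := hc.err ε hε
    have h2 := abs_val_sub_le c hε
    have h3 : (S : ℝ) * |f ε - (c 0 : ℝ) / (S : ℝ)| = |(S : ℝ) * f ε - (c 0 : ℝ)| := by
      have : (S : ℝ) * f ε - (c 0 : ℝ) = (S : ℝ) * (f ε - (c 0 : ℝ) / (S : ℝ)) := by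
        field_simp
      rw [this, abs_mul, abs_of_pos hS]
    rw [h3, Nat.cast_add, Nat.cast_sub hle]
    calc |(S : ℝ) * f ε - (c 0 : ℝ)| = |(val c ε - (c 0 : ℝ)) + ((S : ℝ) * f ε - val c ε)| := by ring_nf
      _ ≤ _ := (abs_add_le _ _).trans (add_le_add h2 h1)

/-- Upper bound of the absolute value. -/
theorem abs_le_of_rep {P b e : ℕ} {f : (ℕ → ℝ) → ℝ} (hx : Rep (.ok P b e) f) (hb : b ≤ 2 ^ 105) (ε : ℕ → ℝ)
    (hε : Cube ε) : (S : ℝ) * |f ε| ≤ ((tot (nrm P) + e : ℕ) : ℝ) := by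
  obtain ⟨c, hc⟩ := hx
  have hNT : NT c < 2 ^ 111 := ls_NT_lt hc.supp hc.bd hb
  have htot : tot (nrm P) = NT c := by rw [nrm_spec hc.supp hc.bd hc.cod hb, tot_NP c hNT]
  have h1 := hc.err ε hε
  have h2 := abs_val_le c hε
  have hS := ls_S_pos
  have h3 : (S : ℝ) * |f ε| = |(S : ℝ) * f ε| := by rw [abs_mul, abs_of_pos hS]
  rw [htot, h3, Nat.cast_add]
  calc |(S : ℝ) * f ε| = |val c ε + ((S : ℝ) * f ε - val c ε)| := by ring_nf
    _ ≤ _ := (abs_add_le _ _).trans (add_le_add h2 h1)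

/-- `mup a b` is an upper bound of `a b / S`. -/
theorem le_mup (a b : ℕ) : (a : ℝ) * (b : ℝ) / (S : ℝ) ≤ (mup a b : ℝ) := by
  have hdef : mup a b = a * b / S + 1 := by
    rw [← ls_shr]
    rfl
  rw [hdef]
  have := ls_div_le (a * b)
  push_cast at this ⊢
  exact this

end Pool.Agent.SB19
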