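import Pool.Agent.SB19.MulSound
import Pool.Agent.SB19.LinSound

/-!
# SB19/InvSound: soundness of the inverse

`f = A + δ`, `A = c0 / S > 0` (`c0 = c0b P - H`), `S |δ| ≤ rho` (`split_sound`), `ia = S² / c0` rounded down:
`|S (1 / A) - ia| ≤ 1`. `y = -δ / A`, `S |y| ≤ rho S / c0 ≤ ys`, `ys ≤ 3 S / 4`. Then
`1 / f = (1 / A) / (1 - y)` and `|1 / (1 - y) - (1 + y + y² + y³ + y⁴)| = |y| ^ 5 / |1 - y| ≤ |y| ^ 5 / (1 - |y|)`, in units
`1 / S`: `S |y| ^ 5 / (1 - |y|) ≤ y5 S / (S - ys)` where `y5 ≥ S |y| ^ 5`. Then `sclN_sound` with `l = 1 / A`.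
-/

set_option autoImplicit false

namespace Pool.Agent.SB19

/-- Real quotient against the rounded quotient of natural numbers. -/
theorem InvSound.div_lt_succ (m n : ℕ) (hn : 0 < n) : (m : ℝ) / (n : ℝ) ≤ ((m / n).succ : ℕ) := by
  have h1 : m < n * (m / n + 1) := Nat.lt_mul_div_succ m hn
  have h2 : (m : ℝ) ≤ (n : ℝ) * ((m / n + 1 : ℕ) : ℝ) := by exact_mod_cast h1.le
  rw [div_le_iff₀ (by exact_mod_cast hn)]
  rw [Nat.succ_eq_add_one]
  linarith

/-- Rounding down a real quotient loses at most `1`. -/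
theorem InvSound.abs_div_sub (m n : ℕ) (hn : 0 < n) : |(m : ℝ) / (n : ℝ) - ((m / n : ℕ) : ℝ)| ≤ 1 := by
  have h1 := InvSound.div_lt_succ m n hn
  have h2 : ((m / n : ℕ) : ℝ) ≤ (m : ℝ) / (n : ℝ) := Nat.cast_div_le
  rw [Nat.succ_eq_add_one, Nat.cast_add, Nat.cast_one] at h1
  rw [abs_le]
  constructor <;> linarith

/-- Squares, fourth and fifth powers in units `1 / S`. -/
theorem InvSound.pow5 (s u : ℝ) (ys : ℕ) (hs : s = (S : ℝ)) (hu : 0 ≤ u) (h : s * u ≤ ys) :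
    s * u ^ 5 ≤ (mup (mup (mup ys ys) (mup ys ys)) ys : ℝ) := by
  have hs0 : 0 < s := by rw [hs]; exact_mod_cast S_pos
  have k1 : s * u ^ 2 ≤ (mup ys ys : ℝ) := by
    refine le_trans ?_ (le_mup ys ys)
    rw [← hs, le_div_iff₀ hs0]
    have : 0 ≤ s * u := by positivity
    nlinarith [mul_le_mul h h this (this.trans h)]
  have k2 : s * u ^ 4 ≤ (mup (mup ys ys) (mup ys ys) : ℝ) := by
    refine le_trans ?_ (le_mup _ _)
    rw [← hs, le_div_iff₀ hs0]
    have : 0 ≤ s * u ^ 2 := by positivity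
    nlinarith [mul_le_mul k1 k1 this (this.trans k1)]
  refine le_trans ?_ (le_mup _ _)
  rw [← hs, le_div_iff₀ hs0]
  have h4 : 0 ≤ s * u ^ 4 := by positivity
  have h1 : 0 ≤ s * u := by positivity
  nlinarith [mul_le_mul k2 h h1 (h4.trans k2)]

/-- Remainder of the geometric series. -/
theorem InvSound.geo (s y : ℝ) (y5 ys : ℕ) (hs : s = (S : ℝ)) (hy : s * |y| ≤ ys) (hys : 4 * ys ≤ 3 * S)
    (h5 : s * |y| ^ 5 ≤ y5) :
    |s * (1 - y)⁻¹ - s * (1 + y * (1 + y * (1 + y * (1 + y))))| ≤ ((y5 * S / (S - ys)).succ : ℕ) := by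
  have hs0 : 0 < s := by rw [hs]; exact_mod_cast S_pos
  have hle : ys ≤ S := by omega
  have hlt : ys < S := by
    have := S_pos
    omega
  have hc : ((S - ys : ℕ) : ℝ) = s - ys := by rw [Nat.cast_sub hle, hs]
  have hpos : 0 < s - (ys : ℝ) := by
    rw [← hc]
    exact_mod_cast Nat.sub_pos_of_lt hlt
  have hy1 : |y| < 1 := by
    have h1 : s * |y| < s * 1 := by linarith
    exact lt_of_mul_lt_mul_left h1 hs0.le
  have hne : 0 < 1 - y := by
    have := le_abs_self y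
    linarith
  have e1 : s * (1 - y)⁻¹ - s * (1 + y * (1 + y * (1 + y * (1 + y)))) = s * y ^ 5 / (1 - y) := by
    field_simp
    ring
  rw [e1, abs_div, abs_mul, abs_pow, abs_of_pos hs0, abs_of_pos hne]
  refine le_trans ?_ (InvSound.div_lt_succ (y5 * S) (S - ys) (Nat.sub_pos_of_lt hlt))
  rw [hc, Nat.cast_mul, ← hs, div_le_div_iff₀ hne hpos]
  have a0 : 0 ≤ s * |y| ^ 5 := by positivity
  have a1 : s - (ys : ℝ) ≤ s * (1 - y) := by
    have := mul_le_mul_of_nonneg_left (le_abs_self y) hs0.le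
    nlinarith
  calc s * |y| ^ 5 * (s - (ys : ℝ)) ≤ s * |y| ^ 5 * (s * (1 - y)) := mul_le_mul_of_nonneg_left a1 a0
    _ ≤ (y5 : ℝ) * (s * (1 - y)) := mul_le_mul_of_nonneg_right h5 (by positivity)
    _ = (y5 : ℝ) * s * (1 - y) := by ring

theorem InvSound.inv3 {P b e : ℕ} {f : (ℕ → ℝ) → ℝ} (hx : Rep (.ok P b e) f) (hb : b ≤ 2 ^ 80)
    (a A rho ia ys : ℕ) (hA : 0 < A) (ha : a = c0b P) (haA : a = A + H)
    (hrho : rho = tot (nrm P) - nz (nrm P) + e) (hia : ia = S * S / A) (hys : ys = (rho * S / A).succ)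
    (h4 : 4 * ys ≤ 3 * S) : Rep (inv2 P b e a ia ys) (fun ε => (f ε)⁻¹) := by
  obtain ⟨c0, hc, -, h2, -, -, h5⟩ := split_sound hx (hb.trans (Nat.pow_le_pow_right (by norm_num) (by norm_num)))
  have hcA : c0 = (A : ℤ) := by
    rw [← ha, haA, Nat.cast_add] at hc
    linarith
  have hcr : (c0 : ℝ) = (A : ℝ) := by rw [hcA]; norm_num
  rw [← ha] at h2
  rw [← hrho] at h5
  rw [hcr] at h2 h5
  have hS : (0 : ℝ) < (S : ℝ) := by exact_mod_cast S_pos
  have hAr : (0 : ℝ) < (A : ℝ) := by exact_mod_cast hA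
  have hl : |(S : ℝ) * ((S : ℝ) / (A : ℝ)) - (ia : ℝ)| ≤ ((1 : ℕ) : ℝ) := by
    have := InvSound.abs_div_sub (S * S) A hA
    rw [hia, Nat.cast_one, ← mul_div_assoc, ← Nat.cast_mul]
    exact this
  have hl0 : 0 ≤ (S : ℝ) / (A : ℝ) := div_nonneg hS.le hAr.le
  have r1 := negR_sound (sclR_sound ia 1 ((S : ℝ) / (A : ℝ)) hl0 hl h2)
  have r2 := addR_sound oneR_sound r1
  have r3 := addR_sound oneR_sound (mulR_sound r1 r2)
  have r4 := addR_sound oneR_sound (mulR_sound r1 r3)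
  have r5 := addR_sound oneR_sound (mulR_sound r1 r4)
  have hy : ∀ ε, Cube ε → (S : ℝ) * |-((S : ℝ) / (A : ℝ) * (f ε - (A : ℝ) / (S : ℝ)))| ≤ (ys : ℝ) := by
    intro ε hε
    rw [abs_neg, abs_mul, abs_of_nonneg hl0, hys]
    refine le_trans ?_ (InvSound.div_lt_succ (rho * S) A hA)
    rw [Nat.cast_mul, le_div_iff₀ hAr]
    have := mul_le_mul_of_nonneg_right (h5 ε hε) hS.le
    calc (S : ℝ) * ((S : ℝ) / (A : ℝ) * |f ε - (A : ℝ) / (S : ℝ)|) * (A : ℝ)
        = (S : ℝ) * |f ε - (A : ℝ) / (S : ℝ)| * (S : ℝ) := by field_simp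
      _ ≤ (rho : ℝ) * (S : ℝ) := this
  have r6 := errR_sound
    (g := fun ε => (1 - -((S : ℝ) / (A : ℝ) * (f ε - (A : ℝ) / (S : ℝ))))⁻¹)
    (((mup (mup (mup ys ys) (mup ys ys)) ys) * S / (S - ys)).succ) r5
    (fun ε hε => InvSound.geo (S : ℝ) _ _ ys rfl (hy ε hε) h4
      (InvSound.pow5 (S : ℝ) _ ys rfl (abs_nonneg _) (hy ε hε)))
  have r7 := sclN_sound ia 1 ((S : ℝ) / (A : ℝ)) hl0 hl r6
  refine Rep.congr r7 ?_
  intro ε hε
  have hlt : |-((S : ℝ) / (A : ℝ) * (f ε - (A : ℝ) / (S : ℝ)))| < 1 := by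
    have h1 := hy ε hε
    have h3 : (4 : ℝ) * (ys : ℝ) ≤ 3 * (S : ℝ) := by exact_mod_cast h4
    have h6 : (S : ℝ) * |-((S : ℝ) / (A : ℝ) * (f ε - (A : ℝ) / (S : ℝ)))| < (S : ℝ) * 1 := by linarith
    exact lt_of_mul_lt_mul_left h6 hS.le
  have e1 : 1 - -((S : ℝ) / (A : ℝ) * (f ε - (A : ℝ) / (S : ℝ))) = (S : ℝ) / (A : ℝ) * f ε := by
    field_simp
    ring
  have e2 : (S : ℝ) / (A : ℝ) * (1 - -((S : ℝ) / (A : ℝ) * (f ε - (A : ℝ) / (S : ℝ))))⁻¹ = (f ε)⁻¹ := by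
    rw [e1, mul_inv]
    field_simp
  exact e2

theorem InvSound.H_eq : H = 2596148429267413814265248164610048 := by
  unfold H
  norm_num

theorem InvSound.ble_true {m n : ℕ} (h : Nat.ble m n = true) : m ≤ n := Nat.le_of_ble_eq_true h

theorem InvSound.ble_false {m n : ℕ} (h : Nat.ble m n = false) : n < m := by
  rw [← Nat.not_le]
  intro h1
  rw [Nat.ble_eq_true_of_le h1] at h
  exact Bool.noConfusion h

theorem InvSound.inv1s {P b e : ℕ} {f : (ℕ → ℝ) → ℝ} (hx : Rep (.ok P b e) f)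
    (a A rho ia ys : ℕ) (hA : 0 < A) (ha : a = c0b P) (haA : a = A + H)
    (hrho : rho = tot (nrm P) - nz (nrm P) + e) (hia : ia = S * S / A) (hys : ys = (rho * S / A).succ) :
    Rep (inv1 P b e a ia ys) (fun ε => (f ε)⁻¹) := by
  unfold inv1
  cases h1 : Nat.ble (Nat.mul (nat_lit 4) ys) (nat_lit 3298534883328) with
  | false => exact True.intro
  | true =>
    rw [cond_true]
    cases h2 : Nat.ble b (nat_lit 1208925819614629174706176) with
    | false => exact True.intro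
    | true =>
      rw [cond_true]
      refine InvSound.inv3 hx ?_ a A rho ia ys hA ha haA hrho hia hys ?_
      · refine (InvSound.ble_true h2).trans (le_of_eq ?_)
        norm_num
      · refine (InvSound.ble_true h1).trans (le_of_eq ?_)
        unfold S
        norm_num

theorem InvSound.inv0s {P b e : ℕ} {f : (ℕ → ℝ) → ℝ} (hx : Rep (.ok P b e) f)
    (a A rho : ℕ) (hA : 0 < A) (ha : a = c0b P) (haA : a = A + H)
    (hrho : rho = tot (nrm P) - nz (nrm P) + e) : Rep (inv0 P b e a A rho) (fun ε => (f ε)⁻¹) := by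
  unfold inv0
  refine InvSound.inv1s hx a A rho _ _ hA ha haA hrho ?_ ?_
  · have h1 : S * S = 1208925819614629174706176 := by
      unfold S
      norm_num
    rw [h1]
    rfl
  · have h1 : S = 1099511627776 := by
      unfold S
      norm_num
    rw [h1]
    rfl

theorem InvSound.inv0t {P b e : ℕ} {f : (ℕ → ℝ) → ℝ} (hx : Rep (.ok P b e) f)
    (a h rho : ℕ) (ha : a = c0b P) (hh : h = H) (hrho : rho = tot (nrm P) - nz (nrm P) + e) :
    Rep (cond (Nat.ble a h) R.bad (inv0 P b e a (Nat.sub a h) rho)) (fun ε => (f ε)⁻¹) := by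
  cases h1 : Nat.ble a h with
  | true => exact True.intro
  | false =>
    have hlt : h < a := InvSound.ble_false h1
    rw [cond_false]
    refine InvSound.inv0s hx a (Nat.sub a h) rho (Nat.sub_pos_of_lt hlt) ha ?_ hrho
    rw [← hh]
    exact (Nat.sub_add_cancel hlt.le).symm

theorem InvSound.H_lit : (nat_lit 2596148429267413814265248164610048) = H := InvSound.H_eq.symm

theorem InvSound.as (m n e : ℕ) : Nat.add (Nat.sub m n) e = m - n + e := rfl

theorem InvSound.inv0u {P b e : ℕ} {f : (ℕ → ℝ) → ℝ} (hx : Rep (.ok P b e) f) (q : ℕ) (hq : q = c0b P) :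
    Rep (cond (Nat.ble q (nat_lit 2596148429267413814265248164610048)) R.bad
      (inv0 P b e q (Nat.sub q (nat_lit 2596148429267413814265248164610048))
        (Nat.add (Nat.sub (tot (nrm P)) (nz (nrm P))) e))) (fun ε => (f ε)⁻¹) := by
  have h3 := InvSound.inv0t hx q
  have h4 := h3 (nat_lit 2596148429267413814265248164610048)
  have h5 := h4 (Nat.add (Nat.sub (tot (nrm P)) (nz (nrm P))) e)
  have h6 := h5 hq
  have h7 := h6 InvSound.H_lit
  exact h7 (InvSound.as (tot (nrm P)) (nz (nrm P)) e)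

theorem invR_sound {x : R} {f : (ℕ → ℝ) → ℝ} (hx : Rep x f) : Rep (invR x) (fun ε => (f ε)⁻¹) := by
  cases x with
  | bad => exact True.intro
  | ok P b e =>
    unfold invR
    dsimp only
    generalize hq : c0b P = q
    exact InvSound.inv0u hx q hq.symm

end Pool.Agent.SB19
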