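import Pool.Agent.SB19.Trig

/-!
# SB19/Psi: soundness of `psiR`

`psiF x = (e ^ x - 1 - x) / x ^ 2 = ∑ j, x ^ j / (j + 2)!` (value `1 / 2` at `0`), and
`nestV x [3, ..., m] / 2 = ∑ j ≤ m - 2, x ^ j / (j + 2)!`. Remainder: for `x ≠ 0` it is
`(e ^ x - ∑ i ≤ m, x ^ i / i!) / x ^ 2`; with `|e ^ x - ∑ i ≤ m, x ^ i / i!| ≤ |x| ^ (m + 1) / (m + 1)! / (1 - |x| / (m + 2))`
(comparison with a geometric series; `Real.exp_bound` covers only `|x| ≤ 1`; one can use the power series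
`NormedSpace.exp_series_hasSum_exp'` / `Real.hasSum_exp`... and `tsum` estimates, or `Complex.exp_bound'`-type lemmas).
Numerical values: `|x| ≤ 5/8`, `m = 10`: at most `430 / S`; `|x| ≤ 5/4`, `m = 13`: `210 / S`; `|x| ≤ 5/2`, `m = 17`: `470 / S`;
`|x| ≤ 5`, `m = 24`: `1100 / S` (`S = 2 ^ 40`; true values 424, 201, 449, 1031).
-/

set_option autoImplicit false

namespace Pool.Agent.SB19

theorem exp_eq_psiF (x : ℝ) : Real.exp x = 1 + x + x ^ 2 * psiF x := by
  unfold psiF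
  split_ifs with h
  · subst h
    simp
  · field_simp
    ring

/-- Remainder of the exponential series. -/
theorem exp_rem (x : ℝ) (m : ℕ) (hx : |x| < (m : ℝ) + 2) :
    |Real.exp x - ∑ i ∈ Finset.range (m + 1), x ^ i / (Nat.factorial i : ℝ)| ≤
      |x| ^ (m + 1) / (Nat.factorial (m + 1) : ℝ) / (1 - |x| / ((m : ℝ) + 2)) := by
  have hs : HasSum (fun n : ℕ => x ^ n / (Nat.factorial n : ℝ)) (Real.exp x) := by
    rw [Real.exp_eq_exp_ℝ]
    exact NormedSpace.expSeries_div_hasSum_exp x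
  have h1 : Real.exp x - ∑ i ∈ Finset.range (m + 1), x ^ i / (Nat.factorial i : ℝ) =
      ∑' i : ℕ, x ^ (i + (m + 1)) / (Nat.factorial (i + (m + 1)) : ℝ) := by
    have h := hs.summable.sum_add_tsum_nat_add (m + 1)
    rw [hs.tsum_eq] at h
    rw [← h]
    ring
  rw [h1]
  have hm : (0 : ℝ) < (m : ℝ) + 2 := by positivity
  have hr0 : 0 ≤ |x| / ((m : ℝ) + 2) := by positivity
  have hr1 : |x| / ((m : ℝ) + 2) < 1 := (div_lt_one hm).2 hx
  have hg := (hasSum_geometric_of_lt_one hr0 hr1).mul_left (|x| ^ (m + 1) / (Nat.factorial (m + 1) : ℝ))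
  rw [← div_eq_mul_inv] at hg
  have hb := tsum_of_norm_bounded (f := fun i : ℕ => x ^ (i + (m + 1)) / (Nat.factorial (i + (m + 1)) : ℝ)) hg ?_
  · rwa [Real.norm_eq_abs] at hb
  intro i
  rw [Real.norm_eq_abs, abs_div, abs_pow, Nat.abs_cast]
  have hf : (Nat.factorial (m + 1) : ℝ) * ((m : ℝ) + 2) ^ i ≤ (Nat.factorial (i + (m + 1)) : ℝ) := by
    have h := Nat.factorial_mul_pow_le_factorial (m := m + 1) (n := i)
    rw [add_comm (m + 1) i] at h
    have h' : ((Nat.factorial (m + 1) * (m + 1 + 1) ^ i : ℕ) : ℝ) ≤ (Nat.factorial (i + (m + 1)) : ℝ) := by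
      exact_mod_cast h
    push_cast at h'
    have e : (m : ℝ) + 1 + 1 = (m : ℝ) + 2 := by ring
    rwa [e] at h'
  have hp : (0 : ℝ) < (Nat.factorial (m + 1) : ℝ) * ((m : ℝ) + 2) ^ i := by positivity
  calc |x| ^ (i + (m + 1)) / (Nat.factorial (i + (m + 1)) : ℝ)
      ≤ |x| ^ (i + (m + 1)) / ((Nat.factorial (m + 1) : ℝ) * ((m : ℝ) + 2) ^ i) :=
        div_le_div_of_nonneg_left (by positivity) hp hf
    _ = |x| ^ (m + 1) / (Nat.factorial (m + 1) : ℝ) * (|x| / ((m : ℝ) + 2)) ^ i := by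
        rw [pow_add, div_pow]
        field_simp

/-- General form of the four bounds. -/
private theorem psi_gen (l : List ℕ) (n : ℕ) (r : ℝ) (x : ℝ) (hr : r < (n : ℝ) + 4) (hx : |x| ≤ r)
    (h0 : nestV 0 l = 1)
    (hl : 1 + x + x ^ 2 * (nestV x l / 2) =
      ∑ i ∈ Finset.range (n + 2 + 1), x ^ i / (Nat.factorial i : ℝ)) :
    |psiF x - nestV x l / 2| ≤
      r ^ (n + 1) / (Nat.factorial (n + 3) : ℝ) / (1 - r / ((n : ℝ) + 4)) := by
  have hn : (0 : ℝ) < (n : ℝ) + 4 := by positivity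
  have hr0 : 0 ≤ r := (abs_nonneg x).trans hx
  have hr1 : 0 < 1 - r / ((n : ℝ) + 4) := sub_pos.2 ((div_lt_one hn).2 hr)
  rcases eq_or_ne x 0 with rfl | hx0
  · rw [h0]
    unfold psiF
    rw [if_pos rfl, sub_self, abs_zero]
    positivity
  · have hx2 : (0 : ℝ) < |x| ^ 2 := by positivity
    have hxlt : |x| < (n : ℝ) + 4 := hx.trans_lt hr
    have h1 := exp_rem x (n + 2) (by push_cast; linarith)
    rw [← hl, exp_eq_psiF x] at h1
    have e1 : 1 + x + x ^ 2 * psiF x - (1 + x + x ^ 2 * (nestV x l / 2)) =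
        x ^ 2 * (psiF x - nestV x l / 2) := by ring
    rw [e1, abs_mul, abs_pow] at h1
    have e2 : |x| ^ (n + 2 + 1) = |x| ^ 2 * |x| ^ (n + 1) := by
      rw [← pow_add]
      congr 1
      ring
    rw [e2, mul_div_assoc, mul_div_assoc] at h1
    have h2 := le_of_mul_le_mul_left h1 hx2
    refine h2.trans ?_
    have e3 : ((n + 2 : ℕ) : ℝ) + 2 = (n : ℝ) + 4 := by push_cast; ring
    rw [e3]
    have h3 : |x| / ((n : ℝ) + 4) ≤ r / ((n : ℝ) + 4) := div_le_div_of_nonneg_right hx hn.le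
    have h4 : |x| ^ (n + 1) ≤ r ^ (n + 1) := pow_le_pow_left₀ (abs_nonneg x) hx _
    have h5 : 0 < 1 - |x| / ((n : ℝ) + 4) := by linarith
    exact div_le_div₀ (by positivity) (div_le_div_of_nonneg_right h4 (by positivity)) hr1 (by linarith)

private theorem S_val : (S : ℝ) = 1099511627776 := by
  unfold S
  norm_num

theorem psi_b1 (x : ℝ) (hx : |x| ≤ 5 / 8) :
    |psiF x - nestV x [3, 4, 5, 6, 7, 8, 9, 10] / 2| ≤ 430 / (S : ℝ) := by
  have h := psi_gen [3, 4, 5, 6, 7, 8, 9, 10] 8 (5 / 8) x (by norm_num) hx (by simp [nestV]) (by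
    simp only [nestV, Finset.sum_range_succ, Finset.sum_range_zero, Nat.factorial]
    push_cast
    ring)
  refine h.trans ?_
  rw [S_val]
  norm_num [Nat.factorial]

theorem psi_b2 (x : ℝ) (hx : |x| ≤ 5 / 4) :
    |psiF x - nestV x [3, 4, 5, 6, 7, 8, 9, 10, 11, 12, 13] / 2| ≤ 210 / (S : ℝ) := by
  have h := psi_gen [3, 4, 5, 6, 7, 8, 9, 10, 11, 12, 13] 11 (5 / 4) x (by norm_num) hx (by simp [nestV]) (by
    simp only [nestV, Finset.sum_range_succ, Finset.sum_range_zero, Nat.factorial]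
    push_cast
    ring)
  refine h.trans ?_
  rw [S_val]
  norm_num [Nat.factorial]

theorem psi_b3 (x : ℝ) (hx : |x| ≤ 5 / 2) :
    |psiF x - nestV x [3, 4, 5, 6, 7, 8, 9, 10, 11, 12, 13, 14, 15, 16, 17] / 2| ≤ 470 / (S : ℝ) := by
  have h := psi_gen [3, 4, 5, 6, 7, 8, 9, 10, 11, 12, 13, 14, 15, 16, 17] 15 (5 / 2) x (by norm_num) hx
    (by simp [nestV]) (by
    simp only [nestV, Finset.sum_range_succ, Finset.sum_range_zero, Nat.factorial]
    push_cast
    ring)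
  refine h.trans ?_
  rw [S_val]
  norm_num [Nat.factorial]

theorem psi_b4 (x : ℝ) (hx : |x| ≤ 5) :
    |psiF x - nestV x [3, 4, 5, 6, 7, 8, 9, 10, 11, 12, 13, 14, 15, 16, 17, 18, 19, 20, 21, 22, 23, 24] / 2| ≤
      1100 / (S : ℝ) := by
  have h := psi_gen [3, 4, 5, 6, 7, 8, 9, 10, 11, 12, 13, 14, 15, 16, 17, 18, 19, 20, 21, 22, 23, 24] 22 5 x
    (by norm_num) hx (by simp [nestV]) (by
    simp only [nestV, Finset.sum_range_succ, Finset.sum_range_zero, Nat.factorial]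
    push_cast
    ring)
  refine h.trans ?_
  rw [S_val]
  norm_num [Nat.factorial]

/-- One branch of `psi1`. -/
private theorem psi_branch {x : R} {f : (ℕ → ℝ) → ℝ} (hx : Rep x f) (r : ℕ) (l : List ℕ)
    (hl : ∀ q ∈ l, 0 < q)
    (h : ∀ ε, Cube ε → |psiF (f ε) - nestV (f ε) l / 2| ≤ (r : ℝ) / (S : ℝ)) :
    Rep (errR r (divR 2 (nestR x l))) (fun ε => psiF (f ε)) := by
  have hS : (0 : ℝ) < (S : ℝ) := by
    rw [S_val]
    norm_num
  refine errR_sound r (divR_sound 2 (by norm_num) (nestR_sound hx l hl)) ?_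
  intro ε hε
  have h1 := h ε hε
  rw [← mul_sub, abs_mul, abs_of_pos hS]
  have e : ((2 : ℕ) : ℝ) = 2 := by norm_num
  rw [e]
  rw [le_div_iff₀ hS] at h1
  linarith

private theorem psi_br1 {x : R} {f : (ℕ → ℝ) → ℝ} (hx : Rep x f) (h : ∀ ε, Cube ε → |f ε| ≤ (5 / 8)) :
    Rep (errR 430 (divR 2 (nestR x [3, 4, 5, 6, 7, 8, 9, 10]))) (fun ε => psiF (f ε)) :=
  psi_branch hx 430 [3, 4, 5, 6, 7, 8, 9, 10] (by decide)
    (fun ε hε => by
      have h1 := psi_b1 (f ε) (h ε hε)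
      exact_mod_cast h1)

private theorem psi_br2 {x : R} {f : (ℕ → ℝ) → ℝ} (hx : Rep x f) (h : ∀ ε, Cube ε → |f ε| ≤ (5 / 4)) :
    Rep (errR 210 (divR 2 (nestR x [3, 4, 5, 6, 7, 8, 9, 10, 11, 12, 13]))) (fun ε => psiF (f ε)) :=
  psi_branch hx 210 [3, 4, 5, 6, 7, 8, 9, 10, 11, 12, 13] (by decide)
    (fun ε hε => by
      have h1 := psi_b2 (f ε) (h ε hε)
      exact_mod_cast h1)

private theorem psi_br3 {x : R} {f : (ℕ → ℝ) → ℝ} (hx : Rep x f) (h : ∀ ε, Cube ε → |f ε| ≤ (5 / 2)) :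
    Rep (errR 470 (divR 2 (nestR x [3, 4, 5, 6, 7, 8, 9, 10, 11, 12, 13, 14, 15, 16, 17]))) (fun ε => psiF (f ε)) :=
  psi_branch hx 470 [3, 4, 5, 6, 7, 8, 9, 10, 11, 12, 13, 14, 15, 16, 17] (by decide)
    (fun ε hε => by
      have h1 := psi_b3 (f ε) (h ε hε)
      exact_mod_cast h1)

private theorem psi_br4 {x : R} {f : (ℕ → ℝ) → ℝ} (hx : Rep x f) (h : ∀ ε, Cube ε → |f ε| ≤ 5) :
    Rep (errR 1100 (divR 2 (nestR x [3, 4, 5, 6, 7, 8, 9, 10, 11, 12, 13, 14, 15, 16, 17, 18, 19, 20, 21, 22, 23, 24]))) (fun ε => psiF (f ε)) :=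
  psi_branch hx 1100 [3, 4, 5, 6, 7, 8, 9, 10, 11, 12, 13, 14, 15, 16, 17, 18, 19, 20, 21, 22, 23, 24] (by decide)
    (fun ε hε => by
      have h1 := psi_b4 (f ε) (h ε hε)
      exact_mod_cast h1)

private theorem psi1_sound {x : R} {f : (ℕ → ℝ) → ℝ} (hx : Rep x f) (n : ℕ)
    (hA : ∀ ε, Cube ε → (S : ℝ) * |f ε| ≤ (n : ℝ)) : Rep (psi1 x n) (fun ε => psiF (f ε)) := by
  have hle : ∀ (K : ℕ) (r : ℝ), n ≤ K → (K : ℝ) = 1099511627776 * r → ∀ ε, Cube ε → |f ε| ≤ r := by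
    intro K r h1 h2 ε hε
    rw [← S_val] at h2
    have h3 := hA ε hε
    have h4 : (n : ℝ) ≤ (K : ℝ) := by exact_mod_cast h1
    rw [h2] at h4
    have hS : (0 : ℝ) < (S : ℝ) := by
      rw [S_val]
      norm_num
    exact le_of_mul_le_mul_left (h3.trans h4) hS
  have hdef1 : psi1 x n =
    cond (Nat.ble n 687194767360) (errR 430 (divR 2 (nestR x [3, 4, 5, 6, 7, 8, 9, 10])))
      (cond (Nat.ble n 1374389534720)
        (errR 210 (divR 2 (nestR x [3, 4, 5, 6, 7, 8, 9, 10, 11, 12, 13])))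
        (cond (Nat.ble n 2748779069440)
          (errR 470 (divR 2 (nestR x [3, 4, 5, 6, 7, 8, 9, 10, 11, 12, 13, 14, 15, 16, 17])))
          (cond (Nat.ble n 5497558138880)
            (errR 1100 (divR 2 (nestR x
              [3, 4, 5, 6, 7, 8, 9, 10, 11, 12, 13, 14, 15, 16, 17, 18, 19, 20, 21, 22, 23, 24])))
            R.bad))) := rfl
  rw [hdef1]
  rcases hc1 : Nat.ble n 687194767360 with _ | _
  · rw [cond_false]
    rcases hc2 : Nat.ble n 1374389534720 with _ | _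
    · rw [cond_false]
      rcases hc3 : Nat.ble n 2748779069440 with _ | _
      · rw [cond_false]
        rcases hc4 : Nat.ble n 5497558138880 with _ | _
        · trivial
        · rw [cond_true]
          exact psi_br4 hx (hle 5497558138880 5 (Nat.ble_eq.mp hc4) (by norm_num))
      · rw [cond_true]
        exact psi_br3 hx (hle 2748779069440 (5 / 2) (Nat.ble_eq.mp hc3) (by norm_num))
    · rw [cond_true]
      exact psi_br2 hx (hle 1374389534720 (5 / 4) (Nat.ble_eq.mp hc2) (by norm_num))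
  · rw [cond_true]
    exact psi_br1 hx (hle 687194767360 (5 / 8) (Nat.ble_eq.mp hc1) (by norm_num))

theorem psiR_sound {x : R} {f : (ℕ → ℝ) → ℝ} (hx : Rep x f) : Rep (psiR x) (fun ε => psiF (f ε)) := by
  have key := psi1_sound hx
  cases x with
  | bad => trivial
  | ok P b e =>
    have hdef : psiR (.ok P b e) = cond (Nat.ble b 1208925819614629174706176)
      (psi1 (.ok P b e) (tot (nrm P) + e)) R.bad := rfl
    rw [hdef]
    by_cases hb : b ≤ 1208925819614629174706176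
    · have hb1 : Nat.ble b 1208925819614629174706176 = true := Nat.ble_eq.mpr hb
      rw [hb1, cond_true]
      have hb' : b ≤ 2 ^ 105 := le_trans hb (by norm_num)
      have hA := abs_le_of_rep hx hb'
      exact key _ hA
    · have hb1 : Nat.ble b 1208925819614629174706176 = false := by
        rw [Bool.eq_false_iff]
        intro hc
        exact hb (Nat.ble_eq.mp hc)
      rw [hb1, cond_false]
      trivial

end Pool.Agent.SB19
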