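import Pool.Agent.SB19.MulSound
import Pool.Agent.SB19.LinSound

/-!
# SB19/Trig: soundness of sine and cosine

`nestR_sound`: by induction on the list. `sinR`: if `bdR` does not fail then `|f| ≤ 2` on the cube (`abs_le_of_rep`), and
for `|x| ≤ 2`: `|sin x - x * nestV (-x²) [6, 20, 42, 72, 110, 156, 210, 272]| ≤ 2 ^ 19 / 19! < 6 / S` (the product is the
Taylor polynomial of degree 17); `|cos x - nestV (-x²) [2, 12, 30, 56, 90, 132, 182, 240]| ≤ 2 ^ 18 / 18! < 46 / S`.
Taylor bounds for all real `x`: `|sin x - ∑ j < m, (-1) ^ j x ^ (2 j + 1) / (2 j + 1)!| ≤ |x| ^ (2 m + 1) / (2 m + 1)!` and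
`|cos x - ∑ j < m, (-1) ^ j x ^ (2 j) / (2 j)!| ≤ |x| ^ (2 m) / (2 m)!`, by induction on `m` (integrate / monotonicity of the
difference on `[0, x]`), or from `taylor_mean_remainder_lagrange`, or from the exponential series.
-/

set_option autoImplicit false

namespace Pool.Agent.SB19

theorem nestR_sound {x : R} {f : (ℕ → ℝ) → ℝ} (hx : Rep x f) (l : List ℕ) (hl : ∀ q ∈ l, 0 < q) :
    Rep (nestR x l) (fun ε => nestV (f ε) l) := by
  induction l with
  | nil => exact oneR_sound
  | cons q l ih =>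
    have h1 : Rep (nestR x l) (fun ε => nestV (f ε) l) := ih (fun q' hq' => hl q' (List.mem_cons_of_mem _ hq'))
    exact addR_sound oneR_sound (divR_sound q (hl q List.mem_cons_self) (mulR_sound hx h1))

theorem bdR_sound {n : ℕ} {x : R} {f : (ℕ → ℝ) → ℝ} (hx : Rep x f) :
    Rep (bdR n x) f ∧ (bdR n x ≠ .bad → ∀ ε, Cube ε → (S : ℝ) * |f ε| ≤ n) := by
  cases x with
  | bad => exact ⟨trivial, fun h => absurd rfl h⟩
  | ok P b e =>
    have hdef : bdR n (.ok P b e) = cond (Nat.ble b 1208925819614629174706176)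
      (cond (Nat.ble (tot (nrm P) + e) n) (.ok P b e) R.bad) R.bad := rfl
    rw [hdef]
    by_cases hb : b ≤ 1208925819614629174706176
    · have hb1 : Nat.ble b 1208925819614629174706176 = true := Nat.ble_eq.mpr hb
      rw [hb1, cond_true]
      by_cases hn : tot (nrm P) + e ≤ n
      · have hn1 : Nat.ble (tot (nrm P) + e) n = true := Nat.ble_eq.mpr hn
        rw [hn1, cond_true]
        refine ⟨hx, fun _ ε hε => ?_⟩
        have hb' : b ≤ 2 ^ 105 := le_trans hb (by norm_num)
        have h2 := abs_le_of_rep hx hb' ε hε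
        have h3 : ((tot (nrm P) + e : ℕ) : ℝ) ≤ (n : ℝ) := by exact_mod_cast hn
        exact le_trans h2 h3
      · have hn1 : Nat.ble (tot (nrm P) + e) n = false := by
          rw [Bool.eq_false_iff]
          intro hc
          exact hn (Nat.ble_eq.mp hc)
        rw [hn1, cond_false]
        exact ⟨trivial, fun h => absurd rfl h⟩
    · have hb1 : Nat.ble b 1208925819614629174706176 = false := by
        rw [Bool.eq_false_iff]
        intro hc
        exact hb (Nat.ble_eq.mp hc)
      rw [hb1, cond_false]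
      exact ⟨trivial, fun h => absurd rfl h⟩

/-- Partial sums of the sine series. -/
private noncomputable def sP (m : ℕ) (x : ℝ) : ℝ :=
  ∑ j ∈ Finset.range m, (-1) ^ j * x ^ (2 * j + 1) / (Nat.factorial (2 * j + 1) : ℝ)

/-- Partial sums of the cosine series. -/
private noncomputable def cP (m : ℕ) (x : ℝ) : ℝ :=
  ∑ j ∈ Finset.range m, (-1) ^ j * x ^ (2 * j) / (Nat.factorial (2 * j) : ℝ)

private theorem mono_pow (n : ℕ) (x : ℝ) :
    HasDerivAt (fun x : ℝ => x ^ (n + 1) / (Nat.factorial (n + 1) : ℝ)) (x ^ n / (Nat.factorial n : ℝ)) x := by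
  have h := (hasDerivAt_pow (n + 1) x).div_const (Nat.factorial (n + 1) : ℝ)
  have e : ((n + 1 : ℕ) : ℝ) * x ^ (n + 1 - 1) / (Nat.factorial (n + 1) : ℝ) = x ^ n / (Nat.factorial n : ℝ) := by
    rw [Nat.factorial_succ, Nat.add_sub_cancel]
    push_cast
    have h1 : ((n : ℝ) + 1) ≠ 0 := by positivity
    have h2 : (Nat.factorial n : ℝ) ≠ 0 := by positivity
    field_simp
  rw [e] at h
  exact h

private theorem sP_deriv (m : ℕ) (x : ℝ) : HasDerivAt (sP m) (cP m x) x := by
  unfold sP cP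
  have h : HasDerivAt (fun x : ℝ => ∑ j ∈ Finset.range m, (-1) ^ j * (x ^ (2 * j + 1) / (Nat.factorial (2 * j + 1) : ℝ)))
      (∑ j ∈ Finset.range m, (-1) ^ j * (x ^ (2 * j) / (Nat.factorial (2 * j) : ℝ))) x := by
    apply HasDerivAt.fun_sum
    intro j _
    exact (mono_pow (2 * j) x).const_mul _
  simpa only [mul_div_assoc] using h

private theorem cP_deriv (m : ℕ) (x : ℝ) : HasDerivAt (cP (m + 1)) (-sP m x) x := by
  have e1 : cP (m + 1) = fun x => (∑ j ∈ Finset.range m, (-1) ^ (j + 1) *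
      (x ^ (2 * j + 1 + 1) / (Nat.factorial (2 * j + 1 + 1) : ℝ))) + 1 := by
    funext y
    unfold cP
    rw [Finset.sum_range_succ']
    simp only [mul_div_assoc]
    congr 1
    simp
  have e2 : -sP m x = ∑ j ∈ Finset.range m, (-1) ^ (j + 1) *
      (x ^ (2 * j + 1) / (Nat.factorial (2 * j + 1) : ℝ)) := by
    unfold sP
    rw [← Finset.sum_neg_distrib]
    apply Finset.sum_congr rfl
    intro j _
    rw [pow_succ]
    ring
  rw [e1, e2]
  apply HasDerivAt.add_const
  apply HasDerivAt.fun_sum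
  intro j _
  exact (mono_pow (2 * j + 1) x).const_mul _

private theorem bound_of_deriv {f g f' g' : ℝ → ℝ} (hf : ∀ x, HasDerivAt f (f' x) x)
    (hg : ∀ x, HasDerivAt g (g' x) x) (h0 : f 0 = 0) (h0' : g 0 = 0)
    (h : ∀ x, 0 ≤ x → |f' x| ≤ g' x) (x : ℝ) (hx : 0 ≤ x) : |f x| ≤ g x := by
  have m1 : MonotoneOn (fun y => g y - f y) (Set.Ici 0) := by
    apply monotoneOn_of_deriv_nonneg (convex_Ici 0)
    · exact fun y _ => ((hg y).sub (hf y)).continuousAt.continuousWithinAt
    · exact fun y _ => ((hg y).sub (hf y)).differentiableAt.differentiableWithinAt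
    · intro y hy
      rw [interior_Ici] at hy
      have h1 := ((hg y).fun_sub (hf y)).deriv
      rw [h1]
      have h2 := h y (le_of_lt hy)
      have h3 := le_abs_self (f' y)
      linarith
  have m2 : MonotoneOn (fun y => g y + f y) (Set.Ici 0) := by
    apply monotoneOn_of_deriv_nonneg (convex_Ici 0)
    · exact fun y _ => ((hg y).add (hf y)).continuousAt.continuousWithinAt
    · exact fun y _ => ((hg y).add (hf y)).differentiableAt.differentiableWithinAt
    · intro y hy
      rw [interior_Ici] at hy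
      have h1 := ((hg y).fun_add (hf y)).deriv
      rw [h1]
      have h2 := h y (le_of_lt hy)
      have h3 := neg_abs_le (f' y)
      linarith
  have k1 := m1 (Set.mem_Ici.mpr le_rfl) (Set.mem_Ici.mpr hx) hx
  have k2 := m2 (Set.mem_Ici.mpr le_rfl) (Set.mem_Ici.mpr hx) hx
  simp only [h0, h0', sub_zero, add_zero] at k1 k2
  rw [abs_le]
  constructor <;> linarith

private theorem taylor_both (m : ℕ) :
    (∀ x : ℝ, 0 ≤ x → |Real.cos x - cP m x| ≤ x ^ (2 * m) / (Nat.factorial (2 * m) : ℝ)) ∧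
    (∀ x : ℝ, 0 ≤ x → |Real.sin x - sP m x| ≤ x ^ (2 * m + 1) / (Nat.factorial (2 * m + 1) : ℝ)) := by
  have step : ∀ m, (∀ x : ℝ, 0 ≤ x → |Real.cos x - cP m x| ≤ x ^ (2 * m) / (Nat.factorial (2 * m) : ℝ)) →
      (∀ x : ℝ, 0 ≤ x → |Real.sin x - sP m x| ≤ x ^ (2 * m + 1) / (Nat.factorial (2 * m + 1) : ℝ)) := by
    intro m hm x hx
    refine bound_of_deriv (f := fun x => Real.sin x - sP m x)
      (g := fun x => x ^ (2 * m + 1) / (Nat.factorial (2 * m + 1) : ℝ))
      (fun y => (Real.hasDerivAt_sin y).fun_sub (sP_deriv m y)) (fun y => mono_pow (2 * m) y) ?_ ?_ hm x hx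
    · simp [sP]
    · simp
  induction m with
  | zero =>
    have h0 : ∀ x : ℝ, 0 ≤ x → |Real.cos x - cP 0 x| ≤ x ^ (2 * 0) / (Nat.factorial (2 * 0) : ℝ) := by
      intro x _
      simpa [cP] using Real.abs_cos_le_one x
    exact ⟨h0, step 0 h0⟩
  | succ m ih =>
    have h1 : ∀ x : ℝ, 0 ≤ x → |Real.cos x - cP (m + 1) x| ≤ x ^ (2 * (m + 1)) / (Nat.factorial (2 * (m + 1)) : ℝ) := by
      intro x hx
      refine bound_of_deriv (f := fun x => Real.cos x - cP (m + 1) x)
        (g := fun x => x ^ (2 * (m + 1)) / (Nat.factorial (2 * (m + 1)) : ℝ))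
        (fun y => (Real.hasDerivAt_cos y).fun_sub (cP_deriv m y)) (fun y => mono_pow (2 * m + 1) y) ?_ ?_ ?_ x hx
      · have : cP (m + 1) 0 = 1 := by
          unfold cP
          rw [Finset.sum_range_succ']
          simp
        simp [this]
      · simp
      · intro y hy
        have h2 := ih.2 y hy
        have h3 : -Real.sin y - -sP m y = -(Real.sin y - sP m y) := by ring
        rw [h3, abs_neg]
        exact h2
    exact ⟨h1, step (m + 1) h1⟩

private theorem sP_neg (m : ℕ) (x : ℝ) : sP m (-x) = -sP m x := by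
  unfold sP
  rw [← Finset.sum_neg_distrib]
  apply Finset.sum_congr rfl
  intro j _
  rw [Odd.neg_pow ⟨j, rfl⟩]
  ring

private theorem cP_neg (m : ℕ) (x : ℝ) : cP m (-x) = cP m x := by
  unfold cP
  apply Finset.sum_congr rfl
  intro j _
  rw [Even.neg_pow ⟨j, two_mul j⟩]

theorem sin_taylor (x : ℝ) (hx : |x| ≤ 2) :
    |Real.sin x - x * nestV (-(x * x)) [6, 20, 42, 72, 110, 156, 210, 272]| ≤ 2 ^ 19 / (Nat.factorial 19 : ℝ) := by
  have e : x * nestV (-(x * x)) [6, 20, 42, 72, 110, 156, 210, 272] = sP 9 x := by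
    simp only [nestV, sP, Finset.sum_range_succ, Finset.sum_range_zero, Nat.factorial]
    push_cast
    ring
  rw [e]
  have h1 : |Real.sin x - sP 9 x| ≤ |x| ^ 19 / (Nat.factorial 19 : ℝ) := by
    rcases le_total 0 x with h | h
    · rw [abs_of_nonneg h]
      exact (taylor_both 9).2 x h
    · rw [abs_of_nonpos h]
      have h2 := (taylor_both 9).2 (-x) (by linarith)
      rw [Real.sin_neg, sP_neg] at h2
      have h3 : Real.sin x - sP 9 x = -(-Real.sin x - -sP 9 x) := by ring
      rw [h3, abs_neg]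
      exact h2
  refine h1.trans ?_
  have h4 : |x| ^ 19 ≤ 2 ^ 19 := pow_le_pow_left₀ (abs_nonneg x) hx 19
  exact div_le_div_of_nonneg_right h4 (by positivity)

theorem cos_taylor (x : ℝ) (hx : |x| ≤ 2) :
    |Real.cos x - nestV (-(x * x)) [2, 12, 30, 56, 90, 132, 182, 240]| ≤ 2 ^ 18 / (Nat.factorial 18 : ℝ) := by
  have e : nestV (-(x * x)) [2, 12, 30, 56, 90, 132, 182, 240] = cP 9 x := by
    simp only [nestV, cP, Finset.sum_range_succ, Finset.sum_range_zero, Nat.factorial]
    push_cast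
    ring
  rw [e]
  have h1 : |Real.cos x - cP 9 x| ≤ |x| ^ 18 / (Nat.factorial 18 : ℝ) := by
    rcases le_total 0 x with h | h
    · rw [abs_of_nonneg h]
      exact (taylor_both 9).1 x h
    · rw [abs_of_nonpos h]
      have h2 := (taylor_both 9).1 (-x) (by linarith)
      rw [Real.cos_neg, cP_neg] at h2
      exact h2
  refine h1.trans ?_
  have h4 : |x| ^ 18 ≤ 2 ^ 18 := pow_le_pow_left₀ (abs_nonneg x) hx 18
  exact div_le_div_of_nonneg_right h4 (by positivity)

private theorem nest_bad (q : ℕ) (l : List ℕ) : nestR .bad (q :: l) = .bad := rfl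

private theorem mul_bad (x : R) : mulR x .bad = .bad := by
  cases x <;> rfl

private theorem le_two_of {t : ℝ} (h : (S : ℝ) * |t| ≤ ((2199023255552 : ℕ) : ℝ)) : |t| ≤ 2 := by
  have hS : (S : ℝ) = 1099511627776 := by
    unfold S
    norm_num
  rw [hS] at h
  push_cast at h
  linarith

theorem sinR_sound {x : R} {f : (ℕ → ℝ) → ℝ} (hx : Rep x f) : Rep (sinR x) (fun ε => Real.sin (f ε)) := by
  have hdef : sinR x = errR 6 (mulR x (nestR (negR (mulR (bdR 2199023255552 x) x))
    [6, 20, 42, 72, 110, 156, 210, 272])) := rfl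
  rw [hdef]
  obtain ⟨h1, h2⟩ := bdR_sound (n := 2199023255552) hx
  by_cases hb : bdR 2199023255552 x = .bad
  · rw [hb]
    have h3 : negR (mulR .bad x) = .bad := rfl
    rw [h3, nest_bad, mul_bad]
    exact trivial
  · have h3 := h2 hb
    have h4 := mulR_sound hx (nestR_sound (negR_sound (mulR_sound h1 hx)) [6, 20, 42, 72, 110, 156, 210, 272]
      (by decide))
    refine errR_sound 6 h4 ?_
    intro ε hε
    have h5 := le_two_of (h3 ε hε)
    have h6 := sin_taylor (f ε) h5
    rw [← mul_sub, abs_mul]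
    have hS : (S : ℝ) = 1099511627776 := by
      unfold S
      norm_num
    rw [hS, abs_of_pos (by norm_num : (0 : ℝ) < 1099511627776)]
    have h7 : (2 : ℝ) ^ 19 / (Nat.factorial 19 : ℝ) ≤ 6 / 1099511627776 := by
      norm_num [Nat.factorial]
    have h8 := le_trans h6 h7
    push_cast
    calc (1099511627776 : ℝ) * |Real.sin (f ε) - f ε * nestV (-(f ε * f ε)) [6, 20, 42, 72, 110, 156, 210, 272]|
        ≤ 1099511627776 * (6 / 1099511627776) := mul_le_mul_of_nonneg_left h8 (by norm_num)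
      _ = 6 := by norm_num

theorem cosR_sound {x : R} {f : (ℕ → ℝ) → ℝ} (hx : Rep x f) : Rep (cosR x) (fun ε => Real.cos (f ε)) := by
  have hdef : cosR x = errR 46 (nestR (negR (mulR (bdR 2199023255552 x) x))
    [2, 12, 30, 56, 90, 132, 182, 240]) := rfl
  rw [hdef]
  obtain ⟨h1, h2⟩ := bdR_sound (n := 2199023255552) hx
  by_cases hb : bdR 2199023255552 x = .bad
  · rw [hb]
    have h3 : negR (mulR .bad x) = .bad := rfl
    rw [h3, nest_bad]
    exact trivial
  · have h3 := h2 hb
    have h4 := nestR_sound (negR_sound (mulR_sound h1 hx)) [2, 12, 30, 56, 90, 132, 182, 240] (by decide)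
    refine errR_sound 46 h4 ?_
    intro ε hε
    have h5 := le_two_of (h3 ε hε)
    have h6 := cos_taylor (f ε) h5
    rw [← mul_sub, abs_mul]
    have hS : (S : ℝ) = 1099511627776 := by
      unfold S
      norm_num
    rw [hS, abs_of_pos (by norm_num : (0 : ℝ) < 1099511627776)]
    have h7 : (2 : ℝ) ^ 18 / (Nat.factorial 18 : ℝ) ≤ 46 / 1099511627776 := by
      norm_num [Nat.factorial]
    have h8 := le_trans h6 h7
    push_cast
    calc (1099511627776 : ℝ) * |Real.cos (f ε) - nestV (-(f ε * f ε)) [2, 12, 30, 56, 90, 132, 182, 240]|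
        ≤ 1099511627776 * (46 / 1099511627776) := mul_le_mul_of_nonneg_left h8 (by norm_num)
      _ = 46 := by norm_num

end Pool.Agent.SB19
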