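import Pool.Agent.SB19.ExpSound
import Pool.Agent.SB19.InvSound
import Pool.Agent.SB19.Trig
import Pool.Agent.SB19.Psi

/-!
# SB19/Check: soundness of the whole check

`nonneg_of_chk e t cx rx cy ry cz rz (by decide +kernel) x y z hx0 hy0 hz0 hx hy hz : 0 ≤ e.eval x y z`, for
nonnegative `x`, `y`, `z` (the subtractions in `chk` are truncated).
-/

set_option autoImplicit false

namespace Pool.Agent.SB19

theorem pi_const : |(S : ℝ) * Real.pi - ((3454217652358 : ℕ) : ℝ)| ≤ ((1 : ℕ) : ℝ) := by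
  have h1 := Real.pi_gt_d20
  have h2 := Real.pi_lt_d20
  rw [abs_le]
  unfold S
  push_cast
  constructor <;> nlinarith

theorem sq3_const : |(S : ℝ) * √3 - ((1904410002821 : ℕ) : ℝ)| ≤ ((1 : ℕ) : ℝ) := by
  have h0 : √3 * √3 = (3 : ℝ) := Real.mul_self_sqrt (by norm_num)
  have h1 : (1.7320508075688 : ℝ) ≤ √3 := Real.le_sqrt_of_sq_le (by norm_num)
  have h2 : √3 ≤ (1.7320508075689 : ℝ) := by
    rw [Real.sqrt_le_left (by norm_num)]; norm_num
  rw [abs_le]
  unfold S
  push_cast
  constructor <;> nlinarith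

/-- Multiplication by a natural number. -/
theorem nmulR_sound {x : R} {f : (ℕ → ℝ) → ℝ} (k : ℕ) (hx : Rep x f) :
    Rep (nmulR k x) (fun ε => (k : ℝ) * f ε) := by
  cases x with
  | bad => trivial
  | ok P b e =>
    obtain ⟨c, hc⟩ := hx
    refine ⟨fun j => c j * (k : ℤ), ?_, ?_, ?_, ?_⟩
    · intro j hj
      change c j * (k : ℤ) = 0
      rw [hc.supp j hj, zero_mul]
    · intro j
      change (c j * (k : ℤ)).natAbs ≤ b * k
      rw [Int.natAbs_mul, Int.natAbs_natCast]
      exact Nat.mul_le_mul_right k (hc.bd j)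
    · rw [code_mul_const]
      change ((P * k : ℕ) : ℤ) ≡ code c * (k : ℤ) [ZMOD (TN : ℤ)]
      push_cast
      exact hc.cod.mul_right _
    · intro ε hε
      rw [val_mul_const]
      change |(S : ℝ) * ((k : ℝ) * f ε) - val c ε * ((k : ℤ) : ℝ)| ≤ ((e * k : ℕ) : ℝ)
      have h1 : (S : ℝ) * ((k : ℝ) * f ε) - val c ε * ((k : ℤ) : ℝ) = ((S : ℝ) * f ε - val c ε) * (k : ℝ) := by
        push_cast; ring
      rw [h1, abs_mul, Nat.abs_cast]
      push_cast
      exact mul_le_mul_of_nonneg_right (hc.err ε hε) (Nat.cast_nonneg k)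

theorem posL_spec (l : List ℕ) (h : posL l = true) : ∀ q ∈ l, 0 < q := by
  induction l with
  | nil => intro q hq; exact absurd hq (by simp)
  | cons a l ih =>
    simp only [posL] at h
    rw [Bool.cond_eq_ite] at h
    split_ifs at h with h1
    rw [Nat.ble_eq] at h1
    intro q hq
    rcases List.mem_cons.1 hq with rfl | h2
    · exact h1
    · exact ih h q h2

theorem ev_sound {x y z : R} {fx fy fz : (ℕ → ℝ) → ℝ} (hx : Rep x fx) (hy : Rep y fy) (hz : Rep z fz) (e : Ex) :
    Rep (ev x y z e) (fun ε => e.eval (fx ε) (fy ε) (fz ε)) := by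
  induction e with
  | X => exact hx
  | Y => exact hy
  | Z => exact hz
  | pi => exact const_sound 3454217652358 1 Real.pi pi_const
  | sq3 => exact const_sound 1904410002821 1 √3 sq3_const
  | num p q => exact numR_sound p q
  | neg a ih => exact negR_sound ih
  | add a b iha ihb => exact addR_sound iha ihb
  | mul a b iha ihb => exact mulR_sound iha ihb
  | inv a ih => exact invR_sound ih
  | exp a ih => exact expR_sound ih
  | sin a ih => exact sinR_sound ih
  | cos a ih => exact cosR_sound ih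
  | nmul k a ih => exact nmulR_sound k ih
  | ndiv q a ih =>
    simp only [ev]
    rw [Bool.cond_eq_ite]
    split_ifs with h
    · rw [Nat.ble_eq] at h
      exact divR_sound q h ih
    · trivial
  | nest a l ih =>
    simp only [ev]
    rw [Bool.cond_eq_ite]
    split_ifs with h
    · exact nestR_sound ih l (posL_spec l h)
    · trivial
  | psi a ih => exact psiR_sound ih

theorem posR_sound {x : R} {f : (ℕ → ℝ) → ℝ} (hx : Rep x f) (h : posR x = true) (ε : ℕ → ℝ) (hε : Cube ε) :
    0 ≤ f ε := by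
  cases x with
  | bad => exact absurd h (by simp [posR])
  | ok P b e =>
    simp only [posR] at h
    rw [Bool.cond_eq_ite, Bool.cond_eq_ite] at h
    split_ifs at h with h1 h2
    rw [Nat.ble_eq] at h h1 h2
    have hb : b ≤ 2 ^ 105 := h1.trans (by norm_num)
    obtain ⟨c0, e1, e2, -, e4, e5, e6⟩ := split_sound hx hb
    have e7 := e6 ε hε
    have hS : (0 : ℝ) < S := by exact_mod_cast S_pos
    have hc0 : 0 ≤ c0 := by
      have : (H : ℤ) ≤ ((c0b P : ℕ) : ℤ) := by
        have : H ≤ c0b P := by unfold H; exact le_trans (by norm_num) h2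
        exact_mod_cast this
      omega
    have e8 : (c0 : ℝ) = (nz (nrm P) : ℝ) := by
      have : (c0 : ℤ) = ((nz (nrm P) : ℕ) : ℤ) := by rw [← e4]; omega
      exact_mod_cast congrArg (fun z : ℤ => (z : ℝ)) this
    have e9 : ((tot (nrm P) - nz (nrm P) + e : ℕ) : ℝ) ≤ (nz (nrm P) : ℝ) := by
      exact_mod_cast h
    have e10 : (S : ℝ) * |f ε - (c0 : ℝ) / (S : ℝ)| ≤ c0 := by
      refine (e7.trans e9).trans ?_
      rw [e8]
    have e11 : |f ε - (c0 : ℝ) / (S : ℝ)| ≤ c0 / S := by
      rw [le_div_iff₀ hS]; linarith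
    have e12 := (abs_le.1 e11).1
    linarith

/-- One coordinate: a point of the box in terms of a parameter in `[-1, 1]`. -/
theorem exists_param (x : ℝ) (c r : ℕ) (hx : |(S : ℝ) * x - c| ≤ r) :
    ∃ s : ℝ, |s| ≤ 1 ∧ ((c : ℝ) + (r : ℝ) * s) / (S : ℝ) = x := by
  have hS : (S : ℝ) ≠ 0 := by exact_mod_cast S_pos.ne'
  rcases Nat.eq_zero_or_pos r with h | h
  · subst h
    have h1 : (S : ℝ) * x - c = 0 := by
      have := abs_nonneg ((S : ℝ) * x - c)
      exact abs_eq_zero.1 (le_antisymm (by simpa using hx) this)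
    refine ⟨0, by simp, ?_⟩
    field_simp
    linarith
  · have hr : (0 : ℝ) < r := by exact_mod_cast h
    refine ⟨((S : ℝ) * x - c) / r, ?_, ?_⟩
    · rw [abs_div, abs_of_pos hr, div_le_one hr]
      exact hx
    · field_simp
      ring

/-- Splitting a box in one coordinate. -/
theorem split_box {x : ℝ} (hx0 : 0 ≤ x) {c r : ℕ} (hx : |(S : ℝ) * x - c| ≤ r) :
    |(S : ℝ) * x - (Nat.sub c (hf r) : ℕ)| ≤ hf r ∨ |(S : ℝ) * x - (Nat.add c (hf r) : ℕ)| ≤ hf r := by
  have h1 : r ≤ 2 * hf r := by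
    have : hf r = (r + 1) / 2 := rfl
    omega
  have h2 : (r : ℝ) ≤ 2 * (hf r : ℝ) := by exact_mod_cast h1
  have h3 : 0 ≤ (S : ℝ) * x := mul_nonneg (by positivity) hx0
  rw [abs_le] at hx
  rcases le_total ((S : ℝ) * x) c with h | h
  · left
    rcases le_total (hf r) c with h4 | h4
    · have h5 : ((Nat.sub c (hf r) : ℕ) : ℝ) = c - hf r := by
        change ((c - hf r : ℕ) : ℝ) = _
        rw [Nat.cast_sub h4]
      rw [h5, abs_le]
      constructor <;> linarith [hx.1, hx.2]
    · have h5 : Nat.sub c (hf r) = 0 := by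
        change c - hf r = 0
        omega
      have h6 : (c : ℝ) ≤ hf r := by exact_mod_cast h4
      rw [h5, abs_le, Nat.cast_zero, sub_zero]
      constructor <;> linarith [hx.1, hx.2]
  · right
    have h5 : ((Nat.add c (hf r) : ℕ) : ℝ) = c + hf r := by
      change ((c + hf r : ℕ) : ℝ) = _
      push_cast; ring
    rw [h5, abs_le]
    constructor <;> linarith [hx.1, hx.2]

theorem nonneg_of_chk (e : Ex) (t : Tr) (cx rx cy ry cz rz : ℕ) (h : chk e t cx rx cy ry cz rz = true)
    (x y z : ℝ) (hx0 : 0 ≤ x) (hy0 : 0 ≤ y) (hz0 : 0 ≤ z)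
    (hx : |(S : ℝ) * x - cx| ≤ rx) (hy : |(S : ℝ) * y - cy| ≤ ry) (hz : |(S : ℝ) * z - cz| ≤ rz) :
    0 ≤ e.eval x y z := by
  induction t generalizing cx rx cy ry cz rz with
  | L =>
    simp only [chk] at h
    obtain ⟨s0, k0, l0⟩ := exists_param x cx rx hx
    obtain ⟨s1, k1, l1⟩ := exists_param y cy ry hy
    obtain ⟨s2, k2, l2⟩ := exists_param z cz rz hz
    have h1 := ev_sound (varR0_sound cx rx) (varR1_sound cy ry) (varR2_sound cz rz) e
    let ε : ℕ → ℝ := fun i => if i = 0 then s0 else if i = 1 then s1 else s2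
    have hε : Cube ε := by
      intro i
      change |if i = 0 then s0 else if i = 1 then s1 else s2| ≤ 1
      split_ifs <;> assumption
    have h2 := posR_sound h1 h ε hε
    have e0 : ε 0 = s0 := rfl
    have e1 : ε 1 = s1 := rfl
    have e2 : ε 2 = s2 := rfl
    simp only [e0, e1, e2, l0, l1, l2] at h2
    exact h2
  | X l r ihl ihr =>
    simp only [chk] at h
    rw [Bool.cond_eq_ite] at h
    split_ifs at h with h1
    rcases split_box hx0 hx with h2 | h2
    · exact ihl _ _ _ _ _ _ h1 h2 hy hz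
    · exact ihr _ _ _ _ _ _ h h2 hy hz
  | Y l r ihl ihr =>
    simp only [chk] at h
    rw [Bool.cond_eq_ite] at h
    split_ifs at h with h1
    rcases split_box hy0 hy with h2 | h2
    · exact ihl _ _ _ _ _ _ h1 hx h2 hz
    · exact ihr _ _ _ _ _ _ h hx h2 hz
  | Z l r ihl ihr =>
    simp only [chk] at h
    rw [Bool.cond_eq_ite] at h
    split_ifs at h with h1
    rcases split_box hz0 hz with h2 | h2
    · exact ihl _ _ _ _ _ _ h1 hx hy h2
    · exact ihr _ _ _ _ _ _ h hx hy h2

end Pool.Agent.SB19
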