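import Pool.Agent.SB19.Sem

/-!
# SB19/Conv: the truncated product of coefficient families

`code c * code c' = ∑ i j, c i c' j T ^ (i + j)`; the terms with `105 ≤ i + j` are divisible by `T ^ 105 = TN`, the others
give `code (conv c c')` (group by `k = i + j`). `conv_supp`: if `conv c c' k ≠ 0` then some `i ≤ k` has `c i ≠ 0`,
`c' (k - i) ≠ 0`, so both are used, and `bits_spec_used` applies. `conv_bd`: `|∑| ≤ ∑ |c i| |c' (k - i)| ≤ NT c * NT c'`.
-/

set_option autoImplicit false

namespace Pool.Agent.SB19

theorem code_conv (c c' : ℕ → ℤ) : code c * code c' ≡ code (conv c c') [ZMOD (TN : ℤ)] := by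
  have hTN : (TN : ℤ) = (T : ℤ) ^ 105 := by rw [TN_eq]; push_cast; rfl
  rw [hTN]
  have h1 : code (conv c c') = ∑ m ∈ Finset.range 105, ∑ j ∈ Finset.range (105 - m),
      c m * c' j * (T : ℤ) ^ (m + j) := by
    unfold code
    rw [← Finset.sum_range_diag_flip 105 (fun i j => c i * c' j * (T : ℤ) ^ (i + j))]
    refine Finset.sum_congr rfl fun k hk => ?_
    unfold conv
    rw [if_pos (Finset.mem_range.1 hk), Finset.sum_mul]
    refine Finset.sum_congr rfl fun i hi => ?_
    have hik : i + (k - i) = k := by
      have := Finset.mem_range.1 hi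
      omega
    simp only [hik]
  have h2 : code c * code c' = ∑ m ∈ Finset.range 105, ∑ j ∈ Finset.range 105,
      c m * c' j * (T : ℤ) ^ (m + j) := by
    unfold code
    rw [Finset.sum_mul_sum]
    refine Finset.sum_congr rfl fun m _ => Finset.sum_congr rfl fun j _ => ?_
    rw [pow_add]
    ring
  rw [h1, h2]
  symm
  rw [Int.modEq_iff_dvd, ← Finset.sum_sub_distrib]
  refine Finset.dvd_sum fun m hm => ?_
  have hm' := Finset.mem_range.1 hm
  have h3 : Finset.range (105 - m) ⊆ Finset.range 105 := Finset.range_subset_range.2 (by omega)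
  rw [← Finset.sum_sdiff h3, add_sub_cancel_right]
  refine Finset.dvd_sum fun j hj => ?_
  have hj' : 105 - m ≤ j := by
    have := (Finset.mem_sdiff.1 hj).2
    simpa using this
  exact Dvd.dvd.mul_left (pow_dvd_pow _ (by omega)) _

theorem conv_supp {c c' : ℕ → ℤ} (hc : Supp c) (hc' : Supp c') : Supp (conv c c') := by
  intro k hk
  unfold conv
  split_ifs with h
  · refine Finset.sum_eq_zero fun i hi => ?_
    have hik : i ≤ k := Nat.lt_succ_iff.1 (Finset.mem_range.1 hi)
    by_cases h1 : used i
    · by_cases h2 : used (k - i)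
      · exfalso
        apply hk
        have h3 : i + (k - i) = k := by omega
        have h4 := (bits_spec_used h1 h2 (by omega)).1
        rwa [h3] at h4
      · rw [hc' _ h2, mul_zero]
    · rw [hc _ h1, zero_mul]
  · rfl

theorem conv_bd (c c' : ℕ → ℤ) (k : ℕ) : (conv c c' k).natAbs ≤ NT c * NT c' := by
  unfold conv
  split_ifs with h
  · calc (∑ i ∈ Finset.range (k + 1), c i * c' (k - i)).natAbs
        ≤ ∑ i ∈ Finset.range (k + 1), (c i * c' (k - i)).natAbs := Int.natAbs_sum_le _ _
      _ ≤ ∑ i ∈ Finset.range (k + 1), (c i).natAbs * NT c' := by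
          refine Finset.sum_le_sum fun i hi => ?_
          rw [Int.natAbs_mul]
          refine Nat.mul_le_mul_left _ ?_
          exact Finset.single_le_sum (f := fun j => (c' j).natAbs) (fun _ _ => Nat.zero_le _)
            (Finset.mem_range.2 (by omega))
      _ = (∑ i ∈ Finset.range (k + 1), (c i).natAbs) * NT c' := by rw [Finset.sum_mul]
      _ ≤ NT c * NT c' := by
          refine Nat.mul_le_mul_right _ ?_
          exact Finset.sum_le_sum_of_subset (Finset.range_subset_range.2 (by omega))
  · simp

end Pool.Agent.SB19
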