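import Pool.Agent.SB19.Sem

/-!
# SB19/Drop: the dropped part of a product

With `T' = T ^ 21 = 2 ^ 2352`: `NP c * NP c' = ∑ g g', NG c g * NG c' g' * T' ^ (g + g')`. The part with `g + g' ≤ 4` is less
than `T' ^ 5 = 2 ^ 11760` (it is at most `NT c * NT c' * T' ^ 4` and `NT c * NT c' < 2 ^ 105 < T'`; for this use
`NT c = ∑ g < 5, NG c g`), so the shift by `11760` leaves exactly
`∑ g + g' ≥ 5, NG c g * NG c' g' * T' ^ (g + g' - 5)`, and modulo `T - 1` this is `drop c c'` (as `T ≡ 1` and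
`drop c c' ≤ NT c * NT c' < T - 1`).
-/

set_option autoImplicit false

namespace Pool.Agent.SB19

theorem sum_blocks_drop (f : ℕ → ℕ) (n : ℕ) :
    ∑ k ∈ Finset.range (21 * n), f k =
      ∑ g ∈ Finset.range n, ∑ j ∈ Finset.range 21, f (21 * g + j) := by
  induction n with
  | zero => simp
  | succ n ih =>
    rw [Finset.sum_range_succ, ← ih, Nat.mul_succ, Finset.sum_range_add]

theorem NT_eq_sum_NG (c : ℕ → ℤ) : NT c = ∑ g ∈ Finset.range 5, NG c g := by
  unfold NT NG
  exact sum_blocks_drop (fun k => (c k).natAbs) 5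

theorem drop_le (c c' : ℕ → ℤ) : drop c c' ≤ NT c * NT c' := by
  rw [NT_eq_sum_NG, NT_eq_sum_NG, Finset.sum_mul_sum]
  unfold drop
  refine Finset.sum_le_sum fun g _ => Finset.sum_le_sum fun g' _ => ?_
  split_ifs
  · exact le_rfl
  · exact Nat.zero_le _

/-- The low part. -/
def lowPart (c c' : ℕ → ℤ) : ℕ :=
  ∑ g ∈ Finset.range 5, ∑ g' ∈ Finset.range 5,
    if 5 ≤ g + g' then 0 else NG c g * NG c' g' * T ^ (21 * (g + g'))

/-- The high part, shifted. -/
def highPart (c c' : ℕ → ℤ) : ℕ :=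
  ∑ g ∈ Finset.range 5, ∑ g' ∈ Finset.range 5,
    if 5 ≤ g + g' then NG c g * NG c' g' * T ^ (21 * (g + g' - 5)) else 0

theorem NP_mul_NP (c c' : ℕ → ℤ) : NP c * NP c' = lowPart c c' + TN * highPart c c' := by
  unfold NP lowPart highPart
  rw [TN_eq, Finset.sum_mul_sum, Finset.mul_sum, ← Finset.sum_add_distrib]
  refine Finset.sum_congr rfl fun g _ => ?_
  rw [Finset.mul_sum, ← Finset.sum_add_distrib]
  refine Finset.sum_congr rfl fun g' _ => ?_
  split_ifs with h
  · have e : 21 * g + 21 * g' = 105 + 21 * (g + g' - 5) := by omega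
    calc NG c g * T ^ (21 * g) * (NG c' g' * T ^ (21 * g'))
        = NG c g * NG c' g' * T ^ (21 * g + 21 * g') := by rw [pow_add]; ring
      _ = NG c g * NG c' g' * (T ^ 105 * T ^ (21 * (g + g' - 5))) := by rw [e, pow_add]
      _ = 0 + T ^ 105 * (NG c g * NG c' g' * T ^ (21 * (g + g' - 5))) := by ring
  · have e : 21 * g + 21 * g' = 21 * (g + g') := by ring
    calc NG c g * T ^ (21 * g) * (NG c' g' * T ^ (21 * g'))
        = NG c g * NG c' g' * T ^ (21 * g + 21 * g') := by rw [pow_add]; ring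
      _ = NG c g * NG c' g' * T ^ (21 * (g + g')) + T ^ 105 * 0 := by rw [e, mul_zero, add_zero]

theorem lowPart_lt (c c' : ℕ → ℤ) (h : NT c * NT c' < 2 ^ 105) : lowPart c c' < TN := by
  have h1 : lowPart c c' ≤ NT c * NT c' * T ^ 84 := by
    rw [NT_eq_sum_NG, NT_eq_sum_NG, Finset.sum_mul_sum, Finset.sum_mul]
    unfold lowPart
    refine Finset.sum_le_sum fun g _ => ?_
    rw [Finset.sum_mul]
    refine Finset.sum_le_sum fun g' _ => ?_
    split_ifs with h5
    · exact Nat.zero_le _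
    · exact Nat.mul_le_mul_left _ (Nat.pow_le_pow_right T_pos (by omega))
  have h2 : 2 ^ 105 ≤ T ^ 21 := by
    unfold T
    rw [← pow_mul]
    exact Nat.pow_le_pow_right (by norm_num) (by norm_num)
  calc lowPart c c' ≤ NT c * NT c' * T ^ 84 := h1
    _ < 2 ^ 105 * T ^ 84 := Nat.mul_lt_mul_of_pos_right h (pow_pos T_pos _)
    _ ≤ T ^ 21 * T ^ 84 := Nat.mul_le_mul_right _ h2
    _ = TN := by rw [TN_eq, ← pow_add]

theorem highPart_modEq (c c' : ℕ → ℤ) : highPart c c' ≡ drop c c' [MOD (T - 1)] := by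
  have hT : T ≡ 1 [MOD (T - 1)] := by
    have h1 : T = (T - 1) + 1 := by have := T_pos; omega
    have h2 : (T - 1) + 1 ≡ 0 + 1 [MOD (T - 1)] :=
      Nat.ModEq.add_right 1 (by rw [Nat.modEq_zero_iff_dvd])
    rw [zero_add, ← h1] at h2
    exact h2
  have key : ∀ g g' : ℕ,
      (if 5 ≤ g + g' then NG c g * NG c' g' * T ^ (21 * (g + g' - 5)) else 0) ≡
        (if 5 ≤ g + g' then NG c g * NG c' g' else 0) [MOD (T - 1)] := by
    intro g g'
    split_ifs with h
    · have h3 := (hT.pow (21 * (g + g' - 5))).mul_left (NG c g * NG c' g')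
      rwa [one_pow, mul_one] at h3
    · exact Nat.ModEq.refl _
  unfold highPart drop
  have sum_modEq : ∀ (F G : ℕ → ℕ) (n : ℕ), (∀ i, F i ≡ G i [MOD (T - 1)]) →
      ∑ i ∈ Finset.range n, F i ≡ ∑ i ∈ Finset.range n, G i [MOD (T - 1)] := by
    intro F G n hFG
    induction n with
    | zero => simp; exact Nat.ModEq.refl _
    | succ n ih => rw [Finset.sum_range_succ, Finset.sum_range_succ]; exact ih.add (hFG n)
  exact sum_modEq _ _ 5 fun g => sum_modEq _ _ 5 fun g' => key g g'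

theorem tot_drop (c c' : ℕ → ℤ) (h : NT c * NT c' < 2 ^ 105) :
    tot ((NP c * NP c') >>> 11760) = drop c c' := by
  have h1 : (NP c * NP c') >>> 11760 = highPart c c' := by
    have hTN : 0 < TN := by rw [TN_eq]; exact pow_pos T_pos _
    rw [Nat.shiftRight_eq_div_pow, NP_mul_NP]
    change (lowPart c c' + TN * highPart c c') / TN = highPart c c'
    rw [Nat.add_mul_div_left _ _ hTN, Nat.div_eq_of_lt (lowPart_lt c c' h), zero_add]
  have hT1 : T - 1 = 5192296858534827628530496329220095 := by unfold T; norm_num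
  rw [h1]
  change highPart c c' % 5192296858534827628530496329220095 = drop c c'
  rw [← hT1]
  have h2 : highPart c c' % (T - 1) = drop c c' % (T - 1) := highPart_modEq c c'
  rw [h2]
  apply Nat.mod_eq_of_lt
  refine lt_of_le_of_lt (drop_le c c') (lt_of_lt_of_le h ?_)
  rw [hT1]
  norm_num

end Pool.Agent.SB19
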