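import Pool.Agent.SB19.Defs

/-!
# SB19/SExp: the scalar exponential

`sexp a` approximates `2 ^ 40 * exp ((a - 64 L) / 2 ^ 40)`, `L = 762123384786` (about `2 ^ 40 log 2`).
With `m = a / L`, `r = a % L`: `exp ((a - 64 L) / S) = exp ((m - 64) L / S) * exp (r / S)`.
1. `|L / S - log 2| ≤ 1.01e-10` (`Real.log_two_near_10`: `|log 2 - 287209 / 414355| ≤ 1 / 10 ^ 10`); so
   `exp ((m - 64) L / S) = 2 ^ (m - 64) * exp η` with `|η| ≤ 60 * 1.01e-10 ≤ 6.1e-9` (here `|m - 64| ≤ 60`).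
2. Horner: `hexp r n j` approximates `2 ^ 50 * ∑ i ≤ n, (r / S) ^ i * (j - 1)! / (j - 1 + i)!` from below: each step
   rounds down by less than `1`, and the factor `r / (S j) ≤ 1` does not amplify, so the total error of `hexp r 12 1` is
   less than `12`. The remainder `∑ i > 12, (r / S) ^ i / i!` with `r / S ≤ 0.694` is at most `2e-12`
   (`Real.exp_bound'`).
3. Final shift: `⌊ hexp * 2 ^ m / 2 ^ 74 ⌋`: error less than `1`.
The total relative error is less than `2 ^ (-26)` (about `1.49e-8`), the absolute error allowed is `E / 2 ^ 26 + 4`, where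
`E / 2 ^ 26` is rounded down.
-/

set_option autoImplicit false

namespace Pool.Agent.SB19

/-- the real Horner scheme -/
private noncomputable def sx (x : ℝ) : ℕ → ℕ → ℝ
  | 0, _ => 1
  | n + 1, j => 1 + x / j * sx x n (j + 1)

private theorem hexp_zero' (r j : ℕ) : hexp r 0 j = 1125899906842624 := rfl

private theorem hexp_succ' (r n j : ℕ) :
    hexp r (n + 1) j = 1125899906842624 + r * hexp r n (j + 1) / (1099511627776 * j) := rfl

private theorem hexp_err {r : ℕ} (hr : r ≤ 1099511627776) (n : ℕ) : ∀ j : ℕ, 1 ≤ j →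
    (hexp r n j : ℝ) ≤ 1125899906842624 * sx ((r : ℝ) / 1099511627776) n j ∧
    1125899906842624 * sx ((r : ℝ) / 1099511627776) n j ≤ hexp r n j + n := by
  induction n with
  | zero =>
    intro j _
    rw [hexp_zero']
    simp only [sx]
    constructor <;> norm_num
  | succ n ih =>
    intro j hj
    obtain ⟨h1, h2⟩ := ih (j + 1) (by omega)
    have hj' : (1 : ℝ) ≤ j := by exact_mod_cast hj
    have hj0 : (0 : ℝ) < j := by linarith
    have hr' : (r : ℝ) ≤ 1099511627776 := by exact_mod_cast hr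
    have hr0 : (0 : ℝ) ≤ r := Nat.cast_nonneg r
    rw [hexp_succ']
    obtain ⟨A, hA⟩ : ∃ A, A = r * hexp r n (j + 1) := ⟨_, rfl⟩
    obtain ⟨B, hB⟩ : ∃ B, B = 1099511627776 * j := ⟨_, rfl⟩
    rw [← hA, ← hB]
    have hBpos : 0 < B := by rw [hB]; omega
    have hBr : (0 : ℝ) < B := by exact_mod_cast hBpos
    have e1 : ((A / B : ℕ) : ℝ) ≤ (A : ℝ) / B := Nat.cast_div_le
    have e2 : (A : ℝ) / B < ((A / B : ℕ) : ℝ) + 1 := by
      rw [div_lt_iff₀ hBr]
      have h3 : ((A : ℕ) : ℝ) < ((B * (A / B + 1) : ℕ) : ℝ) := by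
        exact_mod_cast Nat.lt_mul_div_succ A hBpos
      rw [Nat.cast_mul, Nat.cast_add, Nat.cast_one] at h3
      linarith
    have e3 : (A : ℝ) / B = (r : ℝ) / 1099511627776 / j * hexp r n (j + 1) := by
      rw [hA, hB]
      push_cast
      field_simp
    rw [e3] at e1 e2
    obtain ⟨y, hy⟩ : ∃ y, y = (r : ℝ) / 1099511627776 / j := ⟨_, rfl⟩
    have hx0 : 0 ≤ y := by rw [hy]; positivity
    have hx1 : y ≤ 1 := by
      rw [hy, div_div, div_le_one (by positivity)]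
      nlinarith
    have hs : sx ((r : ℝ) / 1099511627776) (n + 1) j =
        1 + y * sx ((r : ℝ) / 1099511627776) n (j + 1) := by
      rw [hy]
      rfl
    rw [hs]
    rw [← hy] at e1 e2
    have m1 := mul_le_mul_of_nonneg_left h1 hx0
    have m2 := mul_le_mul_of_nonneg_left h2 hx0
    have m3 : y * n ≤ n := mul_le_of_le_one_left (Nat.cast_nonneg n) hx1
    rw [Nat.cast_add, Nat.cast_add (R := ℝ) n 1, Nat.cast_one]
    generalize ((A / B : ℕ) : ℝ) = D at *
    constructor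
    · push_cast
      linarith
    · push_cast
      linarith

private theorem sx_eq (x : ℝ) : sx x 12 1 = ∑ i ∈ Finset.range 13, x ^ i / (i.factorial : ℝ) := by
  simp only [sx, Finset.sum_range_succ, Finset.sum_range_zero, Nat.factorial]
  push_cast
  ring

private theorem log2_near : |(762123384786 : ℝ) / 1099511627776 - Real.log 2| ≤ 103 / 10 ^ 12 := by
  have h := abs_le.1 Real.log_two_near_10
  rw [abs_le]
  constructor
  · have h1 : (762123384786 : ℝ) / 1099511627776 - 287209 / 414355 ≥ -3 / 10 ^ 12 := by norm_num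
    have h2 := h.2
    norm_num at h1 h2 ⊢
    linarith
  · have h1 : (762123384786 : ℝ) / 1099511627776 - 287209 / 414355 ≤ 3 / 10 ^ 12 := by norm_num
    have h2 := h.1
    norm_num at h1 h2 ⊢
    linarith

private theorem exp_log2 (m : ℕ) : Real.exp ((m : ℝ) * Real.log 2) = 2 ^ m := by
  rw [Real.exp_nat_mul, Real.exp_log (by norm_num)]

/-- `c` is the argument scaled by `S`; `|c| ≤ 40 S`. -/
theorem sexp_spec (c : ℤ) (h : |c| ≤ 43980465111040) :
    |(S : ℝ) * Real.exp ((c : ℝ) / (S : ℝ)) - (sexp (c + 48775896626304).toNat : ℝ)| ≤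
      ((Nat.add (Nat.shiftRight (sexp (c + 48775896626304).toNat) 26) 4 : ℕ) : ℝ) := by
  obtain ⟨a, ha⟩ : ∃ a : ℕ, a = (c + 48775896626304).toNat := ⟨_, rfl⟩
  rw [← ha]
  have hc := abs_le.1 h
  have ha' : (a : ℤ) = c + 48775896626304 := by
    rw [ha]
    exact Int.toNat_of_nonneg (by omega)
  obtain ⟨m, hm⟩ : ∃ m, m = a / 762123384786 := ⟨_, rfl⟩
  obtain ⟨r, hr⟩ : ∃ r, r = a % 762123384786 := ⟨_, rfl⟩
  have hmr : a = 762123384786 * m + r := by
    rw [hm, hr]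
    exact (Nat.div_add_mod a _).symm
  have hrl : r < 762123384786 := by
    rw [hr]
    exact Nat.mod_lt _ (by norm_num)
  have hm1 : 6 ≤ m := by omega
  have hm2 : m ≤ 121 := by omega
  obtain ⟨H, hH⟩ : ∃ H, H = hexp r 12 1 := ⟨_, rfl⟩
  obtain ⟨V, hV⟩ : ∃ V, V = sexp a := ⟨_, rfl⟩
  rw [← hV]
  have hs : V = H * 2 ^ m / 2 ^ 74 := by
    rw [hV, hH, hr, hm, ← Nat.shiftLeft_eq, ← Nat.shiftRight_eq_div_pow]
    rfl
  have hS : (S : ℝ) = 1099511627776 := by
    unfold S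
    norm_num
  have hg : ((Nat.add (Nat.shiftRight V 26) 4 : ℕ) : ℝ) = ((V / 2 ^ 26 : ℕ) : ℝ) + 4 := by
    have : Nat.add (Nat.shiftRight V 26) 4 = V / 2 ^ 26 + 4 := by
      rw [← Nat.shiftRight_eq_div_pow]
      rfl
    rw [this, Nat.cast_add]
    norm_num
  rw [hg, hS]
  -- the rounding of the final value
  obtain ⟨q, hq⟩ : ∃ q : ℝ, q = 2 ^ m / 2 ^ 74 := ⟨_, rfl⟩
  have hq0 : 0 < q := by rw [hq]; positivity
  have hfl : ∀ n b : ℕ, 0 < b → ((n / b : ℕ) : ℝ) ≤ (n : ℝ) / b ∧ (n : ℝ) / b < ((n / b : ℕ) : ℝ) + 1 := by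
    intro n b hb
    refine ⟨Nat.cast_div_le, ?_⟩
    rw [div_lt_iff₀ (by exact_mod_cast hb)]
    have h3 : ((n : ℕ) : ℝ) < ((b * (n / b + 1) : ℕ) : ℝ) := by
      exact_mod_cast Nat.lt_mul_div_succ n hb
    rw [Nat.cast_mul, Nat.cast_add, Nat.cast_one] at h3
    linarith
  have hV12 := hfl (H * 2 ^ m) (2 ^ 74) (by norm_num)
  rw [← hs] at hV12
  have hA : ((H * 2 ^ m : ℕ) : ℝ) / ((2 ^ 74 : ℕ) : ℝ) = H * q := by
    rw [hq]
    push_cast
    ring
  rw [hA] at hV12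
  have hF := hfl V (2 ^ 26) (by norm_num)
  have hF' : (V : ℝ) / ((2 ^ 26 : ℕ) : ℝ) = V / 67108864 := by norm_num
  rw [hF'] at hF
  -- the Taylor polynomial
  obtain ⟨x, hx⟩ : ∃ x : ℝ, x = (r : ℝ) / 1099511627776 := ⟨_, rfl⟩
  have hx0 : 0 ≤ x := by rw [hx]; positivity
  have hx1 : x ≤ 694 / 1000 := by
    rw [hx, div_le_iff₀ (by norm_num)]
    have : (r : ℝ) ≤ 762123384786 := by exact_mod_cast hrl.le
    norm_num
    linarith
  obtain ⟨g1, g2⟩ := hexp_err (r := r) (by omega) 12 1 le_rfl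
  rw [← hx, ← hH, sx_eq] at g1 g2
  have g3 := Real.sum_le_exp_of_nonneg hx0 13
  have g4 := Real.exp_bound' hx0 (by linarith) (n := 13) (by norm_num)
  have g5 : x ^ 13 * (((13 : ℕ) : ℝ) + 1) / ((Nat.factorial 13 : ℕ) * ((13 : ℕ) : ℝ)) ≤ 17 / 10 ^ 13 := by
    have : x ^ 13 ≤ (694 / 1000) ^ 13 := pow_le_pow_left₀ hx0 hx1 13
    rw [div_le_iff₀ (by positivity)]
    simp only [Nat.factorial]
    push_cast
    norm_num at this ⊢
    linarith
  have hHK : (1125899906842624 : ℝ) ≤ H := by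
    have : 1125899906842624 ≤ H := by
      rw [hH, hexp_succ']
      exact Nat.le_add_right _ _
    exact_mod_cast this
  obtain ⟨G, hG⟩ : ∃ G : ℝ, G = 1125899906842624 * Real.exp x := ⟨_, rfl⟩
  have G1 : (H : ℝ) ≤ G := by rw [hG]; linarith
  have G2 : G ≤ H * (1 + 2 / 10 ^ 12) := by
    rw [hG]
    have g6 : ((12 : ℕ) : ℝ) = 12 := by norm_num
    rw [g6] at g2
    norm_num at g5 ⊢
    linarith
  -- the power of two
  obtain ⟨η, hη⟩ : ∃ η : ℝ, η = ((m : ℝ) - 64) * ((762123384786 : ℝ) / 1099511627776 - Real.log 2) :=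
    ⟨_, rfl⟩
  have hη1 : |η| ≤ 60 / 10 ^ 10 := by
    rw [hη, abs_mul]
    have k1 : |(m : ℝ) - 64| ≤ 58 := by
      rw [abs_le]
      have : (6 : ℝ) ≤ m := by exact_mod_cast hm1
      have : (m : ℝ) ≤ 121 := by exact_mod_cast hm2
      constructor <;> linarith
    have := mul_le_mul k1 log2_near (abs_nonneg _) (by norm_num)
    norm_num at this ⊢
    linarith
  have hexp1 := Real.abs_exp_sub_one_le (x := η) (by norm_num at hη1 ⊢; linarith)
  have hE1 := abs_le.1 hexp1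
  have hmain : (1099511627776 : ℝ) * Real.exp ((c : ℝ) / 1099511627776) = G * q * Real.exp η := by
    have k1 : (c : ℝ) / 1099511627776 = (m : ℝ) * Real.log 2 - (64 : ℕ) * Real.log 2 + x + η := by
      have k2 : (c : ℝ) = 762123384786 * (m : ℝ) + r - 48775896626304 := by
        have k3 : c = 762123384786 * (m : ℤ) + (r : ℤ) - 48775896626304 := by omega
        rw [k3]
        push_cast
        ring
      rw [k2, hx, hη]
      push_cast
      ring
    rw [k1, Real.exp_add, Real.exp_add, Real.exp_sub, exp_log2, exp_log2, hG, hq]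
    norm_num
    ring
  rw [hmain]
  have hGq1 : (H : ℝ) * q ≤ G * q := mul_le_mul_of_nonneg_right G1 hq0.le
  have hGq2 : G * q ≤ (H : ℝ) * q * (1 + 2 / 10 ^ 12) := by
    have := mul_le_mul_of_nonneg_right G2 hq0.le
    linarith
  obtain ⟨A, hA'⟩ : ∃ A : ℝ, A = (H : ℝ) * q := ⟨_, rfl⟩
  obtain ⟨W, hW⟩ : ∃ W : ℝ, W = G * q := ⟨_, rfl⟩
  rw [← hA'] at hGq1 hGq2 hV12
  rw [← hW] at hGq1 hGq2 ⊢
  have hA0 : 0 ≤ A := by rw [hA']; positivity
  have hV0 : (0 : ℝ) ≤ V := Nat.cast_nonneg V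
  have hW0 : 0 ≤ W := hA0.trans hGq1
  have b1 : W * Real.exp η ≤ W * (1 + 120 / 10 ^ 10) := by
    apply mul_le_mul_of_nonneg_left _ hW0
    norm_num at hη1 ⊢
    linarith [hE1.2]
  have b2 : W * (1 - 120 / 10 ^ 10) ≤ W * Real.exp η := by
    apply mul_le_mul_of_nonneg_left _ hW0
    norm_num at hη1 ⊢
    linarith [hE1.1]
  rw [abs_le]
  norm_num at b1 b2 hGq1 hGq2
  constructor
  · linarith [hV12.1, hV12.2, hF.1, hF.2]
  · linarith [hV12.1, hV12.2, hF.1, hF.2]

end Pool.Agent.SB19
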