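import Pool.Agent.SB19.MulSound
import Pool.Agent.SB19.LinSound
import Pool.Agent.SB19.SExp

/-!
# SB19/ExpSound: soundness of the exponential

`f = A + δ`, `A = c0 / S`, `S |δ| ≤ rho ≤ S` (`split_sound`); `exp f = exp A * exp δ`;
`|exp δ - (1 + δ + δ² / 2 + δ³ / 6 + δ⁴ / 24)| ≤ |δ| ^ 5 / 100` for `|δ| ≤ 1` (`Real.exp_bound` with `n = 5`:
`6 / (120 * 5) = 1 / 100`), and `S |δ| ^ 5 ≤ mup (mup (mup rho rho) (mup rho rho)) rho` (`le_mup` three times);
`exp3` is `1 + δ (1 + (δ (1 + (δ (1 + δ / 4)) / 3)) / 2)`. Then `sclN_sound` with `l = exp A` and `sexp_spec`.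
-/

set_option autoImplicit false

namespace Pool.Agent.SB19

/-- `S |δ| ^ 5` is bounded by the iterated `mup`. -/
theorem pow5_le {rho : ℕ} {d : ℝ} (hd : 0 ≤ d) (h : (S : ℝ) * d ≤ (rho : ℝ)) :
    (S : ℝ) * d ^ 5 ≤ (mup (mup (mup rho rho) (mup rho rho)) rho : ℝ) := by
  have hS : (0 : ℝ) < (S : ℝ) := by exact_mod_cast S_pos
  have key : ∀ (a b : ℕ) (x y : ℝ), 0 ≤ x → 0 ≤ y → (S : ℝ) * x ≤ (a : ℝ) → (S : ℝ) * y ≤ (b : ℝ) →
      (S : ℝ) * (x * y) ≤ (mup a b : ℝ) := by
    intro a b x y hx hy hxa hyb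
    refine le_trans ?_ (le_mup a b)
    rw [le_div_iff₀ hS]
    calc (S : ℝ) * (x * y) * (S : ℝ) = ((S : ℝ) * x) * ((S : ℝ) * y) := by ring
      _ ≤ (a : ℝ) * (b : ℝ) := by
        apply mul_le_mul hxa hyb (by positivity)
        exact le_trans (by positivity) hxa
  have h2 := key rho rho d d hd hd h h
  have h4 := key _ _ (d * d) (d * d) (by positivity) (by positivity) h2 h2
  have h5 := key _ _ (d * d * (d * d)) d (by positivity) hd h4 h
  calc (S : ℝ) * d ^ 5 = (S : ℝ) * (d * d * (d * d) * d) := by ring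
    _ ≤ _ := h5

/-- The Taylor polynomial. -/
theorem exp_poly_bound {d : ℝ} (hd : |d| ≤ 1) :
    |Real.exp d - (1 + d * (1 + (d * (1 + (d * (1 + d / 4)) / 3)) / 2))| ≤ |d| ^ 5 / 100 := by
  have h := Real.exp_bound hd (n := 5) (by norm_num)
  have e1 : ∑ m ∈ Finset.range 5, d ^ m / (m.factorial : ℝ) =
      1 + d * (1 + (d * (1 + (d * (1 + d / 4)) / 3)) / 2) := by
    simp only [Finset.sum_range_succ, Finset.sum_range_zero, Nat.factorial]
    push_cast
    ring
  rw [e1] at h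
  refine le_trans h (le_of_eq ?_)
  simp only [Nat.factorial]
  push_cast
  ring

/-- The polynomial part. -/
theorem exp3_sound {x : R} {f : (ℕ → ℝ) → ℝ} (hx : Rep x f) {rho E eE : ℕ} {l : ℝ} (hl : 0 ≤ l)
    (hE : |(S : ℝ) * l - (E : ℝ)| ≤ (eE : ℝ)) (hrho : rho ≤ S)
    (h : ∀ ε, Cube ε → (S : ℝ) * |f ε| ≤ (rho : ℝ)) :
    Rep (exp3 E eE (mup (mup (mup rho rho) (mup rho rho)) rho) x) (fun ε => l * Real.exp (f ε)) := by
  have hS : (0 : ℝ) < (S : ℝ) := by exact_mod_cast S_pos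
  have p1 := addR_sound oneR_sound (divR_sound 4 (by norm_num) hx)
  have p2 := addR_sound oneR_sound (divR_sound 3 (by norm_num) (mulR_sound hx p1))
  have p3 := addR_sound oneR_sound (divR_sound 2 (by norm_num) (mulR_sound hx p2))
  have p4 := addR_sound oneR_sound (mulR_sound hx p3)
  unfold exp3
  refine sclN_sound E eE l hl hE (errR_sound _ p4 ?_)
  intro ε hε
  have hd := h ε hε
  have hd1 : |f ε| ≤ 1 := by
    by_contra hcon
    push Not at hcon
    have h1 : (rho : ℝ) ≤ (S : ℝ) := by exact_mod_cast hrho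
    nlinarith
  have hb := exp_poly_bound hd1
  have h5 := pow5_le (abs_nonneg (f ε)) hd
  have e2 : (S : ℝ) * Real.exp (f ε) - (S : ℝ) *
      (1 + f ε * (1 + f ε * (1 + f ε * (1 + f ε / ((4 : ℕ) : ℝ)) / ((3 : ℕ) : ℝ)) / ((2 : ℕ) : ℝ))) =
      (S : ℝ) * (Real.exp (f ε) - (1 + f ε * (1 + (f ε * (1 + (f ε * (1 + f ε / 4)) / 3)) / 2))) := by
    push_cast
    ring
  rw [e2, abs_mul, abs_of_pos hS]
  have h6 : (S : ℝ) * |Real.exp (f ε) - (1 + f ε * (1 + (f ε * (1 + (f ε * (1 + f ε / 4)) / 3)) / 2))| ≤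
      (mup (mup (mup rho rho) (mup rho rho)) rho : ℝ) / 100 := by
    calc (S : ℝ) * |Real.exp (f ε) - (1 + f ε * (1 + (f ε * (1 + (f ε * (1 + f ε / 4)) / 3)) / 2))|
        ≤ (S : ℝ) * (|f ε| ^ 5 / 100) := by gcongr
      _ = ((S : ℝ) * |f ε| ^ 5) / 100 := by ring
      _ ≤ _ := by gcongr
  refine le_trans h6 ?_
  generalize mup (mup (mup rho rho) (mup rho rho)) rho = r5
  show (r5 : ℝ) / 100 ≤ ((r5 / 100 + 1 : ℕ) : ℝ)
  rw [div_le_iff₀ (by norm_num)]
  have : r5 ≤ (r5 / 100 + 1) * 100 := by omega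
  exact_mod_cast this

private theorem nsub_eq (a b : ℕ) : Nat.sub a b = a - b := rfl
private theorem nadd_eq (a b : ℕ) : Nat.add a b = a + b := rfl

private theorem exp1_eq {P b e a rho : ℕ} (h1 : rho ≤ 1099511627776) (h2 : b ≤ 43980465111040) :
    exp1 P b e a rho = exp2 P b e a rho
      (sexp (Nat.sub (Nat.add a (nat_lit 48775896626304)) (nat_lit 2596148429267413814265248164610048))) := by
  have e1 : Nat.ble rho (nat_lit 1099511627776) = true := Nat.ble_eq_true_of_le h1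
  have e2 : Nat.ble b (nat_lit 43980465111040) = true := Nat.ble_eq_true_of_le h2
  unfold exp1
  rw [e1, e2, cond_true, cond_true]

private theorem exp2_eq {P b e a rho E : ℕ} :
    exp2 P b e a rho E = exp3 E (Nat.add (Nat.shiftRight E (nat_lit 26)) (nat_lit 4))
    (mup (mup (mup rho rho) (mup rho rho)) rho)
    (.ok (P + (nat_lit 2596148429267413814265248164610048) - a) b e) := by
  unfold exp2
  rw [nsub_eq, nadd_eq P]

private theorem arg_eq {a : ℕ} {c0 : ℤ} (ha : (a : ℤ) = c0 + (H : ℤ)) (hc0' : |c0| ≤ 43980465111040) :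
    Nat.sub (Nat.add a (nat_lit 48775896626304)) (nat_lit 2596148429267413814265248164610048) =
          (c0 + 48775896626304).toNat := by
  rw [nsub_eq, nadd_eq]
  have hH : (H : ℤ) = 2596148429267413814265248164610048 := by unfold H; norm_num
  rw [hH] at ha
  rw [abs_le] at hc0'
  have key : ∀ x y : ℕ, x = 48775896626304 → y = 2596148429267413814265248164610048 →
      a + x - y = (c0 + 48775896626304).toNat := by
    intro x y hx hy
    subst hx hy
    omega
  exact key _ _ rfl rfl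

/-- The body of the exponential, with all data as variables. -/
theorem exp1_sound {P b e a rho : ℕ} {f : (ℕ → ℝ) → ℝ} {c0 : ℤ} (hb : b ≤ 43980465111040)
    (ha : (a : ℤ) = c0 + (H : ℤ)) (hc0b : c0.natAbs ≤ b)
    (hrep : Rep (.ok (P + 2596148429267413814265248164610048 - a) b e) (fun ε => f ε - (c0 : ℝ) / (S : ℝ)))
    (habs : ∀ ε, Cube ε → (S : ℝ) * |f ε - (c0 : ℝ) / (S : ℝ)| ≤ (rho : ℝ)) :
    Rep (exp1 P b e a rho) (fun ε => Real.exp (f ε)) := by
  by_cases h1 : rho ≤ 1099511627776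
  · have hc0' : |c0| ≤ 43980465111040 := by
      rw [Int.abs_eq_natAbs]
      exact_mod_cast le_trans hc0b hb
    rw [exp1_eq h1 hb, arg_eq ha hc0', exp2_eq]
    have hs := sexp_spec c0 hc0'
    generalize (sexp (c0 + 48775896626304).toNat) = E at hs ⊢
    have hrho : rho ≤ S := le_trans h1 (by unfold S; norm_num)
    have h3 := exp3_sound hrep (Real.exp_pos ((c0 : ℝ) / (S : ℝ))).le hs hrho habs
    refine Rep.congr h3 ?_
    intro ε _
    rw [← Real.exp_add, add_sub_cancel]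
  · have h2 : exp1 P b e a rho = R.bad := by
      unfold exp1
      cases h1' : Nat.ble rho (nat_lit 1099511627776) with
      | false => rfl
      | true => exact absurd (Nat.le_of_ble_eq_true h1') h1
    rw [h2]
    trivial

theorem exp1_bad {P b e a rho : ℕ} (hb : ¬ b ≤ 43980465111040) : exp1 P b e a rho = R.bad := by
  unfold exp1
  cases h1 : Nat.ble rho 1099511627776 with
  | false => rfl
  | true =>
    cases h2 : Nat.ble b 43980465111040 with
    | false => rfl
    | true => exact absurd (Nat.le_of_ble_eq_true h2) hb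

theorem expR_ok (P b e : ℕ) : expR (.ok P b e) = exp1 P b e (c0b P) (tot (nrm P) - nz (nrm P) + e) := by
  have h0 : ∀ t z : ℕ, Nat.add (Nat.sub t z) e = t - z + e := fun _ _ => rfl
  have h1 : expR (.ok P b e) = exp1 P b e (c0b P) (Nat.add (Nat.sub (tot (nrm P)) (nz (nrm P))) e) := rfl
  rw [h1, h0]

theorem expR_sound {x : R} {f : (ℕ → ℝ) → ℝ} (hx : Rep x f) : Rep (expR x) (fun ε => Real.exp (f ε)) := by
  cases x with
  | bad => trivial
  | ok P b e =>
    rw [expR_ok]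
    by_cases hb : b ≤ 43980465111040
    · obtain ⟨c0, hc0, hc0b, hrep, -, -, habs⟩ := split_sound hx (le_trans hb (by norm_num))
      exact exp1_sound hb hc0 hc0b hrep habs
    · rw [exp1_bad hb]
      trivial

end Pool.Agent.SB19
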