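import Pool.Agent.SB19.Sem

/-!
# SB19/ValMul: the product of two values

`val c ε * val c' ε = ∑ i j, c i c' j mon i mon j` (`i, j < 105`); only used `i, j` matter. For `i + j < 105` the term is
`c i c' j mon (i + j)` (`mon_add`), and the sum of these is `val (conv c c') ε` (group by `k = i + j`, as in `code_conv`).
For `105 ≤ i + j` the term is at most `|c i| |c' j|` and `5 ≤ gr i + gr j` (`used_high`); the sum of `|c i| |c' j|` over all
pairs with `5 ≤ gr i + gr j` is `drop c c'` (write `i = 21 g + j`, `Finset.sum` over `range 105` as a double sum over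
`range 5` and `range 21`; `gr (21 g + j) = g`).
-/

set_option autoImplicit false

namespace Pool.Agent.SB19

private theorem sum_blocks (F : ℕ → ℕ) (n : ℕ) :
    ∑ i ∈ Finset.range (21 * n), F i = ∑ g ∈ Finset.range n, ∑ j ∈ Finset.range 21, F (21 * g + j) := by
  induction n with
  | zero => simp
  | succ n ih =>
    rw [Nat.mul_succ, Finset.sum_range_add, ih, Finset.sum_range_succ (n := n)]

private theorem gr_block {g j : ℕ} (hj : j < 21) : gr (21 * g + j) = g := by
  unfold gr
  omega

private theorem drop_eq (c c' : ℕ → ℤ) :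
    drop c c' = ∑ i ∈ Finset.range 105, ∑ j ∈ Finset.range 105,
      if 5 ≤ gr i + gr j then (c i).natAbs * (c' j).natAbs else 0 := by
  have h105 : (105 : ℕ) = 21 * 5 := rfl
  rw [h105, sum_blocks]
  unfold drop
  refine Finset.sum_congr rfl fun g _ => ?_
  have h1 : ∀ a ∈ Finset.range 21, (∑ j ∈ Finset.range (21 * 5),
      if 5 ≤ gr (21 * g + a) + gr j then (c (21 * g + a)).natAbs * (c' j).natAbs else 0) =
      ∑ g' ∈ Finset.range 5, ∑ b ∈ Finset.range 21,
        if 5 ≤ g + g' then (c (21 * g + a)).natAbs * (c' (21 * g' + b)).natAbs else 0 := by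
    intro a ha
    rw [sum_blocks]
    refine Finset.sum_congr rfl fun g' _ => Finset.sum_congr rfl fun b hb => ?_
    rw [gr_block (Finset.mem_range.1 ha), gr_block (Finset.mem_range.1 hb)]
  rw [Finset.sum_congr rfl h1, Finset.sum_comm]
  refine Finset.sum_congr rfl fun g' _ => ?_
  split_ifs with h
  · unfold NG
    rw [Finset.sum_mul_sum]
  · simp

theorem val_mul {c c' : ℕ → ℤ} (hc : Supp c) (hc' : Supp c') {ε : ℕ → ℝ} (hε : Cube ε) :
    |val c ε * val c' ε - val (conv c c') ε| ≤ (drop c c' : ℝ) := by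
  have e1 : val (conv c c') ε = ∑ i ∈ Finset.range 105, ∑ j ∈ Finset.range (105 - i),
      ((c i : ℝ) * (c' j : ℝ)) * mon ε (i + j) := by
    rw [← Finset.sum_range_diag_flip 105 (fun i j => ((c i : ℝ) * (c' j : ℝ)) * mon ε (i + j))]
    unfold val
    refine Finset.sum_congr rfl fun k hk => ?_
    have hk' : k < 105 := Finset.mem_range.1 hk
    unfold conv
    rw [if_pos hk']
    push_cast
    rw [Finset.sum_mul]
    refine Finset.sum_congr rfl fun i hi => ?_
    have hi' : i ≤ k := Nat.lt_succ_iff.1 (Finset.mem_range.1 hi)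
    rw [Nat.add_sub_cancel' hi']
  have e2 : val c ε * val c' ε = ∑ i ∈ Finset.range 105, ∑ j ∈ Finset.range 105,
      ((c i : ℝ) * (c' j : ℝ)) * (mon ε i * mon ε j) := by
    unfold val
    rw [Finset.sum_mul_sum]
    refine Finset.sum_congr rfl fun i _ => Finset.sum_congr rfl fun j _ => ?_
    ring
  have e3 : (drop c c' : ℝ) = ∑ i ∈ Finset.range 105, ∑ j ∈ Finset.range 105,
      if 5 ≤ gr i + gr j then |(c i : ℝ)| * |(c' j : ℝ)| else 0 := by
    rw [drop_eq]
    push_cast
    refine Finset.sum_congr rfl fun i _ => Finset.sum_congr rfl fun j _ => ?_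
    split_ifs
    · rw [Nat.cast_natAbs, Nat.cast_natAbs, Int.cast_abs, Int.cast_abs]
    · rfl
  rw [e1, e2, e3, ← Finset.sum_sub_distrib]
  refine (Finset.abs_sum_le_sum_abs _ _).trans (Finset.sum_le_sum fun i hi => ?_)
  have hi' : i < 105 := Finset.mem_range.1 hi
  have e4 : ∑ j ∈ Finset.range (105 - i), ((c i : ℝ) * (c' j : ℝ)) * mon ε (i + j) =
      ∑ j ∈ Finset.range 105, if i + j < 105 then ((c i : ℝ) * (c' j : ℝ)) * mon ε (i + j) else 0 := by
    rw [← Finset.sum_filter]
    refine Finset.sum_congr ?_ fun _ _ => rfl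
    ext j
    simp only [Finset.mem_range, Finset.mem_filter]
    omega
  rw [e4, ← Finset.sum_sub_distrib]
  refine (Finset.abs_sum_le_sum_abs _ _).trans (Finset.sum_le_sum fun j hj => ?_)
  have hj' : j < 105 := Finset.mem_range.1 hj
  by_cases hui : used i
  swap
  · rw [hc i hui]
    simp
  by_cases huj : used j
  swap
  · rw [hc' j huj]
    simp
  by_cases hij : i + j < 105
  · rw [if_pos hij, mon_add hui huj hij, sub_self, abs_zero]
    split_ifs
    · positivity
    · exact le_rfl
  · rw [if_neg hij, sub_zero, if_pos (used_high hui huj (not_lt.1 hij)), abs_mul, abs_mul, abs_mul]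
    have h1 := abs_mon_le hε i
    have h2 := abs_mon_le hε j
    have h3 : |mon ε i| * |mon ε j| ≤ 1 := mul_le_one₀ h1 (abs_nonneg _) h2
    exact mul_le_of_le_one_right (mul_nonneg (abs_nonneg _) (abs_nonneg _)) h3

end Pool.Agent.SB19
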