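import Pool.Agent.SB19.Nrm
import Pool.Agent.SB19.Tot
import Pool.Agent.SB19.Drop
import Pool.Agent.SB19.Conv
import Pool.Agent.SB19.Resc
import Pool.Agent.SB19.ValBd
import Pool.Agent.SB19.ValMul

/-!
# SB19/MulSound: soundness of `mulR`

Both arguments `ok` (otherwise trivial); `nrm P = NP c`, `nrm P' = NP c'` (`nrm_spec`; if the check fails the result is
`bad`, if it succeeds `b, b' ≤ 2 ^ 105`; as the check uses `nrm`, first deal with the case `b ≤ 2 ^ 105` and
`b' ≤ 2 ^ 105` (otherwise the check fails whatever the norms are)). New coefficients: `fun k => conv c c' k / S`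
(`Supp`: `0 / S = 0`). Code: `Int.ModEq.mul`, `code_conv`, `resc_spec`. Error: with `V = val c ε`, `E = S f - V`,
`V' = val c' ε`, `E' = S g - V'`: `S f g = (V + E) (V' + E') / S`, `|V| ≤ NT c`, `|V'| ≤ NT c'`, `val_mul`, `val_div`:
`|S f g - val (...)| ≤ (drop + NT c * e' + e * NT c' + e * e') / S + 35 ≤ ⌊(...) / S⌋ + 36`.
-/

set_option autoImplicit false

namespace Pool.Agent.SB19

private theorem ms_shr (x : ℕ) : Nat.shiftRight x (nat_lit 40) = x / S := Nat.shiftRight_eq_div_pow x 40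

private theorem ms_S_pos : (0 : ℝ) < (S : ℝ) := by exact_mod_cast S_pos

private theorem ms_div_le (x : ℕ) : (x : ℝ) / (S : ℝ) ≤ ((x / S : ℕ) : ℝ) + 1 := by
  rw [div_le_iff₀ ms_S_pos]
  have h : x < (x / S + 1) * S := by
    rw [mul_comm]
    exact Nat.lt_mul_div_succ x S_pos
  have h' : (x : ℝ) < (((x / S + 1) * S : ℕ) : ℝ) := by exact_mod_cast h
  push_cast at h'
  exact h'.le

/-- Error of the product. -/
private theorem ms_err {P b e P' b' e' : ℕ} {f g : (ℕ → ℝ) → ℝ} {c c' : ℕ → ℤ} (hc : Good P b e f c)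
    (hc' : Good P' b' e' g c') {ε : ℕ → ℝ} (hε : Cube ε) :
    |(S : ℝ) * (f ε * g ε) - val (conv c c') ε / (S : ℝ)| ≤
      ((drop c c' + (e * (NT c' + e') + e' * NT c) : ℕ) : ℝ) / (S : ℝ) := by
  have h1 := hc.err ε hε
  have h2 := hc'.err ε hε
  have h3 := abs_val_le c hε
  have h4 := abs_val_le c' hε
  have h5 := val_mul hc.supp hc'.supp hε
  have hS := ms_S_pos
  obtain ⟨V, hV⟩ : ∃ V : ℝ, V = val c ε := ⟨_, rfl⟩
  obtain ⟨V', hV'⟩ : ∃ V' : ℝ, V' = val c' ε := ⟨_, rfl⟩
  obtain ⟨W, hW⟩ : ∃ W : ℝ, W = val (conv c c') ε := ⟨_, rfl⟩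
  rw [← hV] at h1 h3 h5
  rw [← hV'] at h2 h4 h5
  rw [← hW] at h5
  rw [← hW]
  have hg : |(S : ℝ) * g ε| ≤ (NT c' : ℝ) + (e' : ℝ) := by
    calc |(S : ℝ) * g ε| = |V' + ((S : ℝ) * g ε - V')| := by ring_nf
      _ ≤ |V'| + |(S : ℝ) * g ε - V'| := abs_add_le _ _
      _ ≤ _ := add_le_add h4 h2
  have h6 : (S : ℝ) * (f ε * g ε) - W / (S : ℝ) =
      ((V * V' - W) + (((S : ℝ) * f ε - V) * ((S : ℝ) * g ε) + ((S : ℝ) * g ε - V') * V)) / (S : ℝ) := by
    field_simp
    ring
  rw [h6, abs_div, abs_of_pos hS]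
  refine div_le_div_of_nonneg_right ?_ hS.le
  refine (abs_add_le _ _).trans ?_
  push_cast
  refine add_le_add h5 ((abs_add_le _ _).trans ?_)
  rw [abs_mul, abs_mul ((S : ℝ) * g ε - V') V]
  exact add_le_add (mul_le_mul h1 hg (abs_nonneg _) (Nat.cast_nonneg _))
    (mul_le_mul h2 h3 (abs_nonneg _) (Nat.cast_nonneg _))

private theorem ms_main {P b e P' b' e' : ℕ} {f g : (ℕ → ℝ) → ℝ} {c c' : ℕ → ℤ} (hc : Good P b e f c)
    (hc' : Good P' b' e' g c') (hN : NT c * NT c' < 2 ^ 105) :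
    Rep (.ok (resc (P * P')) (NT c * NT c' / S + 1) ((drop c c' + (e * (NT c' + e') + e' * NT c)) / S + 36))
      (fun ε => f ε * g ε) := by
  have hcv : Supp (conv c c') := conv_supp hc.supp hc'.supp
  refine ⟨fun k => conv c c' k / (S : ℤ), ?_, ?_, ?_, ?_⟩
  · intro k hk
    show conv c c' k / (S : ℤ) = 0
    rw [hcv k hk, Int.zero_ediv]
  · intro k
    exact natAbs_ediv_le _ _ (conv_bd c c' k)
  · refine resc_spec (w := conv c c') ?_ ?_
    · intro k
      refine (conv_bd c c' k).trans_lt (hN.trans_le ?_)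
      exact Nat.pow_le_pow_right (by norm_num) (by norm_num)
    · have h1 : ((P * P' : ℕ) : ℤ) ≡ code c * code c' [ZMOD (TN : ℤ)] := by
        rw [Nat.cast_mul]
        exact Int.ModEq.mul hc.cod hc'.cod
      exact h1.trans (code_conv c c')
  · intro ε hε
    have h4 := ms_err hc hc' hε
    have h2 := val_div hcv hε
    have h8 := ms_div_le (drop c c' + (e * (NT c' + e') + e' * NT c))
    have h9 : ∀ x : ℕ, ((x + 36 : ℕ) : ℝ) = (x : ℝ) + 36 := fun x => by norm_num
    rw [h9 ((drop c c' + (e * (NT c' + e') + e' * NT c)) / S)]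
    calc |(S : ℝ) * (f ε * g ε) - val (fun k => conv c c' k / (S : ℤ)) ε|
        = |((S : ℝ) * (f ε * g ε) - val (conv c c') ε / (S : ℝ)) +
          (val (conv c c') ε / (S : ℝ) - val (fun k => conv c c' k / (S : ℤ)) ε)| := by
          congr 1
          ring
      _ ≤ _ := (abs_add_le _ _).trans (add_le_add h4 h2)
      _ ≤ _ := by linarith

theorem mulR_sound {x y : R} {f g : (ℕ → ℝ) → ℝ} (hx : Rep x f) (hy : Rep y g) :
    Rep (mulR x y) (fun ε => f ε * g ε) := by
  cases x with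
  | bad => trivial
  | ok P b e =>
    cases y with
    | bad => trivial
    | ok P' b' e' =>
      obtain ⟨c, hc⟩ := hx
      obtain ⟨c', hc'⟩ := hy
      have hdef : mulR (.ok P b e) (.ok P' b' e') =
          cond (Nat.ble (2 ^ 105) (tot (nrm P) * tot (nrm P') + (b + b'))) R.bad
            (.ok (resc (P * P')) (tot (nrm P) * tot (nrm P') / S + 1)
              ((tot ((nrm P * nrm P') >>> 11760) + (e * (tot (nrm P') + e') + e' * tot (nrm P))) / S + 36)) := by
        rw [← ms_shr, ← ms_shr]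
        rfl
      rw [hdef]
      rcases hb : Nat.ble (2 ^ 105) (tot (nrm P) * tot (nrm P') + (b + b')) with _ | _
      · have hbv : tot (nrm P) * tot (nrm P') + (b + b') < 2 ^ 105 := by
          by_contra hcon
          rw [Nat.ble_eq_true_of_le (not_lt.1 hcon)] at hb
          exact absurd hb (by simp)
        have hb1 : b ≤ 2 ^ 105 := by omega
        have hb2 : b' ≤ 2 ^ 105 := by omega
        have hpow : 35 * 2 ^ 105 < 2 ^ 111 := by norm_num
        have hNT : NT c < 2 ^ 111 := by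
          have h := NT_le hc.supp hc.bd
          omega
        have hNT' : NT c' < 2 ^ 111 := by
          have h := NT_le hc'.supp hc'.bd
          omega
        have hn : nrm P = NP c := nrm_spec hc.supp hc.bd hc.cod hb1
        have hn' : nrm P' = NP c' := nrm_spec hc'.supp hc'.bd hc'.cod hb2
        rw [hn, hn', tot_NP c hNT, tot_NP c' hNT'] at hbv
        have hN : NT c * NT c' < 2 ^ 105 := by omega
        rw [hn, hn', tot_NP c hNT, tot_NP c' hNT', tot_drop c c' hN]
        exact ms_main hc hc' hN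
      · trivial

end Pool.Agent.SB19
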