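import Pool.Agent.SB19.Sem
import Pool.Agent.SB19.Bits

/-!
# SB19/Nrm: the kernel function `nrm` computes the graded norms

Let `D k = (c k + H).toNat` (so `0 < D k < T = 2 ^ 112`, because `|c k| ≤ b ≤ 2 ^ 80 < H = 2 ^ 111`), and let `ones`,
`beta`, `lowm`, `gmask`, `onesB` be the constants of `Defs` (first prove `ones = pk 112 105 (fun _ => 1)`,
`beta = pk 112 105 (fun _ => H)`, `lowm = pk 112 105 (fun _ => H - 1)`,
`gmask = pk 112 105 (fun k => if k % 21 = 0 then T - 1 else 0)`, `onesB = pk 112 21 (fun _ => 1)`, `TN1 = 2 ^ 11760 - 1`;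
all by `decide +kernel` after unfolding, or by the geometric sum).
1. `Nat.land x TN1 = x % 2 ^ 11760` (`Nat.and_two_pow_sub_one_eq_mod`), and `(P + beta) % 2 ^ 11760 = pk 112 105 D`, since
   `P ≡ code c` modulo `TN`, so `P + beta ≡ ∑ (c k + H) T ^ k = pk 112 105 D < 2 ^ 11760`.
2. `(X >>> 111) &&& ones = pk (D k / 2 ^ 111)` by `pk_shift` (`2 ^ (112 - 111) - 1 = 1`), and `D k / 2 ^ 111 = 1` if
   `0 ≤ c k`, `= 0` if `c k < 0`. So `Gn = pk (if c k < 0 then 1 else 0)` (`pk_sub`).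
3. `X &&& lowm = pk (D k &&& (H - 1)) = pk (D k % H)`; xor with `Gn * (H - 1)`: if `0 ≤ c k` the digit is `c k ^^^ 0 = |c k|`,
   if `c k < 0` it is `(H - |c k|) ^^^ (2 ^ 111 - 1) = 2 ^ 111 - 1 - (H - |c k|) = |c k| - 1`
   (prove `x < 2 ^ m → x ^^^ (2 ^ m - 1) = 2 ^ m - 1 - x` by testBit or find it in Mathlib); adding `Gn` gives
   `pk 112 105 (fun k => (c k).natAbs)`.
4. Times `onesB`: `pk 112 105 A * pk 112 21 1 = pk 112 125 E` with `E m = ∑ i < 105 with i ≤ m < i + 21 of A i ≤ NT c`, and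
   `NT c ≤ 35 * b < T` (only 35 digits are used: `used_card`). Shift by `2240 = 112 * 20` (`pk_drop`) and `gmask`
   (`pk_select`): what remains is `∑ g < 5, E (21 g + 20) T ^ (21 g)`, and `E (21 g + 20) = NG c g`.
-/

set_option autoImplicit false

namespace Pool.Agent.SB19

theorem NT_le {c : ℕ → ℤ} {b : ℕ} (hs : Supp c) (hb : ∀ k, (c k).natAbs ≤ b) : NT c ≤ 35 * b := by
  unfold NT
  have h1 : ∑ k ∈ Finset.range 105, (c k).natAbs =
      ∑ k ∈ (Finset.range 105).filter used, (c k).natAbs := by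
    rw [Finset.sum_filter]
    refine Finset.sum_congr rfl fun k _ => ?_
    by_cases hk : used k
    · rw [if_pos hk]
    · rw [if_neg hk, hs k hk, Int.natAbs_zero]
  rw [h1]
  calc ∑ k ∈ (Finset.range 105).filter used, (c k).natAbs
      ≤ ((Finset.range 105).filter used).card • b :=
        Finset.sum_le_card_nsmul _ _ _ fun k _ => hb k
    _ = 35 * b := by rw [used_card, smul_eq_mul]

theorem nrm1_unf (X Gn : ℕ) : nrm1 X Gn = ((((X &&& lowm) ^^^
    (Gn * 2596148429267413814265248164610047)) + Gn) * onesB) >>> 2240 &&& gmask := rfl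

theorem nrm0_unf (X : ℕ) : nrm0 X = nrm1 X (ones - ((X >>> 111) &&& ones)) := rfl

theorem nrm_unf (P : ℕ) : nrm P = nrm0 ((P + beta) &&& TN1) := rfl

theorem nrm_ones_eq : ones = pk 112 105 (fun _ => 1) := by decide +kernel

theorem nrm_beta_eq : beta = pk 112 105 (fun _ => 2 ^ 111) := by decide +kernel

theorem nrm_lowm_eq : lowm = pk 112 105 (fun _ => 2 ^ 111 - 1) := by decide +kernel

theorem nrm_onesB_eq : onesB = pk 112 21 (fun _ => 1) := by decide +kernel

theorem nrm_gmask_eq : gmask = pk 112 105 (fun k => if k % 21 = 0 then 2 ^ 112 - 1 else 0) := by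
  decide +kernel

theorem nrm_TN1_eq : TN1 = 2 ^ 11760 - 1 := by decide +kernel

theorem nrm_xor_ones {m x : ℕ} (h : x < 2 ^ m) : x ^^^ (2 ^ m - 1) = 2 ^ m - 1 - x := by
  have e : 2 ^ m - 1 - x = 2 ^ m - (x + 1) := by omega
  rw [e]
  apply Nat.eq_of_testBit_eq
  intro i
  rw [Nat.testBit_xor, Nat.testBit_two_pow_sub_one, Nat.testBit_two_pow_sub_succ h]
  by_cases hi : i < m
  · simp [hi]
  · have : x.testBit i = false := by
      apply Nat.testBit_lt_two_pow
      exact lt_of_lt_of_le h (Nat.pow_le_pow_right (by norm_num) (by omega))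
    simp [hi, this]

/-- one digit -/
theorem nrm_digit {c : ℤ} (hc : c.natAbs < 2 ^ 111) :
    (((c + 2 ^ 111).toNat &&& (2 ^ 111 - 1)) ^^^
      ((1 - (c + 2 ^ 111).toNat / 2 ^ 111) * (2 ^ 111 - 1))) +
      (1 - (c + 2 ^ 111).toNat / 2 ^ 111) = c.natAbs := by
  obtain ⟨A, hA⟩ : ∃ A : ℕ, A = 2 ^ 111 := ⟨_, rfl⟩
  have hAZ : (2 ^ 111 : ℤ) = (A : ℤ) := by rw [hA]; norm_num
  rw [Nat.and_two_pow_sub_one_eq_mod, hAZ]
  rw [← hA] at hc ⊢
  rcases Int.le_total 0 c with h | h
  · obtain ⟨n, hn⟩ := Int.eq_ofNat_of_zero_le h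
    subst hn
    rw [Int.natAbs_natCast] at hc ⊢
    have e1 : (((n : ℤ) + (A : ℤ)).toNat) = A + n := by omega
    rw [e1]
    have e2 : (A + n) / A = 1 := by
      rw [Nat.add_div_left _ (by omega), Nat.div_eq_of_lt hc]
    have e3 : (A + n) % A = n := by
      rw [Nat.add_mod_left, Nat.mod_eq_of_lt hc]
    rw [e2, e3]
    simp
  · obtain ⟨n, hn⟩ := Int.exists_eq_neg_ofNat h
    subst hn
    rw [Int.natAbs_neg, Int.natAbs_natCast] at hc ⊢
    rcases Nat.eq_zero_or_pos n with h0 | h0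
    · subst h0
      have e1 : ((-((0 : ℕ) : ℤ) + (A : ℤ)).toNat) = A := by omega
      rw [e1, Nat.div_self (by omega), Nat.mod_self]
      simp
    · have e1 : ((-(n : ℤ) + (A : ℤ)).toNat) = A - n := by omega
      rw [e1]
      have e2 : (A - n) / A = 0 := Nat.div_eq_of_lt (by omega)
      have e3 : (A - n) % A = A - n := Nat.mod_eq_of_lt (by omega)
      rw [e2, e3, Nat.sub_zero, one_mul]
      have e4 : (A - n) ^^^ (A - 1) = A - 1 - (A - n) := by
        rw [hA]
        apply nrm_xor_ones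
        rw [← hA]
        omega
      rw [e4]
      omega

/-- the product with a block of ones -/
theorem nrm_block (A : ℕ → ℕ) : pk 112 105 A * pk 112 21 (fun _ => 1) =
    pk 112 (105 + 20) (fun m => ∑ k ∈ Finset.range 105, if k ≤ m ∧ m < k + 21 then A k else 0) := by
  unfold pk
  have e1 : ∀ m ∈ Finset.range (105 + 20),
      (∑ k ∈ Finset.range 105, if k ≤ m ∧ m < k + 21 then A k else 0) * 2 ^ (112 * m) =
      ∑ k ∈ Finset.range 105, if k ≤ m ∧ m < k + 21 then A k * 2 ^ (112 * m) else 0 := by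
    intro m _
    rw [Finset.sum_mul]
    refine Finset.sum_congr rfl fun k _ => ?_
    rw [ite_mul, zero_mul]
  rw [Finset.sum_congr rfl e1, Finset.sum_comm, Finset.sum_mul]
  refine Finset.sum_congr rfl fun k hk => ?_
  rw [Finset.mem_range] at hk
  rw [← Finset.sum_filter]
  have e2 : (Finset.range (105 + 20)).filter (fun m => k ≤ m ∧ m < k + 21) =
      Finset.Ico k (k + 21) := by
    ext m
    simp only [Finset.mem_filter, Finset.mem_range, Finset.mem_Ico]
    constructor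
    · rintro ⟨_, h1, h2⟩
      exact ⟨h1, h2⟩
    · rintro ⟨h1, h2⟩
      exact ⟨by omega, h1, h2⟩
  rw [e2, Finset.sum_Ico_eq_sum_range, Nat.add_sub_cancel_left, Finset.mul_sum]
  refine Finset.sum_congr rfl fun j _ => ?_
  rw [one_mul, mul_add, pow_add]
  ring

theorem nrm_block_val (A : ℕ → ℕ) {g : ℕ} (hg : g < 5) :
    (∑ k ∈ Finset.range 105, if k ≤ 21 * g + 20 ∧ 21 * g + 20 < k + 21 then A k else 0) =
      ∑ j ∈ Finset.range 21, A (21 * g + j) := by
  rw [← Finset.sum_filter]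
  have e2 : (Finset.range 105).filter (fun k => k ≤ 21 * g + 20 ∧ 21 * g + 20 < k + 21) =
      Finset.Ico (21 * g) (21 * g + 21) := by
    ext m
    simp only [Finset.mem_filter, Finset.mem_range, Finset.mem_Ico]
    omega
  rw [e2, Finset.sum_Ico_eq_sum_range, Nat.add_sub_cancel_left]

theorem nrm_spec {P b : ℕ} {c : ℕ → ℤ} (hs : Supp c) (hb : ∀ k, (c k).natAbs ≤ b)
    (hP : (P : ℤ) ≡ code c [ZMOD (TN : ℤ)]) (hb' : b ≤ 2 ^ 105) : nrm P = NP c := by
  have hcH : ∀ k, (c k).natAbs < 2 ^ 111 := fun k =>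
    lt_of_le_of_lt ((hb k).trans hb') (Nat.pow_lt_pow_right (by norm_num) (by norm_num))
  obtain ⟨D, hD⟩ : ∃ D : ℕ → ℕ, ∀ k, D k = (c k + 2 ^ 111).toNat := ⟨_, fun _ => rfl⟩
  have hDpos : ∀ k, ((D k : ℕ) : ℤ) = c k + 2 ^ 111 := by
    intro k
    rw [hD, Int.toNat_of_nonneg]
    have := hcH k
    have h2 : (2 ^ 111 : ℤ) = ((2 ^ 111 : ℕ) : ℤ) := by norm_num
    rw [h2]
    omega
  have hDlt : ∀ k, D k < 2 ^ 112 := by
    intro k
    have h1 := hDpos k
    have h2 := hcH k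
    have h3 : (2 ^ 111 : ℤ) = ((2 ^ 111 : ℕ) : ℤ) := by norm_num
    have h4 : (2 ^ 112 : ℕ) = 2 ^ 111 + 2 ^ 111 := by norm_num
    rw [h3] at h1
    rw [h4]
    omega
  have hlt : pk 112 105 D < 2 ^ 11760 := pk_lt 112 105 D fun k _ => hDlt k
  -- step 1
  have hX : (P + beta) &&& TN1 = pk 112 105 D := by
    rw [nrm_TN1_eq, Nat.and_two_pow_sub_one_eq_mod]
    have h1 : ((P + beta : ℕ) : ℤ) ≡ ((pk 112 105 D : ℕ) : ℤ) [ZMOD (TN : ℤ)] := by
      have e : ((pk 112 105 D : ℕ) : ℤ) = code c + (beta : ℤ) := by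
        rw [nrm_beta_eq]
        unfold pk code T
        push_cast
        rw [← Finset.sum_add_distrib]
        refine Finset.sum_congr rfl fun k _ => ?_
        rw [hDpos k, show (5192296858534827628530496329220096 : ℤ) = 2 ^ 112 by norm_num,
          show (2596148429267413814265248164610048 : ℤ) = 2 ^ 111 by norm_num, ← pow_mul]
        ring
      rw [e]
      push_cast
      exact Int.ModEq.add_right _ hP
    have h2 : P + beta ≡ pk 112 105 D [MOD TN] := (Int.natCast_modEq_iff).mp h1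
    have h3 : (P + beta) % TN = pk 112 105 D % TN := h2
    have h4 : TN = 2 ^ 11760 := rfl
    rw [h4] at h3
    rw [h3, Nat.mod_eq_of_lt hlt]
  rw [nrm_unf, hX, nrm0_unf, nrm1_unf]
  -- step 2
  have hdiv : ∀ k, D k / 2 ^ 111 ≤ 1 := by
    intro k
    have h1 := hDlt k
    have h2 : (2 ^ 112 : ℕ) = 2 ^ 111 * 2 := by norm_num
    rw [h2] at h1
    have := Nat.div_lt_of_lt_mul h1
    omega
  have hsh : (pk 112 105 D >>> 111) &&& ones = pk 112 105 (fun k => D k / 2 ^ 111) := by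
    rw [nrm_ones_eq]
    exact pk_shift 112 105 111 D (by norm_num) (by norm_num) fun k _ => hDlt k
  have hG : ones - ((pk 112 105 D >>> 111) &&& ones) =
      pk 112 105 (fun k => 1 - D k / 2 ^ 111) := by
    rw [hsh, nrm_ones_eq]
    exact pk_sub 112 105 (fun _ => 1) (fun k => D k / 2 ^ 111) fun k _ => hdiv k
  rw [hG]
  have hc111 : (2596148429267413814265248164610047 : ℕ) = 2 ^ 111 - 1 := by norm_num
  -- step 3
  have hsmall : (2 ^ 111 - 1 : ℕ) < 2 ^ 112 := by norm_num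
  have hXl : pk 112 105 D &&& lowm = pk 112 105 (fun k => D k &&& (2 ^ 111 - 1)) := by
    rw [nrm_lowm_eq]
    exact pk_land 112 105 D (fun _ => 2 ^ 111 - 1) (by norm_num) (fun k _ => hDlt k)
      (fun k _ => hsmall)
  have hGm : pk 112 105 (fun k => 1 - D k / 2 ^ 111) * 2596148429267413814265248164610047 =
      pk 112 105 (fun k => (1 - D k / 2 ^ 111) * (2 ^ 111 - 1)) := by
    rw [hc111]
    exact pk_mul 112 105 (fun k => 1 - D k / 2 ^ 111) (2 ^ 111 - 1)
  have hxor : pk 112 105 (fun k => D k &&& (2 ^ 111 - 1)) ^^^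
      pk 112 105 (fun k => (1 - D k / 2 ^ 111) * (2 ^ 111 - 1)) =
      pk 112 105 (fun k => (D k &&& (2 ^ 111 - 1)) ^^^
        ((1 - D k / 2 ^ 111) * (2 ^ 111 - 1))) := by
    apply pk_xor 112 105 (fun k => D k &&& (2 ^ 111 - 1))
      (fun k => (1 - D k / 2 ^ 111) * (2 ^ 111 - 1)) (by norm_num)
    · intro k _
      exact lt_of_le_of_lt Nat.and_le_right hsmall
    · intro k _
      have h1 : (1 - D k / 2 ^ 111) * (2 ^ 111 - 1) ≤ 1 * (2 ^ 111 - 1) :=
        Nat.mul_le_mul_right _ (Nat.sub_le _ _)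
      rw [one_mul] at h1
      exact lt_of_le_of_lt h1 hsmall
  rw [hXl, hGm, hxor, pk_add]
  have habs : pk 112 105 (fun k => ((D k &&& (2 ^ 111 - 1)) ^^^
        ((1 - D k / 2 ^ 111) * (2 ^ 111 - 1))) + (1 - D k / 2 ^ 111)) =
      pk 112 105 (fun k => (c k).natAbs) := by
    apply pk_congr
    intro k _
    simp only [hD k]
    exact nrm_digit (hcH k)
  rw [habs, nrm_onesB_eq, nrm_block]
  -- step 4
  obtain ⟨E, hE⟩ : ∃ E : ℕ → ℕ, E = fun m => ∑ k ∈ Finset.range 105,
      if k ≤ m ∧ m < k + 21 then (c k).natAbs else 0 := ⟨_, rfl⟩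
  rw [← hE]
  have hElt : ∀ m, E m < 2 ^ 112 := by
    intro m
    have h1 : E m ≤ NT c := by
      rw [hE]
      unfold NT
      refine Finset.sum_le_sum fun k _ => ?_
      split_ifs
      · exact le_refl _
      · exact Nat.zero_le _
    have h2 := NT_le hs hb
    have h3 : 35 * b ≤ 35 * 2 ^ 105 := Nat.mul_le_mul_left _ hb'
    have h4 : (35 * 2 ^ 105 : ℕ) < 2 ^ 112 := by norm_num
    omega
  have hdrop : pk 112 (105 + 20) E >>> 2240 = pk 112 105 (fun k => E (k + 20)) :=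
    pk_drop 112 105 20 E (by norm_num) fun k _ => hElt k
  rw [hdrop, nrm_gmask_eq]
  rw [pk_select 112 105 (fun k => E (k + 20)) (fun k => k % 21 = 0) (by norm_num)
    (fun k _ => hElt _)]
  unfold pk NP
  have e1 : ∀ k ∈ Finset.range 105, (if k % 21 = 0 then E (k + 20) else 0) * 2 ^ (112 * k) =
      if k % 21 = 0 then E (k + 20) * 2 ^ (112 * k) else 0 := by
    intro k _
    rw [ite_mul, zero_mul]
  rw [Finset.sum_congr rfl e1, ← Finset.sum_filter]
  have e2 : (Finset.range 105).filter (fun k => k % 21 = 0) =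
      (Finset.range 5).image (fun g => 21 * g) := by decide +kernel
  rw [e2, Finset.sum_image (by intro x _ y _ h; simpa using h)]
  refine Finset.sum_congr rfl fun g hg => ?_
  rw [Finset.mem_range] at hg
  have e3 : E (21 * g + 20) = NG c g := by
    rw [hE]
    unfold NG
    exact nrm_block_val (fun k => (c k).natAbs) hg
  rw [e3]
  unfold T
  rw [← pow_mul]

end Pool.Agent.SB19
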