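import Pool.Agent.SB19.Defs

/-!
# SB19/Sem: meaning of the packed Taylor models

Digit number `k < 105` is `used` if it encodes a monomial: `k = 21 g + a2 + 5 a3` with `a2 + a3 ≤ g ≤ 4`; the monomial
is `ε 0 ^ a1 * ε 1 ^ a2 * ε 2 ^ a3` with `a1 = g - a2 - a3` (`g` is the total degree).
-/

set_option autoImplicit false

namespace Pool.Agent.SB19

/-- Total degree of monomial number `k`. -/
def gr (k : ℕ) : ℕ := k / 21
def a2 (k : ℕ) : ℕ := k % 21 % 5
def a3 (k : ℕ) : ℕ := k % 21 / 5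
def a1 (k : ℕ) : ℕ := gr k - a2 k - a3 k

/-- Digits that encode a monomial. -/
def used (k : ℕ) : Prop := k < 105 ∧ a2 k + a3 k ≤ gr k

instance : DecidablePred used := fun k => inferInstanceAs (Decidable (k < 105 ∧ a2 k + a3 k ≤ gr k))

/-- Monomials. -/
noncomputable def mon (ε : ℕ → ℝ) (k : ℕ) : ℝ := ε 0 ^ a1 k * ε 1 ^ a2 k * ε 2 ^ a3 k

/-- The packed integer (not reduced). -/
def code (c : ℕ → ℤ) : ℤ := ∑ k ∈ Finset.range 105, c k * (T : ℤ) ^ k

/-- Value of the polynomial. -/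
noncomputable def val (c : ℕ → ℤ) (ε : ℕ → ℝ) : ℝ := ∑ k ∈ Finset.range 105, (c k : ℝ) * mon ε k

/-- The cube. -/
def Cube (ε : ℕ → ℝ) : Prop := ∀ i, |ε i| ≤ 1

/-- Norm of the part of degree `g`. -/
def NG (c : ℕ → ℤ) (g : ℕ) : ℕ := ∑ j ∈ Finset.range 21, (c (21 * g + j)).natAbs

/-- Total norm. -/
def NT (c : ℕ → ℤ) : ℕ := ∑ k ∈ Finset.range 105, (c k).natAbs

/-- Packed graded norms. -/
def NP (c : ℕ → ℤ) : ℕ := ∑ g ∈ Finset.range 5, NG c g * T ^ (21 * g)

/-- Product of polynomials, truncated. -/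
def conv (c c' : ℕ → ℤ) (k : ℕ) : ℤ :=
  if k < 105 then ∑ i ∈ Finset.range (k + 1), c i * c' (k - i) else 0

/-- The part of the product of the norms that is dropped: total degree at least `5`. -/
def drop (c c' : ℕ → ℤ) : ℕ :=
  ∑ g ∈ Finset.range 5, ∑ g' ∈ Finset.range 5, if 5 ≤ g + g' then NG c g * NG c' g' else 0

/-- Coefficients vanish outside `used`. -/
def Supp (c : ℕ → ℤ) : Prop := ∀ k, ¬ used k → c k = 0

/-- `c` are the coefficients of a Taylor model `(P, b, e)` of `f`. -/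
structure Good (P b e : ℕ) (f : (ℕ → ℝ) → ℝ) (c : ℕ → ℤ) : Prop where
  supp : Supp c
  bd : ∀ k, (c k).natAbs ≤ b
  cod : (P : ℤ) ≡ code c [ZMOD (TN : ℤ)]
  err : ∀ ε, Cube ε → |(S : ℝ) * f ε - val c ε| ≤ e

/-- Meaning of a Taylor model. -/
def Rep : R → ((ℕ → ℝ) → ℝ) → Prop
  | .bad, _ => True
  | .ok P b e, f => ∃ c : ℕ → ℤ, Good P b e f c

theorem T_pos : 0 < T := by unfold T; positivity
theorem S_pos : 0 < S := by unfold S; positivity
theorem TN_eq : TN = T ^ 105 := by unfold TN T; rw [← pow_mul]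
theorem T_eq_two_H : T = 2 * H := by unfold T H; rw [← pow_succ']

theorem bits_spec_used {i j : ℕ} (hi : used i) (hj : used j) (h : i + j < 105) :
    used (i + j) ∧ gr (i + j) = gr i + gr j ∧ a1 (i + j) = a1 i + a1 j ∧ a2 (i + j) = a2 i + a2 j ∧
      a3 (i + j) = a3 i + a3 j := by
  have k1 : ∀ i < 105, ∀ j < 105, used i → used j → i + j < 105 → used (i + j) := by decide +kernel
  have k2 : ∀ i < 105, ∀ j < 105, used i → used j → i + j < 105 → gr (i + j) = gr i + gr j := by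
    decide +kernel
  have k3 : ∀ i < 105, ∀ j < 105, used i → used j → i + j < 105 → a1 (i + j) = a1 i + a1 j := by
    decide +kernel
  have k4 : ∀ i < 105, ∀ j < 105, used i → used j → i + j < 105 → a2 (i + j) = a2 i + a2 j := by
    decide +kernel
  have k5 : ∀ i < 105, ∀ j < 105, used i → used j → i + j < 105 → a3 (i + j) = a3 i + a3 j := by
    decide +kernel
  exact ⟨k1 i hi.1 j hj.1 hi hj h, k2 i hi.1 j hj.1 hi hj h, k3 i hi.1 j hj.1 hi hj h,
    k4 i hi.1 j hj.1 hi hj h, k5 i hi.1 j hj.1 hi hj h⟩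

theorem used_high {i j : ℕ} (hi : used i) (hj : used j) (h : 105 ≤ i + j) : 5 ≤ gr i + gr j := by
  have key : ∀ i < 105, ∀ j < 105, used i → used j → 105 ≤ i + j → 5 ≤ gr i + gr j := by decide +kernel
  exact key i hi.1 j hj.1 hi hj h

theorem used_low {i j : ℕ} (hi : used i) (hj : used j) (h : i + j < 105) : gr i + gr j ≤ 4 := by
  have key : ∀ i < 105, ∀ j < 105, used i → used j → i + j < 105 → gr i + gr j ≤ 4 := by decide +kernel
  exact key i hi.1 j hj.1 hi hj h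

theorem used_card : ((Finset.range 105).filter used).card = 35 := by decide +kernel

theorem used_zero : used 0 := by decide

theorem not_used_small {j : ℕ} (h0 : 0 < j) (h : j < 21) : ¬ used j := by
  have key : ∀ j < 21, 0 < j → ¬ used j := by decide +kernel
  exact key j h h0

theorem mon_zero (ε : ℕ → ℝ) : mon ε 0 = 1 := by simp [mon, a1, a2, a3, gr]

theorem abs_mon_le {ε : ℕ → ℝ} (hε : Cube ε) (k : ℕ) : |mon ε k| ≤ 1 := by
  unfold mon
  rw [abs_mul, abs_mul, abs_pow, abs_pow, abs_pow]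
  have h0 := pow_le_one₀ (abs_nonneg _) (hε 0) (n := a1 k)
  have h1 := pow_le_one₀ (abs_nonneg _) (hε 1) (n := a2 k)
  have h2 := pow_le_one₀ (abs_nonneg _) (hε 2) (n := a3 k)
  calc |ε 0| ^ a1 k * |ε 1| ^ a2 k * |ε 2| ^ a3 k ≤ 1 * 1 * 1 := by
        gcongr
    _ = 1 := by norm_num

theorem mon_add {i j : ℕ} (hi : used i) (hj : used j) (h : i + j < 105) (ε : ℕ → ℝ) :
    mon ε (i + j) = mon ε i * mon ε j := by
  obtain ⟨-, -, h1, h2, h3⟩ := bits_spec_used hi hj h
  unfold mon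
  rw [h1, h2, h3, pow_add, pow_add, pow_add]
  ring

/-- Only the values of `f` on the cube matter. -/
theorem Rep.congr {x : R} {f g : (ℕ → ℝ) → ℝ} (h : Rep x f) (hfg : ∀ ε, Cube ε → f ε = g ε) : Rep x g := by
  cases x with
  | bad => trivial
  | ok P b e =>
    obtain ⟨c, hc⟩ := h
    exact ⟨c, hc.supp, hc.bd, hc.cod, fun ε hε => by rw [← hfg ε hε]; exact hc.err ε hε⟩

end Pool.Agent.SB19
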